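import Pool.Agent.T2H35.Chev.Interface

/-! Actions on `κ → K` of matrix groups, reduction maps -/

namespace Pool.Agent.T2H35.Chev

open Module

section Rho

variable {κ : Type} [Fintype κ] [DecidableEq κ]

/-- The action of an element of `GL κ A` on `κ → K` through a ring homomorphism `A → K`. -/
noncomputable def rhoGL {A K : Type} [CommRing A] [CommRing K] (φ : A →+* K) :
    GL κ A →* ((κ → K) →ₗ[K] (κ → K)) where
  toFun g := Matrix.mulVecLin ((Matrix.GeneralLinearGroup.map φ g : GL κ K) : Matrix κ κ K)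
  map_one' := by
    ext; simp
  map_mul' g h := by
    apply LinearMap.ext
    intro v
    simp [Matrix.mulVec_mulVec]

/-- `g` and `g'` agree modulo `p ^ k`. -/
def SameMod (p k : ℕ) (g g' : GL κ (ZMod (p ^ (k + 1)))) : Prop :=
  Matrix.GeneralLinearGroup.map (ZMod.castHom (pow_dvd_pow p (Nat.le_succ k)) (ZMod (p ^ k))) g =
  Matrix.GeneralLinearGroup.map (ZMod.castHom (pow_dvd_pow p (Nat.le_succ k)) (ZMod (p ^ k))) g'

end Rho

/-- reduction `ℤ/pⁿ → ℤ/p` -/
def redP (p n : ℕ) (hn : 1 ≤ n) : ZMod (p ^ n) →+* ZMod p :=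
  ZMod.castHom (dvd_pow_self p (by omega)) (ZMod p)

/-- The action of a subgroup of `GL κ (ℤ/pⁿ)` on `(ℤ/p)^κ`. -/
noncomputable def rhoSub {κ : Type} [Fintype κ] [DecidableEq κ] (p n : ℕ) (hn : 1 ≤ n)
    (H : Subgroup (GL κ (ZMod (p ^ n)))) : H →* ((κ → ZMod p) →ₗ[ZMod p] (κ → ZMod p)) :=
  (rhoGL (redP p n hn)).comp H.subtype

end Pool.Agent.T2H35.Chev
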