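import Pool.Agent.T2H35.Chev.Interface

/-! Normalising cocycles on a finite subgroup by averaging -/

namespace Pool.Agent.T2H35.Chev

open Module

set_option linter.unusedSectionVars false
set_option linter.unusedVariables false

variable {K G M : Type} [Field K] [Group G] [AddCommGroup M] [Module K M] (ρ : G →* (M →ₗ[K] M))

/-- the coboundary -/
def dd (c : G → M) (g h : G) : M := ρ g (c h) - c (g * h) + c g

lemma isCobdOf_iff {f : G → G → M} {c : G → M} : IsCobdOf ρ f c ↔ ∀ g h, f g h = dd ρ c g h :=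
  Iff.rfl

lemma dd_add (c c' : G → M) (g h : G) : dd ρ (c + c') g h = dd ρ c g h + dd ρ c' g h := by
  unfold dd
  simp only [Pi.add_apply, map_add]
  abel

lemma rho_mul (g h : G) (m : M) : ρ (g * h) m = ρ g (ρ h m) := by
  rw [map_mul]; rfl

lemma rho_one (m : M) : ρ 1 m = m := by rw [map_one]; rfl

lemma isCocycle_sub_dd {f : G → G → M} (hf : IsCocycle ρ f) (c : G → M) :
    IsCocycle ρ (fun g h => f g h - dd ρ c g h) := by
  intro g h k
  have := hf g h k
  simp only [dd, map_sub, map_add, rho_mul, mul_assoc] at *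
  rw [← sub_eq_zero] at this ⊢
  rw [← this]
  abel

variable (Z : Subgroup G) [Fintype Z]

noncomputable def av1 (f : G → G → M) (g : G) : M :=
  ((Nat.card Z : ℕ) : K)⁻¹ • ∑ z : Z, ρ ((z : G)⁻¹) (f z g)

noncomputable def av2 (K : Type) [Field K] [Module K M] (f : G → G → M) (g : G) : M :=
  ((Nat.card Z : ℕ) : K)⁻¹ • ∑ z : Z, f g z

variable {Z} (hZ : ((Nat.card Z : ℕ) : K) ≠ 0)

include hZ

lemma av1_spec {f : G → G → M} (hf : IsCocycle ρ f) {z0 : G} (hz : z0 ∈ Z) (h : G) :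
    f z0 h = dd ρ (av1 ρ Z f) z0 h := by
  have h1 : ∑ z : Z, ρ (z0 * (z : G)⁻¹) (f z h) = ∑ z : Z, ρ ((z : G)⁻¹) (f (z * z0) h) := by
    refine Fintype.sum_equiv (Equiv.mulRight (⟨z0, hz⟩ : Z)⁻¹) _ _ ?_
    intro z
    simp [mul_assoc]
  have h2 : ρ z0 (∑ z : Z, ρ ((z : G)⁻¹) (f z h)) - (∑ z : Z, ρ ((z : G)⁻¹) (f z (z0 * h))) +
      (∑ z : Z, ρ ((z : G)⁻¹) (f z z0)) = ((Nat.card Z : ℕ) : K) • f z0 h := by
    rw [map_sum]
    have h3 : ∀ z : Z, ρ z0 (ρ ((z : G)⁻¹) (f z h)) = ρ (z0 * (z : G)⁻¹) (f z h) := by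
      intro z; rw [rho_mul]
    simp only [h3]
    rw [h1, ← Finset.sum_sub_distrib, ← Finset.sum_add_distrib]
    have h4 : ∀ z : Z, ρ ((z : G)⁻¹) (f (z * z0) h) - ρ ((z : G)⁻¹) (f z (z0 * h)) +
        ρ ((z : G)⁻¹) (f z z0) = f z0 h := by
      intro z
      have h5 := hf z z0 h
      rw [← map_sub, ← map_add]
      have h6 : f (z * z0) h - f z (z0 * h) + f z z0 = ρ z (f z0 h) := by
        rw [eq_comm, ← sub_eq_zero] at h5
        rw [← sub_eq_zero, ← h5]; abel
      rw [h6, ← rho_mul, inv_mul_cancel, rho_one]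
    simp only [h4]
    rw [Finset.sum_const, Finset.card_univ, Nat.card_eq_fintype_card, Nat.cast_smul_eq_nsmul]
  unfold dd av1
  rw [map_smul, ← smul_sub, ← smul_add, h2, inv_smul_smul₀ hZ]

lemma av2_spec {f : G → G → M} (hf : IsCocycle ρ f) (h0 : ∀ z ∈ Z, ∀ g, f z g = 0) {n : G}
    (hn : n ∈ Z) (g : G) : f g n = dd ρ (av2 Z K f) g n ∧ dd ρ (av2 Z K f) n g = 0 := by
  have hc : av2 Z K f n = 0 := by
    unfold av2
    simp [h0 n hn]
  constructor
  · have h1 : ∑ z : Z, f g z = ∑ z : Z, f g (n * z) := by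
      refine Fintype.sum_equiv (Equiv.mulLeft (⟨n, hn⟩ : Z)⁻¹) _ _ ?_
      intro z
      simp
    have h2 : (∑ z : Z, f g z) - ∑ z : Z, f (g * n) z = ((Nat.card Z : ℕ) : K) • f g n := by
      rw [h1, ← Finset.sum_sub_distrib]
      have h4 : ∀ z : Z, f g (n * z) - f (g * n) z = f g n := by
        intro z
        have h5 := hf g n z
        rw [h0 n hn, map_zero, zero_add] at h5
        rw [h5]; abel
      simp only [h4]
      rw [Finset.sum_const, Finset.card_univ, Nat.card_eq_fintype_card, Nat.cast_smul_eq_nsmul]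
    unfold dd
    rw [hc, map_zero, zero_sub, neg_add_eq_sub]
    unfold av2
    rw [← smul_sub, h2, inv_smul_smul₀ hZ]
  · unfold dd
    rw [hc, add_zero, sub_eq_zero]
    unfold av2
    rw [map_smul, map_sum]
    congr 1
    refine Finset.sum_congr rfl ?_
    intro z _
    have h5 := hf n g z
    rw [h0 n hn, h0 n hn, add_zero, add_zero] at h5
    exact h5

omit hZ in
variable (Z) in
/-- the normalising cochain -/
noncomputable def av (f : G → G → M) : G → M :=
  av1 ρ Z f + av2 Z K (fun g h => f g h - dd ρ (av1 ρ Z f) g h)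

/-- **normalisation** -/
theorem av_spec {f : G → G → M} (hf : IsCocycle ρ f) {n : G} (hn : n ∈ Z) (g : G) :
    f n g - dd ρ (av ρ Z f) n g = 0 ∧ f g n - dd ρ (av ρ Z f) g n = 0 := by
  have h1 : ∀ z ∈ Z, ∀ g, f z g - dd ρ (av1 ρ Z f) z g = 0 := by
    intro z hz g
    rw [← av1_spec ρ hZ hf hz, sub_self]
  have h2 := av2_spec ρ hZ (isCocycle_sub_dd ρ hf (av1 ρ Z f)) h1 hn g
  unfold av
  rw [dd_add, dd_add]
  constructor
  · rw [h2.2, add_zero]
    exact h1 n hn g
  · rw [← sub_sub, ← h2.1, sub_self]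

end Pool.Agent.T2H35.Chev
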