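import Pool.Agent.T2H35.Chev.Gauss
import Pool.Agent.T2H35.Chev.Avg

/-! The extension attached to a cocycle; end of the extension argument -/

namespace Pool.Agent.T2H35.Chev

open Module

set_option linter.unusedSectionVars false
set_option linter.unusedVariables false

/-- the extension attached to a cocycle -/
@[ext] structure EE {K G M : Type} [Field K] [Group G] [AddCommGroup M] [Module K M]
    (ρ : G →* (M →ₗ[K] M)) (f : G → G → M) where
  fst : M
  snd : G

namespace EE

variable {K G M : Type} [Field K] [Group G] [AddCommGroup M] [Module K M] {ρ : G →* (M →ₗ[K] M)}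
  {f : G → G → M}

/-- the group structure -/
@[reducible] def group (hf : IsCocycle ρ f) (h1 : ∀ g, f 1 g = 0) : Group (EE ρ f) :=
  letI : Mul (EE ρ f) := ⟨fun a b => ⟨a.fst + ρ a.snd b.fst + f a.snd b.snd, a.snd * b.snd⟩⟩
  letI : One (EE ρ f) := ⟨⟨0, 1⟩⟩
  letI : Inv (EE ρ f) := ⟨fun a => ⟨-ρ a.snd⁻¹ a.fst - f a.snd⁻¹ a.snd, a.snd⁻¹⟩⟩
  Group.ofLeftAxioms
    (by
      intro a b c
      apply EE.ext
      · show (a.fst + ρ a.snd b.fst + f a.snd b.snd) + ρ (a.snd * b.snd) c.fst +
            f (a.snd * b.snd) c.snd =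
          a.fst + ρ a.snd (b.fst + ρ b.snd c.fst + f b.snd c.snd) + f a.snd (b.snd * c.snd)
        have := hf a.snd b.snd c.snd
        rw [rho_mul, map_add, map_add, add_assoc (a.fst), add_assoc (a.fst), add_assoc (a.fst),
          add_assoc (a.fst)]
        congr 1
        rw [eq_comm, ← sub_eq_zero] at this ⊢
        rw [← sub_eq_zero] at this
        have e : ρ a.snd b.fst + ρ a.snd (ρ b.snd c.fst) + ρ a.snd (f b.snd c.snd) +
            f a.snd (b.snd * c.snd) -
            (ρ a.snd b.fst + f a.snd b.snd + ρ a.snd (ρ b.snd c.fst) +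
              f (a.snd * b.snd) c.snd) =
            -(f (a.snd * b.snd) c.snd + f a.snd b.snd -
              (ρ a.snd (f b.snd c.snd) + f a.snd (b.snd * c.snd))) := by abel
        rw [e, sub_zero] at *
        rw [this, neg_zero]
      · show a.snd * b.snd * c.snd = a.snd * (b.snd * c.snd)
        rw [mul_assoc])
    (by
      intro a
      apply EE.ext
      · show 0 + ρ 1 a.fst + f 1 a.snd = a.fst
        rw [h1, rho_one, zero_add, add_zero]
      · show 1 * a.snd = a.snd
        rw [one_mul])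
    (by
      intro a
      apply EE.ext
      · show -ρ a.snd⁻¹ a.fst - f a.snd⁻¹ a.snd + ρ a.snd⁻¹ a.fst + f a.snd⁻¹ a.snd = 0
        abel
      · show a.snd⁻¹ * a.snd = 1
        rw [inv_mul_cancel])

end EE

variable {ι V W : Type} [Fintype ι] [DecidableEq ι] [AddCommGroup V] [Module ℚ V]
  [AddCommGroup W] [Module ℚ W] {P : RootPairing ι ℚ V W} [P.IsCrystallographic] {b : P.Base}
  {R K : Type} [CommRing R] [Field K] {red : R →+* K} {G : Type} [Group G]
  {ρ : G →* (((b.support ⊕ ι) → K) →ₗ[K] ((b.support ⊕ ι) → K))}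

section

variable (C : CG P b R K red G ρ) {f : G → G → ((b.support ⊕ ι) → K)} (hf : IsCocycle ρ f)
  (hN : ∀ n ∈ C.N, ∀ g, f n g = 0 ∧ f g n = 0)

/-- the extension data attached to a normalised cocycle -/
def extOf : letI := EE.group hf (fun g => (hN 1 (one_mem _) g).1); ExtData C (EE ρ f) :=
  letI := EE.group hf (fun g => (hN 1 (one_mem _) g).1)
  { π := { toFun := fun a => a.snd, map_one' := rfl, map_mul' := fun _ _ => rfl }
    j := fun m => ⟨m, 1⟩
    j_add := by
      intro m m'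
      apply EE.ext
      · show m + m' = m + ρ 1 m' + f 1 1
        rw [rho_one, (hN 1 (one_mem _) 1).1, add_zero]
      · show (1 : G) = 1 * 1
        rw [one_mul]
    j_inj := fun m m' h => congrArg EE.fst h
    π_j := fun m => rfl
    ker := fun g hg => ⟨g.fst, EE.ext rfl (Eq.symm hg)⟩
    conj := by
      intro g m
      rw [mul_inv_eq_iff_eq_mul]
      apply EE.ext
      · show g.fst + ρ g.snd m + f g.snd 1 = ρ g.snd m + ρ 1 g.fst + f 1 g.snd
        rw [rho_one, (hN 1 (one_mem _) _).1, (hN 1 (one_mem _) _).2, add_zero, add_zero,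
          add_comm]
      · show g.snd * 1 = 1 * g.snd
        rw [one_mul, mul_one]
    σ :=
      { toFun := fun n => ⟨0, n⟩
        map_one' := rfl
        map_mul' := by
          intro n n'
          apply EE.ext
          · show 0 = 0 + ρ n 0 + f n n'
            rw [map_zero, (hN n n.2 n').1, add_zero, add_zero]
          · rfl }
    π_σ := fun n => rfl }

variable (cc : G → ((b.support ⊕ ι) → K)) (hcN : ∀ n ∈ C.N, ∀ g, cc (n * g * n⁻¹) = ρ n (cc g))
  (hc : ∀ i s t, f (C.x i s) (C.x i t) = dd ρ cc (C.x i s) (C.x i t))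

include hcN in
lemma extOf_conj (n : G) (hn : n ∈ C.N) (g : G) :
    letI := EE.group hf (fun g => (hN 1 (one_mem _) g).1)
    (⟨0, n⟩ : EE ρ f) * ⟨-cc g, g⟩ * (⟨0, n⟩ : EE ρ f)⁻¹ = ⟨-cc (n * g * n⁻¹), n * g * n⁻¹⟩ := by
  let := EE.group hf (fun g => (hN 1 (one_mem _) g).1)
  rw [mul_inv_eq_iff_eq_mul]
  apply EE.ext
  · show 0 + ρ n (-cc g) + f n g = -cc (n * g * n⁻¹) + ρ (n * g * n⁻¹) 0 + f (n * g * n⁻¹) n
    rw [(hN n hn _).1, (hN n hn _).2, map_zero, hcN n hn, map_neg, zero_add, add_zero, add_zero]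
  · show n * g = n * g * n⁻¹ * n
    rw [inv_mul_cancel_right]

/-- the lifts attached to an equivariant cochain -/
def liftsOf : letI := EE.group hf (fun g => (hN 1 (one_mem _) g).1);
    Lifts C (extOf C hf hN) :=
  letI := EE.group hf (fun g => (hN 1 (one_mem _) g).1)
  { y := fun i s => ⟨-cc (C.x i s), C.x i s⟩
    y_add := by
      intro i s t
      apply EE.ext
      · show -cc (C.x i (s + t)) = -cc (C.x i s) + ρ (C.x i s) (-cc (C.x i t)) +
          f (C.x i s) (C.x i t)
        rw [hc, dd, map_neg, ← C.x_add]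
        abel
      · exact C.x_add i s t
    π_y := fun i s => rfl
    y_t := by
      intro e i s
      have h1 := extOf_conj C hf hN cc hcN (C.t e) (C.t_mem e) (C.x i s)
      rw [C.t_conj] at h1
      exact h1
    y_n := by
      intro c i s
      have h1 := extOf_conj C hf hN cc hcN (C.nn c) (C.n_mem c) (C.x i s)
      unfold CG.nn at h1
      rw [C.n_conj] at h1
      exact h1 }

include hf hN hcN hc in
/-- splitting for a normalised cocycle -/
theorem split_norm [P.IsReduced] [P.IsRootSystem] (hR : ∀ s : R, ∃ z : ℤ, (z : R) = s)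
    (hloc : ∀ r : R, red r ≠ 0 → IsUnit r) (h2 : (2 : K) ≠ 0) (h3 : (3 : K) ≠ 0)
    (hdec : ∀ c, ∃ i j, P.root c = P.root i + P.root j) :
    ∃ c, ∀ g h, f g h = dd ρ c g h := by
  let := EE.group hf (fun g => (hN 1 (one_mem _) g).1)
  obtain ⟨L, hL⟩ := (liftsOf C hf hN cc hcN hc).exists_normalised h2
  have hC : L.Comm := L.comm_of_zero hR (fun c d k h h' hk =>
    L.kappa_zero hR hloc (fun c i => (hL c).1 i) h2 h3 h h' hk)
  obtain ⟨τ, hτ⟩ := Lifts.splits hloc hC hdec
  refine ⟨fun g => -(τ g).fst, ?_⟩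
  intro g h
  have h1 : (τ (g * h)).fst = (τ g).fst + ρ (τ g).snd (τ h).fst + f (τ g).snd (τ h).snd := by
    rw [map_mul]; rfl
  have h2 : ∀ g, (τ g).snd = g := hτ
  rw [h2, h2] at h1
  show f g h = ρ g (-(τ h).fst) - -(τ (g * h)).fst + -(τ g).fst
  rw [h1, map_neg]
  abel

end

/-! ### equivariant cochains on the root subgroups -/

section

variable [P.IsReduced] (C : CG P b R K red G ρ)

lemma closed_single (i : ι) : Closed P {i} := by
  rintro a rfl a' rfl k ⟨x, y, hx, hy, hk⟩
  exfalso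
  rw [← add_smul] at hk
  by_cases h : k = a'
  · subst h
    have h1 : (x + y - 1) • P.root k = 0 := by
      have e : x + y = (x + y - 1) + 1 := by omega
      rw [e, add_smul, one_smul] at hk
      exact right_eq_add.mp hk
    rw [← Nat.cast_smul_eq_nsmul ℚ] at h1
    rcases smul_eq_zero.mp h1 with h2 | h2
    · have : x + y - 1 = 0 := by exact_mod_cast h2
      omega
    · exact P.ne_zero k h2
  · by_cases h' : P.root k = - P.root a'
    · rw [h'] at hk
      have h1 : (x + y + 1) • P.root a' = 0 := by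
        rw [add_smul, one_smul, ← hk, neg_add_cancel]
      rw [← Nat.cast_smul_eq_nsmul ℚ] at h1
      rcases smul_eq_zero.mp h1 with h2 | h2
      · have : x + y + 1 = 0 := by exact_mod_cast h2
        omega
      · exact P.ne_zero a' h2
    · have h1 := RootPairing.IsReduced.linearIndependent P h h'
      rw [LinearIndependent.pair_iff] at h1
      have h2 := h1 1 (-((x + y : ℕ) : ℚ)) (by
        rw [hk, one_smul, neg_smul, Nat.cast_smul_eq_nsmul, add_neg_cancel])
      exact one_ne_zero h2.1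

lemma pos_single (i : ι) : Pos P {i} := by
  refine ⟨P.coroot' i, ?_⟩
  rintro k rfl
  rw [coroot'_root, P.pairingIn_same]
  norm_num

include C in
/-- root elements determine the root and the parameter -/
lemma x_inj {i j : ι} {s t : R} (h : C.x i s = C.x j t) : (i = j ∧ s = t) ∨ (s = 0 ∧ t = 0) := by
  by_cases hij : i = j
  · subst hij
    left
    refine ⟨rfl, ?_⟩
    have h1 : C.x i (s - t) = 1 := by
      rw [sub_eq_add_neg, C.x_add, ← C.x_neg, h, mul_inv_cancel]
    have hcl : Closed P (∅ : Set ι) := by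
      intro i hi; exact absurd hi (by simp)
    have hpos : Pos P (∅ : Set ι) := ⟨0, fun k hk => absurd hk (by simp)⟩
    have h2 := C.sep ∅ i (s - t) hcl hpos (by simp) (by rw [h1]; exact one_mem _)
    exact sub_eq_zero.mp h2
  · right
    have h1 := C.sep {j} i s (closed_single j) (pos_single j) (by simpa using hij)
      (by rw [h]; exact C.x_mem_XG (Set.mem_singleton j) t)
    refine ⟨h1, ?_⟩
    have h2 := C.sep {i} j t (closed_single i) (pos_single i) (by simpa using Ne.symm hij)
      (by rw [← h]; exact C.x_mem_XG (Set.mem_singleton i) s)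
    exact h2

variable {f : G → G → ((b.support ⊕ ι) → K)} (hf : IsCocycle ρ f)
  (hN : ∀ n ∈ C.N, ∀ g, f n g = 0 ∧ f g n = 0)

include hf hN in
lemma f_conj {n : G} (hn : n ∈ C.N) (g h : G) :
    f (n * g * n⁻¹) (n * h * n⁻¹) = ρ n (f g h) := by
  have hn' : n⁻¹ ∈ C.N := inv_mem hn
  have l1 : ∀ g h, f (n * g) h = ρ n (f g h) := by
    intro g h
    have := hf n g h
    rw [(hN n hn _).1, (hN n hn _).1, add_zero, add_zero] at this
    exact this.symm
  have l2 : ∀ g h, f (g * n⁻¹) h = f g (n⁻¹ * h) := by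
    intro g h
    have := hf g n⁻¹ h
    rw [(hN _ hn' _).1, (hN _ hn' _).2, map_zero, zero_add, add_zero] at this
    exact this.symm
  have l3 : ∀ g h, f g (h * n⁻¹) = f g h := by
    intro g h
    have := hf g h n⁻¹
    rw [(hN _ hn' _).2, (hN _ hn' _).2, map_zero, zero_add, zero_add] at this
    exact this
  rw [l2, l1, mul_assoc n h, inv_mul_cancel_left, l3]

include hf hN in
/-- equivariant cochain -/
theorem exists_equivariant
    (hroot : ∀ i, ∃ c : R → ((b.support ⊕ ι) → K), ∀ s t,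
      f (C.x i s) (C.x i t) = ρ (C.x i s) (c t) - c (s + t) + c s) :
    ∃ cc : G → ((b.support ⊕ ι) → K), (∀ n ∈ C.N, ∀ g, cc (n * g * n⁻¹) = ρ n (cc g)) ∧
      (∀ i s t, f (C.x i s) (C.x i t) = dd ρ cc (C.x i s) (C.x i t)) := by
  classical
  have := C.N_fin
  let : Fintype C.N := Fintype.ofFinite _
  choose c hc using hroot
  have hc0 : ∀ i, c i 0 = 0 := by
    intro i
    have h1 := hc i 0 0
    rw [C.x_zero, (hN 1 (one_mem _) 1).1, rho_one, add_zero, sub_self, zero_add] at h1
    exact h1.symm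
  -- the cochain on elements
  let cG : G → ((b.support ⊕ ι) → K) := fun g =>
    if h : ∃ i s, g = C.x i s then c h.choose h.choose_spec.choose else 0
  have hcG : ∀ i s, cG (C.x i s) = c i s := by
    intro i s
    have hex : ∃ i' s', C.x i s = C.x i' s' := ⟨i, s, rfl⟩
    simp only [cG]
    rw [dif_pos hex]
    have h1 := hex.choose_spec.choose_spec
    rcases x_inj C h1 with ⟨h2, h3⟩ | ⟨h2, h3⟩
    · rw [← h3, ← h2]
    · have e1 : c i s = 0 := by rw [h2, hc0]
      rw [e1, h3, hc0]
  let cc : G → ((b.support ⊕ ι) → K) := fun g =>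
    ((Nat.card C.N : ℕ) : K)⁻¹ • ∑ n : C.N, ρ (n : G) (cG ((n : G)⁻¹ * g * n))
  have hadd : ∀ i s t, C.x i (s + t) = C.x i s * C.x i t := C.x_add
  refine ⟨cc, ?_, ?_⟩
  · intro n0 hn0 g
    simp only [cc]
    rw [map_smul, map_sum]
    congr 1
    refine Fintype.sum_equiv (Equiv.mulLeft (⟨n0, hn0⟩ : C.N)⁻¹) _ _ ?_
    intro n
    simp only [Equiv.coe_mulLeft, Subgroup.coe_mul, InvMemClass.coe_inv, mul_inv_rev, inv_inv]
    rw [← rho_mul]
    have e1 : n0 * (n0⁻¹ * (n : G)) = n := by group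
    have e2 : (n : G)⁻¹ * n0 * g * (n0⁻¹ * (n : G)) = (n : G)⁻¹ * (n0 * g * n0⁻¹) * n := by
      group
    rw [e1, e2]
  · intro i s t
    have key : ∀ n : C.N, f (C.x i s) (C.x i t) =
        ρ (C.x i s) (ρ (n : G) (cG ((n : G)⁻¹ * C.x i t * n))) -
        ρ (n : G) (cG ((n : G)⁻¹ * (C.x i s * C.x i t) * n)) +
        ρ (n : G) (cG ((n : G)⁻¹ * C.x i s * n)) := by
      intro n
      obtain ⟨j, u, hju⟩ := C.N_perm (n : G)⁻¹ (inv_mem n.2) i
      simp only [inv_inv] at hju
      have h1 := hc j (u * s) (u * t)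
      have h2 := f_conj C hf hN (n := (n : G)⁻¹) (inv_mem n.2) (C.x i s) (C.x i t)
      rw [inv_inv, hju, hju, h1] at h2
      have h3 := congrArg (ρ (n : G)) h2
      rw [← rho_mul (h := (n : G)⁻¹), mul_inv_cancel, rho_one] at h3
      rw [← h3, ← hadd, hju, hju, hju, hcG, hcG, hcG, map_add, map_sub, ← hju s, ← rho_mul,
        ← rho_mul, mul_add]
      have e1 : (n : G) * ((n : G)⁻¹ * C.x i s * n) = C.x i s * n := by group
      rw [e1]
    have hcard := C.N_card
    have hsum : ∑ n : C.N, f (C.x i s) (C.x i t) = ∑ n : C.N,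
        (ρ (C.x i s) (ρ (n : G) (cG ((n : G)⁻¹ * C.x i t * n))) -
        ρ (n : G) (cG ((n : G)⁻¹ * (C.x i s * C.x i t) * n)) +
        ρ (n : G) (cG ((n : G)⁻¹ * C.x i s * n))) :=
      Finset.sum_congr rfl (fun n _ => key n)
    rw [Finset.sum_const, Finset.card_univ, ← Nat.card_eq_fintype_card,
      ← Nat.cast_smul_eq_nsmul K, Finset.sum_add_distrib, Finset.sum_sub_distrib, ← map_sum]
      at hsum
    have h4 := congrArg (fun v => ((Nat.card C.N : ℕ) : K)⁻¹ • v) hsum
    simp only [inv_smul_smul₀ hcard, smul_add, smul_sub] at h4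
    rw [h4]
    unfold dd
    simp only [cc, map_smul]

include hf in
/-- **E-level theorem**: a cocycle which is a coboundary on each root subgroup is a coboundary -/
theorem split_of_CG [P.IsRootSystem] (hR : ∀ s : R, ∃ z : ℤ, (z : R) = s)
    (hloc : ∀ r : R, red r ≠ 0 → IsUnit r) (h2 : (2 : K) ≠ 0) (h3 : (3 : K) ≠ 0)
    (hdec : ∀ c, ∃ i j, P.root c = P.root i + P.root j)
    (hroot : ∀ i, ∃ c : R → ((b.support ⊕ ι) → K), ∀ s t,
      f (C.x i s) (C.x i t) = ρ (C.x i s) (c t) - c (s + t) + c s) :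
    ∃ c, IsCobdOf ρ f c := by
  have := C.N_fin
  let : Fintype C.N := Fintype.ofFinite _
  let c0 := av ρ C.N f
  let f' : G → G → ((b.support ⊕ ι) → K) := fun g h => f g h - dd ρ c0 g h
  have hf' : IsCocycle ρ f' := isCocycle_sub_dd ρ hf c0
  have hN' : ∀ n ∈ C.N, ∀ g, f' n g = 0 ∧ f' g n = 0 := fun n hn g =>
    av_spec ρ C.N_card hf hn g
  have hroot' : ∀ i, ∃ c : R → ((b.support ⊕ ι) → K), ∀ s t,
      f' (C.x i s) (C.x i t) = ρ (C.x i s) (c t) - c (s + t) + c s := by
    intro i
    obtain ⟨c, hc⟩ := hroot i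
    refine ⟨fun s => c s - c0 (C.x i s), fun s t => ?_⟩
    simp only [f', hc, dd, map_sub, C.x_add]
    abel
  obtain ⟨cc, h4, h5⟩ := exists_equivariant C hf' hN' hroot'
  obtain ⟨c, hc⟩ := split_norm C hf' hN' cc h4 h5 hR hloc h2 h3 hdec
  refine ⟨c + c0, ?_⟩
  intro g h
  have h6 := hc g h
  have h7 := dd_add ρ c c0 g h
  simp only [f'] at h6
  show f g h = dd ρ (c + c0) g h
  rw [h7, ← h6]
  abel

end

end Pool.Agent.T2H35.Chev
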