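import Pool.Agent.T2H35.Chev.Comm

/-! Coordinate homomorphisms -/

namespace Pool.Agent.T2H35.Chev

open Module

set_option linter.unusedSectionVars false
set_option linter.unusedVariables false

variable {ι V W : Type} [Fintype ι] [DecidableEq ι] [AddCommGroup V] [Module ℚ V]
  [AddCommGroup W] [Module ℚ W] {P : RootPairing ι ℚ V W} [P.IsCrystallographic] {b : P.Base}
  {R K : Type} [CommRing R] [Field K] {red : R →+* K} {G : Type} [Group G]
  {ρ : G →* (((b.support ⊕ ι) → K) →ₗ[K] ((b.support ⊕ ι) → K))}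

variable {C : CG P b R K red G ρ} {E : Type} [Group E]

variable (P) in
/-- `k` is an indecomposable element of the closed positive set `Ψ`. -/
structure Good (Ψ : Set ι) (k : ι) : Prop where
  cl : Closed P Ψ
  pos : Pos P Ψ
  mem : k ∈ Ψ
  ind : ∀ i ∈ Ψ, ∀ i' ∈ Ψ, k ∉ Psi P i i'

lemma Good.sub {Ψ : Set ι} {k : ι} (h : Good P Ψ k) {i i' : ι} (hi : i ∈ Ψ) (hi' : i' ∈ Ψ) :
    Psi P i i' ⊆ Ψ \ {k} := by
  intro l hl
  refine ⟨h.cl i hi i' hi' hl, ?_⟩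
  rintro rfl
  exact h.ind i hi i' hi' hl

lemma Good.cl' {Ψ : Set ι} {k : ι} (h : Good P Ψ k) : Closed P (Ψ \ {k}) :=
  fun i hi i' hi' => h.sub hi.1 hi'.1

lemma Good.pos' {Ψ : Set ι} {k : ι} (h : Good P Ψ k) : Pos P (Ψ \ {k}) := by
  obtain ⟨l, hl⟩ := h.pos
  exact ⟨l, fun k hk => hl k hk.1⟩

lemma good_Psi [P.IsReduced] {i j k : ι} (h : i ≠ j) (h' : P.root i ≠ - P.root j)
    (hk : P.root k = P.root i + P.root j) : Good P (Psi P i j) k := by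
  refine ⟨closed_Psi P i j, pos_Psi P h h', mem_Psi_add P hk, ?_⟩
  intro a ha a' ha' hka
  have h1 := linfun_Psi P (ell_Psi_pos P h h' ha) (ell_Psi_pos P h h' ha') hka
  have h2 := linfun_Psi P (ell_left_pos P h h') (ell_right_pos P h h') ha
  have h3 := ell_Psi_pos P h h' ha'
  rw [hk, map_add] at h1
  linarith

lemma good_Str [P.IsReduced] {c β k : ι} (h : c ≠ β) (h' : P.root c ≠ - P.root β) {z : ℤ}
    (hk : P.root k = P.root β + z • P.root c) : Good P (Str P c β 1) k := by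
  refine ⟨closed_Str P c β 1, pos_Str P h h' le_rfl, ⟨1, z, le_rfl, by rw [hk, one_smul]⟩, ?_⟩
  intro a ha a' ha' hka
  obtain ⟨n, w, hn, hw⟩ := Psi_Str P ha ha' hka
  have h1 := lam_Str P hw
  have h2 : P.root k = 1 • P.root β + z • P.root c := by rw [hk, one_smul]
  rw [lam_Str P h2] at h1
  have h3 := lam_right_pos P h h'
  have h4 : (n : ℚ) = (1 : ℕ) := by
    have := mul_right_cancel₀ h3.ne' h1
    exact this.symm
  have : n = 1 := by exact_mod_cast h4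
  omega

lemma lin_of_Good [P.IsReduced] {Ψ : Set ι} {k : ι} (h : Good P Ψ k) {i i' : ι} (hi : i ∈ Ψ)
    (hi' : i' ∈ Ψ) : P.root i + P.root i' ≠ 0 := by
  obtain ⟨l, hl⟩ := h.pos
  exact add_ne_zero_of_lin P (hl i hi) (hl i' hi')

namespace Lifts

variable {X : ExtData C E} (L : Lifts C X)

/-- commutator relation, deformed version -/
theorem commT [P.IsReduced] [P.IsRootSystem] (hR : ∀ s : R, ∃ z : ℤ, (z : R) = s) {α β : ι}
    (h : P.root α + P.root β ≠ 0) (a a' : R × K) :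
    L.Y α a * L.Y β a' * (L.Y α a)⁻¹ * (L.Y β a')⁻¹ ∈ L.D true (Psi P α β) :=
  L.commC hR true (fun h => absurd h (by simp)) _ α β rfl h a a' (Or.inl rfl) (Or.inl rfl)

/-- coordinate at `k` of an element of `D(Ψ)` -/
noncomputable def chi (Ψ : Set ι) (k : ι) (g : E) : R × K :=
  open Classical in
  if h : ∃ a, (L.Y k a)⁻¹ * g ∈ L.D true (Ψ \ {k}) then h.choose else 0

variable [P.IsReduced] [P.IsRootSystem] (hR : ∀ s : R, ∃ z : ℤ, (z : R) = s)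

include hR

lemma exactT {Ψ : Set ι} (hcl : Closed P Ψ) (hpos : Pos P Ψ) {m : (b.support ⊕ ι) → K}
    (hm : X.j m ∈ L.D true Ψ) : ∀ k, k ∉ SS b true Ψ → m k = 0 := by
  refine L.exact true _ Ψ rfl hcl hpos ?_ m hm
  intro i hi i' hi' a a' _ _
  obtain ⟨l, hl⟩ := hpos
  exact L.commT hR (add_ne_zero_of_lin P (hl i hi) (hl i' hi')) a a'

lemma norm_good {Ψ : Set ι} {k : ι} (h : Good P Ψ k) {i : ι} (hi : i ∈ Ψ) (a : R × K) :
    ∀ u ∈ L.D true (Ψ \ {k}), L.Y i a * u * (L.Y i a)⁻¹ ∈ L.D true (Ψ \ {k}) := by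
  apply L.conj_mem
  intro i' hi' a' _
  exact L.D_mono (h.sub hi hi'.1) (L.commT hR (lin_of_Good h hi hi'.1) a a')

lemma Y_eq_zero {Ψ : Set ι} {k : ι} (h : Good P Ψ k) {a : R × K}
    (ha : L.Y k a ∈ L.D true (Ψ \ {k})) : a = 0 := by
  have h1 := L.π_D ha
  rw [L.π_Y] at h1
  have h2 := C.sep _ k _ h.cl' h.pos' (by simp) h1
  have h3 : a = (0, a.2) := by rw [← h2]
  rw [h3, L.Y_inr] at ha
  have h4 := L.exactT hR h.cl' h.pos' ha (Sum.inr k) (by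
    rintro ⟨-, i, hi, hik⟩
    rw [Sum.inr.injEq] at hik
    subst hik
    exact hi.2 rfl)
  rw [h3]
  simp only [Pi.smul_apply, ev, Pi.single_eq_same, smul_eq_mul, mul_one] at h4
  rw [h4]; rfl

lemma chi_unique {Ψ : Set ι} {k : ι} (h : Good P Ψ k) {g : E} {a : R × K}
    (ha : (L.Y k a)⁻¹ * g ∈ L.D true (Ψ \ {k})) : L.chi Ψ k g = a := by
  have hex : ∃ a, (L.Y k a)⁻¹ * g ∈ L.D true (Ψ \ {k}) := ⟨a, ha⟩
  unfold chi
  rw [dif_pos hex]
  have h1 := hex.choose_spec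
  set a' := hex.choose
  have h2 := mul_mem ha (inv_mem h1)
  have h3 : (L.Y k a)⁻¹ * g * ((L.Y k a')⁻¹ * g)⁻¹ = L.Y k (a' - a) := by
    rw [sub_eq_neg_add, L.Y_add, ← L.Y_neg]; group
  rw [h3] at h2
  have h4 := L.Y_eq_zero hR h h2
  exact sub_eq_zero.mp h4

lemma chi_spec {Ψ : Set ι} {k : ι} (h : Good P Ψ k) {g : E} (hg : g ∈ L.D true Ψ) :
    (L.Y k (L.chi Ψ k g))⁻¹ * g ∈ L.D true (Ψ \ {k}) := by
  obtain ⟨a, -, ha⟩ := L.peel (d := true) h.mem h.ind h.cl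
    (fun i hi i' hi' a a' _ _ => L.commT hR (lin_of_Good h hi hi') a a') hg
  rw [L.chi_unique hR h ha]
  exact ha

lemma chi_mul {Ψ : Set ι} {k : ι} (h : Good P Ψ k) {g g' : E} (hg : g ∈ L.D true Ψ)
    (hg' : g' ∈ L.D true Ψ) : L.chi Ψ k (g * g') = L.chi Ψ k g + L.chi Ψ k g' := by
  apply L.chi_unique hR h
  have h1 := L.chi_spec hR h hg
  have h2 := L.chi_spec hR h hg'
  set a := L.chi Ψ k g
  set a' := L.chi Ψ k g'
  have h3 := L.norm_good hR h h.mem (-a') _ h1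
  rw [← L.Y_neg, inv_inv] at h3
  have : (L.Y k (a + a'))⁻¹ * (g * g') =
      ((L.Y k a')⁻¹ * ((L.Y k a)⁻¹ * g) * L.Y k a') * ((L.Y k a')⁻¹ * g') := by
    rw [L.Y_add]; group
  rw [this]
  exact mul_mem h3 h2

lemma chi_zero {Ψ : Set ι} {k : ι} (h : Good P Ψ k) {g : E} (hg : g ∈ L.D true (Ψ \ {k})) :
    L.chi Ψ k g = 0 := by
  apply L.chi_unique hR h
  rw [L.Y_zero]; simpa using hg

lemma chi_one {Ψ : Set ι} {k : ι} (h : Good P Ψ k) : L.chi Ψ k 1 = 0 :=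
  L.chi_zero hR h (one_mem _)

lemma chi_inv {Ψ : Set ι} {k : ι} (h : Good P Ψ k) {g : E} (hg : g ∈ L.D true Ψ) :
    L.chi Ψ k g⁻¹ = - L.chi Ψ k g := by
  have := L.chi_mul hR h hg (inv_mem hg)
  rw [mul_inv_cancel, L.chi_one hR h] at this
  exact (neg_eq_of_add_eq_zero_right this.symm).symm

lemma chi_Y {Ψ : Set ι} {k : ι} (h : Good P Ψ k) (a : R × K) : L.chi Ψ k (L.Y k a) = a := by
  apply L.chi_unique hR h
  rw [inv_mul_cancel]; exact one_mem _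

lemma chi_Y_ne {Ψ : Set ι} {k i : ι} (h : Good P Ψ k) (hi : i ∈ Ψ) (hik : i ≠ k) (a : R × K) :
    L.chi Ψ k (L.Y i a) = 0 :=
  L.chi_zero hR h (L.Y_mem (Ψ := Ψ \ {k}) ⟨hi, hik⟩ (Or.inl rfl))

lemma chi_j {Ψ : Set ι} {k : ι} (h : Good P Ψ k) {m : (b.support ⊕ ι) → K}
    (hm : ∀ k, k ∉ SS b true Ψ → m k = 0) : L.chi Ψ k (X.j m) = (0, m (Sum.inr k)) := by
  apply L.chi_unique hR h
  rw [L.Y_inr, X.j_neg, ← X.j_add]
  apply L.j_mem_D
  intro k' hk'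
  rw [Pi.add_apply, Pi.neg_apply, Pi.smul_apply, smul_eq_mul]
  by_cases hkk : k' = Sum.inr k
  · subst hkk; simp [ev]
  · rw [ev, Pi.single_apply, if_neg hkk, mul_zero, neg_zero, zero_add]
    apply hm
    rintro ⟨-, i, hi, rfl⟩
    apply hk'
    refine ⟨rfl, i, ⟨hi, ?_⟩, rfl⟩
    rintro rfl
    exact hkk rfl

lemma chi_mono {Ψ Ψ' : Set ι} {k : ι} (h : Good P Ψ k) (h' : Good P Ψ' k) (hsub : Ψ ⊆ Ψ')
    {g : E} (hg : g ∈ L.D true Ψ) : L.chi Ψ' k g = L.chi Ψ k g := by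
  apply L.chi_unique hR h'
  exact L.D_mono (Set.sdiff_subset_sdiff_left hsub) (L.chi_spec hR h hg)

/-- two homomorphisms on `D(Ψ)` agree if they agree on generators -/
lemma hom_ext {A : Type} [AddCommGroup A] {Ψ : Set ι} (F F' : E → A)
    (hF : ∀ g ∈ L.D true Ψ, ∀ g' ∈ L.D true Ψ, F (g * g') = F g + F g')
    (hF' : ∀ g ∈ L.D true Ψ, ∀ g' ∈ L.D true Ψ, F' (g * g') = F' g + F' g')
    (hgen : ∀ k ∈ Ψ, ∀ a, F (L.Y k a) = F' (L.Y k a)) :
    ∀ g ∈ L.D true Ψ, F g = F' g := by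
  have h1 : F 1 = 0 := by
    have := hF 1 (one_mem _) 1 (one_mem _)
    rw [mul_one] at this
    exact left_eq_add.mp this
  have h1' : F' 1 = 0 := by
    have := hF' 1 (one_mem _) 1 (one_mem _)
    rw [mul_one] at this
    exact left_eq_add.mp this
  intro g hg
  refine Subgroup.closure_induction'' (p := fun g _ => F g = F' g) ?_ ?_ ?_ ?_ hg
  · rintro _ ⟨k, hk, a, ha, rfl⟩
    exact hgen k hk a
  · rintro _ ⟨k, hk, a, ha, rfl⟩
    rw [L.Y_neg]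
    exact hgen k hk (-a)
  · rw [h1, h1']
  · intro g g' hg hg' h h'
    rw [hF g hg g' hg', hF' g hg g' hg', h, h']

end Lifts

end Pool.Agent.T2H35.Chev
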