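import Pool.Agent.T2H35.Chev.Interface

/-! Root combinatorics for the extension argument -/

namespace Pool.Agent.T2H35.Chev

open Module

set_option linter.unusedSectionVars false
set_option linter.unusedVariables false

variable {ι V W : Type} [AddCommGroup V] [Module ℚ V] [AddCommGroup W] [Module ℚ W]
  (P : RootPairing ι ℚ V W)

lemma root_neg (i : ι) : P.root (neg P i) = - P.root i := by simp [neg]

lemma neg_neg' (i : ι) : neg P (neg P i) = i := by
  apply P.root.injective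
  rw [root_neg, root_neg, neg_neg]

lemma mem_Psi {i j k : ι} {a c : ℕ} (ha : 1 ≤ a) (hc : 1 ≤ c)
    (h : P.root k = a • P.root i + c • P.root j) : k ∈ Psi P i j := ⟨a, c, ha, hc, h⟩

lemma Psi_comm (i j : ι) : Psi P i j = Psi P j i := by
  ext k
  constructor
  · rintro ⟨a, c, ha, hc, h⟩
    exact ⟨c, a, hc, ha, by rw [h, add_comm]⟩
  · rintro ⟨a, c, ha, hc, h⟩
    exact ⟨c, a, hc, ha, by rw [h, add_comm]⟩

lemma mem_Psi_add {i j k : ι} (h : P.root k = P.root i + P.root j) : k ∈ Psi P i j :=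
  ⟨1, 1, le_rfl, le_rfl, by simpa using h⟩

lemma closed_Psi (i j : ι) : Closed P (Psi P i j) := by
  rintro k ⟨a, c, ha, hc, hk⟩ k' ⟨a', c', ha', hc', hk'⟩ l ⟨x, y, hx, hy, hl⟩
  refine ⟨x * a + y * a', x * c + y * c', ?_, ?_, ?_⟩
  · nlinarith
  · nlinarith
  · rw [hl, hk, hk']
    module

/-- `Ψ_{i,δ} ⊆ Ψ_{i,j}` for `δ ∈ Ψ_{i,j}`. -/
lemma Psi_left_subset {i j d : ι} (hd : d ∈ Psi P i j) : Psi P i d ⊆ Psi P i j := by
  obtain ⟨a, c, ha, hc, hk⟩ := hd
  rintro l ⟨x, y, hx, hy, hl⟩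
  refine ⟨x + y * a, y * c, ?_, ?_, ?_⟩
  · nlinarith
  · nlinarith
  · rw [hl, hk]
    module

lemma Psi_right_subset {i j d : ι} (hd : d ∈ Psi P i j) : Psi P j d ⊆ Psi P i j := by
  rw [Psi_comm P i j]
  exact Psi_left_subset P (by rwa [Psi_comm P j i])

lemma linfun_Psi {l : V →ₗ[ℚ] ℚ} {i j k : ι} (hi : 0 < l (P.root i)) (hj : 0 < l (P.root j))
    (hk : k ∈ Psi P i j) : l (P.root i) + l (P.root j) ≤ l (P.root k) := by
  obtain ⟨a, c, ha, hc, hk⟩ := hk
  rw [hk, map_add, map_nsmul, map_nsmul]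
  have h1 : l (P.root i) ≤ a • l (P.root i) := by
    rw [nsmul_eq_mul]
    have : (1 : ℚ) ≤ a := by exact_mod_cast ha
    nlinarith
  have h2 : l (P.root j) ≤ c • l (P.root j) := by
    rw [nsmul_eq_mul]
    have : (1 : ℚ) ≤ c := by exact_mod_cast hc
    nlinarith
  linarith

variable [P.IsCrystallographic] [P.IsReduced] [Finite ι]

lemma pairing_eq_cast (i j : ι) : P.pairing i j = (P.pairingIn ℤ i j : ℚ) := by
  rw [← P.algebraMap_pairingIn ℤ]; rfl

lemma coroot'_root (i e : ι) : P.coroot' e (P.root i) = (P.pairingIn ℤ i e : ℚ) := by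
  rw [P.root_coroot'_eq_pairing, pairing_eq_cast]

/-- product of pairings is `< 4` for independent roots -/
lemma four_sub_pos {i j : ι} (h : i ≠ j) (h' : P.root i ≠ - P.root j) :
    0 < 4 - P.pairingIn ℤ i j * P.pairingIn ℤ j i := by
  have := P.pairingIn_pairingIn_mem_set_of_isCrystal_of_isRed' (i := i) (j := j)
    (fun e => h (P.root.injective e)) h'
  simp only [Set.mem_insert_iff, Prod.mk.injEq, Set.mem_singleton_iff] at this
  rcases this with ⟨h1, h2⟩ | ⟨h1, h2⟩ | ⟨h1, h2⟩ | ⟨h1, h2⟩ | ⟨h1, h2⟩ | ⟨h1, h2⟩ | ⟨h1, h2⟩ |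
    ⟨h1, h2⟩ | ⟨h1, h2⟩ | ⟨h1, h2⟩ | ⟨h1, h2⟩ <;> rw [h1, h2] <;> norm_num

lemma four_sub_le {i j : ι} (h : i ≠ j) (h' : P.root i ≠ - P.root j) :
    4 - P.pairingIn ℤ i j * P.pairingIn ℤ j i ≤ 4 := by
  have := P.pairingIn_pairingIn_mem_set_of_isCrystal_of_isRed' (i := i) (j := j)
    (fun e => h (P.root.injective e)) h'
  simp only [Set.mem_insert_iff, Prod.mk.injEq, Set.mem_singleton_iff] at this
  rcases this with ⟨h1, h2⟩ | ⟨h1, h2⟩ | ⟨h1, h2⟩ | ⟨h1, h2⟩ | ⟨h1, h2⟩ | ⟨h1, h2⟩ | ⟨h1, h2⟩ |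
    ⟨h1, h2⟩ | ⟨h1, h2⟩ | ⟨h1, h2⟩ | ⟨h1, h2⟩ <;> rw [h1, h2] <;> norm_num

lemma abs_pairingIn_le (i j : ι) : |P.pairingIn ℤ i j| ≤ 3 := by
  have := P.pairingIn_pairingIn_mem_set_of_isCrystal_of_isRed (i := i) (j := j)
  simp only [Set.mem_insert_iff, Prod.mk.injEq, Set.mem_singleton_iff] at this
  rcases this with ⟨h1, h2⟩ | ⟨h1, h2⟩ | ⟨h1, h2⟩ | ⟨h1, h2⟩ | ⟨h1, h2⟩ | ⟨h1, h2⟩ | ⟨h1, h2⟩ |
    ⟨h1, h2⟩ | ⟨h1, h2⟩ | ⟨h1, h2⟩ | ⟨h1, h2⟩ | ⟨h1, h2⟩ | ⟨h1, h2⟩ <;> rw [h1] <;> norm_num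

/-- the functional `ℓ_{ij}` with `ℓ(α_i) = ℓ(α_j) > 0` -/
noncomputable def ell (i j : ι) : V →ₗ[ℚ] ℚ :=
  (2 - (P.pairingIn ℤ i j : ℚ)) • P.coroot' i + (2 - (P.pairingIn ℤ j i : ℚ)) • P.coroot' j

lemma ell_left (i j : ι) : ell P i j (P.root i) =
    4 - (P.pairingIn ℤ i j : ℚ) * (P.pairingIn ℤ j i : ℚ) := by
  simp only [ell, LinearMap.add_apply, LinearMap.smul_apply, smul_eq_mul]
  rw [coroot'_root, coroot'_root, P.pairingIn_same]
  push_cast; ring

lemma ell_right (i j : ι) : ell P i j (P.root j) =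
    4 - (P.pairingIn ℤ i j : ℚ) * (P.pairingIn ℤ j i : ℚ) := by
  simp only [ell, LinearMap.add_apply, LinearMap.smul_apply, smul_eq_mul]
  rw [coroot'_root, coroot'_root, P.pairingIn_same]
  push_cast; ring

lemma ell_left_pos {i j : ι} (h : i ≠ j) (h' : P.root i ≠ - P.root j) :
    0 < ell P i j (P.root i) := by
  rw [ell_left]
  have := four_sub_pos P h h'
  exact_mod_cast this

lemma ell_right_pos {i j : ι} (h : i ≠ j) (h' : P.root i ≠ - P.root j) :
    0 < ell P i j (P.root j) := by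
  rw [ell_right]
  have := four_sub_pos P h h'
  exact_mod_cast this

lemma ell_Psi_pos {i j k : ι} (h : i ≠ j) (h' : P.root i ≠ - P.root j) (hk : k ∈ Psi P i j) :
    0 < ell P i j (P.root k) := by
  have := linfun_Psi P (ell_left_pos P h h') (ell_right_pos P h h') hk
  have h1 := ell_left_pos P h h'
  have h2 := ell_right_pos P h h'
  linarith

lemma pos_Psi {i j : ι} (h : i ≠ j) (h' : P.root i ≠ - P.root j) : Pos P (Psi P i j) :=
  ⟨ell P i j, fun _ hk => ell_Psi_pos P h h' hk⟩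

/-- if `c ≠ ±β`: the functional vanishing on `α_c` and positive on `α_β` -/
noncomputable def lam (c β : ι) : V →ₗ[ℚ] ℚ :=
  (2 : ℚ) • P.coroot' β - (P.pairingIn ℤ c β : ℚ) • P.coroot' c

lemma lam_self (c β : ι) : lam P c β (P.root c) = 0 := by
  simp only [lam, LinearMap.sub_apply, LinearMap.smul_apply, smul_eq_mul]
  rw [coroot'_root, coroot'_root, P.pairingIn_same]
  push_cast; ring

lemma lam_right (c β : ι) : lam P c β (P.root β) =
    4 - (P.pairingIn ℤ c β : ℚ) * (P.pairingIn ℤ β c : ℚ) := by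
  simp only [lam, LinearMap.sub_apply, LinearMap.smul_apply, smul_eq_mul]
  rw [coroot'_root, coroot'_root, P.pairingIn_same]
  push_cast; ring

lemma lam_right_pos {c β : ι} (h : c ≠ β) (h' : P.root c ≠ - P.root β) :
    0 < lam P c β (P.root β) := by
  rw [lam_right]
  have := four_sub_pos P h h'
  exact_mod_cast this

/-- The roots `a β + z c` with `a ≥ n`. -/
def Str (c β : ι) (n : ℕ) : Set ι :=
  {k | ∃ (a : ℕ) (z : ℤ), n ≤ a ∧ P.root k = a • P.root β + z • P.root c}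

omit [P.IsCrystallographic] [P.IsReduced] [Finite ι] in
lemma Str_mono (c β : ι) {n n' : ℕ} (h : n ≤ n') : Str P c β n' ⊆ Str P c β n := by
  rintro k ⟨a, z, ha, hk⟩
  exact ⟨a, z, h.trans ha, hk⟩

lemma lam_Str {c β k : ι} {a : ℕ} {z : ℤ} (hk : P.root k = a • P.root β + z • P.root c) :
    lam P c β (P.root k) = a * lam P c β (P.root β) := by
  rw [hk, map_add, map_nsmul, map_zsmul, lam_self, smul_zero, add_zero, nsmul_eq_mul]

lemma pos_Str {c β : ι} (h : c ≠ β) (h' : P.root c ≠ - P.root β) {n : ℕ} (hn : 1 ≤ n) :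
    Pos P (Str P c β n) := by
  refine ⟨lam P c β, ?_⟩
  rintro k ⟨a, z, ha, hk⟩
  rw [lam_Str P hk]
  have h1 := lam_right_pos P h h'
  have : (1 : ℚ) ≤ a := by exact_mod_cast hn.trans ha
  positivity

omit [P.IsCrystallographic] [P.IsReduced] [Finite ι] in
/-- sums of two elements of `Str n` lie in `Str (2n)` -/
lemma Psi_Str {c β : ι} {n : ℕ} {k k' : ι} (hk : k ∈ Str P c β n) (hk' : k' ∈ Str P c β n) :
    Psi P k k' ⊆ Str P c β (n + n) := by
  obtain ⟨a, z, ha, hk⟩ := hk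
  obtain ⟨a', z', ha', hk'⟩ := hk'
  rintro l ⟨x, y, hx, hy, hl⟩
  refine ⟨x * a + y * a', x * z + y * z', ?_, ?_⟩
  · nlinarith
  · rw [hl, hk, hk']
    module

omit [P.IsCrystallographic] [P.IsReduced] [Finite ι] in
lemma closed_Str (c β : ι) (n : ℕ) : Closed P (Str P c β n) :=
  fun _ hi _ hj => (Psi_Str P hi hj).trans (Str_mono P c β (by omega))

omit [P.IsCrystallographic] [P.IsReduced] [Finite ι] in
/-- adding `c` keeps the level -/
lemma Psi_c_Str {c β : ι} {n : ℕ} {k : ι} (hk : k ∈ Str P c β n) :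
    Psi P c k ⊆ Str P c β n := by
  obtain ⟨a, z, ha, hk⟩ := hk
  rintro l ⟨x, y, hx, hy, hl⟩
  refine ⟨y * a, x + y * z, ?_, ?_⟩
  · nlinarith
  · rw [hl, hk]
    module

omit [P.IsCrystallographic] [P.IsReduced] [Finite ι] in
lemma Str_neg (c β : ι) (n : ℕ) : Str P (neg P c) β n = Str P c β n := by
  ext k
  constructor
  · rintro ⟨a, z, ha, hk⟩
    exact ⟨a, -z, ha, by rw [hk, root_neg]; module⟩
  · rintro ⟨a, z, ha, hk⟩
    exact ⟨a, -z, ha, by rw [hk, root_neg]; module⟩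

lemma not_mem_Psi_left {i j d : ι} (h : i ≠ j) (h' : P.root i ≠ - P.root j)
    (hd : d ∈ Psi P i j) : d ∉ Psi P i d := by
  intro h2
  have h3 := linfun_Psi P (ell_left_pos P h h') (ell_Psi_pos P h h' hd) h2
  have h4 := ell_left_pos P h h'
  linarith

lemma not_mem_Psi_mid {i j d d' : ι} (h : i ≠ j) (h' : P.root i ≠ - P.root j)
    (hd : d ∈ Psi P i j) (hd' : d' ∈ Psi P i j) : d ∉ Psi P d d' := by
  intro h2
  have h3 := linfun_Psi P (ell_Psi_pos P h h' hd) (ell_Psi_pos P h h' hd') h2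
  have h4 := ell_Psi_pos P h h' hd'
  linarith

lemma ncard_left {i j d : ι} (h : i ≠ j) (h' : P.root i ≠ - P.root j)
    (hd : d ∈ Psi P i j) : (Psi P i d).ncard < (Psi P i j).ncard := by
  apply Set.ncard_lt_ncard _ (Set.toFinite _)
  exact ⟨Psi_left_subset P hd, fun h2 => not_mem_Psi_left P h h' hd (h2 hd)⟩

lemma ncard_right {i j d : ι} (h : i ≠ j) (h' : P.root i ≠ - P.root j)
    (hd : d ∈ Psi P i j) : (Psi P j d).ncard < (Psi P i j).ncard := by
  rw [Psi_comm P i j] at hd ⊢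
  refine ncard_left P (Ne.symm h) ?_ hd
  intro h2
  exact h' (by rw [h2, neg_neg])

lemma ncard_mid {i j d d' : ι} (h : i ≠ j) (h' : P.root i ≠ - P.root j)
    (hd : d ∈ Psi P i j) (hd' : d' ∈ Psi P i j) : (Psi P d d').ncard < (Psi P i j).ncard := by
  apply Set.ncard_lt_ncard _ (Set.toFinite _)
  exact ⟨closed_Psi P i j d hd d' hd', fun h2 => not_mem_Psi_mid P h h' hd hd' (h2 hd)⟩

omit [P.IsCrystallographic] [P.IsReduced] [Finite ι] in
lemma add_ne_zero_of_lin {l : V →ₗ[ℚ] ℚ} {i j : ι} (hi : 0 < l (P.root i))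
    (hj : 0 < l (P.root j)) : P.root i + P.root j ≠ 0 := by
  intro h
  have := congrArg l h
  rw [map_add, map_zero] at this
  linarith

/-- separation of weights by coroots -/
lemma sep_wt [P.IsRootSystem] (b : P.Base) (α β : ι) (k : b.support ⊕ ι)
    (h : wt P b k ≠ P.root α + P.root β) :
    ∃ e, P.pairingIn ℤ α e + P.pairingIn ℤ β e - wtp P b k e ≠ 0 := by
  by_contra hcon
  push Not at hcon
  apply h
  have h0 : P.root α + P.root β - wt P b k = 0 := by
    rw [P.eq_zero_iff_forall_coroot'_eq_zero]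
    intro e
    have h1 := hcon e
    rw [map_sub, map_add, coroot'_root, coroot'_root]
    cases k with
    | inl j =>
      simp only [wt, Sum.elim_inl, map_zero, wtp] at *
      have : ((P.pairingIn ℤ α e + P.pairingIn ℤ β e - 0 : ℤ) : ℚ) = 0 := by rw [h1]; simp
      push_cast at this
      linarith
    | inr i =>
      simp only [wt, Sum.elim_inr, wtp] at *
      rw [coroot'_root]
      have : ((P.pairingIn ℤ α e + P.pairingIn ℤ β e - P.pairingIn ℤ i e : ℤ) : ℚ) = 0 := by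
        rw [h1]; simp
      push_cast at this
      linarith
  rw [sub_eq_zero] at h0
  exact h0.symm

lemma abs_wtp_le (b : P.Base) (k : b.support ⊕ ι) (e : ι) : |wtp P b k e| ≤ 3 := by
  cases k with
  | inl j => simp [wtp]
  | inr i => exact abs_pairingIn_le P i e

end Pool.Agent.T2H35.Chev
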