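import Pool.Agent.T2H35.Chev.Ext

/-! Commutator relations for lifts of root subgroups -/

namespace Pool.Agent.T2H35.Chev

open Module

set_option linter.unusedSectionVars false
set_option linter.unusedVariables false

variable {ι V W : Type} [Fintype ι] [DecidableEq ι] [AddCommGroup V] [Module ℚ V]
  [AddCommGroup W] [Module ℚ W] {P : RootPairing ι ℚ V W} [P.IsCrystallographic] {b : P.Base}
  {R K : Type} [CommRing R] [Field K] {red : R →+* K} {G : Type} [Group G]
  {ρ : G →* (((b.support ⊕ ι) → K) →ₗ[K] ((b.support ⊕ ι) → K))}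

variable {C : CG P b R K red G ρ} {E : Type} [Group E]

lemma CG.t_ev (C : CG P b R K red G ρ) (e i : ι) :
    ρ (C.t e) (ev b K i) = red ((C.q ^ (P.pairingIn ℤ i e) : Rˣ) : R) • ev b K i := by
  rw [C.t_act]
  funext k
  by_cases hk : k = Sum.inr i
  · subst hk; simp [wtp, ev]
  · simp [ev, Pi.single_apply, hk]

namespace Lifts

variable {X : ExtData C E} (L : Lifts C X)

lemma j_mem_D [P.IsReduced] {d : Bool} {Ψ : Set ι} {m : (b.support ⊕ ι) → K}
    (hm : ∀ k, k ∉ SS b d Ψ → m k = 0) : X.j m ∈ L.D d Ψ := by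
  classical
  let A : AddSubgroup ((b.support ⊕ ι) → K) :=
    { carrier := {m | X.j m ∈ L.D d Ψ}
      add_mem' := by
        intro a a' ha ha'
        simp only [Set.mem_ofPred_eq] at *
        rw [X.j_add]; exact mul_mem ha ha'
      zero_mem' := by
        simp only [Set.mem_ofPred_eq]
        rw [X.j_zero]; exact one_mem _
      neg_mem' := by
        intro a ha
        simp only [Set.mem_ofPred_eq] at *
        rw [← X.j_neg]; exact inv_mem ha }
  have h1 : m = ∑ k, Pi.single k (m k) := by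
    funext k
    rw [Finset.sum_apply]
    simp [Pi.single_apply]
  have h2 : m ∈ A := by
    rw [h1]
    apply sum_mem
    intro k _
    by_cases hk : k ∈ SS b d Ψ
    · obtain ⟨hd, i, hi, rfl⟩ := hk
      show X.j _ ∈ L.D d Ψ
      have : (Pi.single (Sum.inr i) (m (Sum.inr i)) : (b.support ⊕ ι) → K) =
          (m (Sum.inr i)) • ev b K i := by
        funext k; simp [ev, Pi.single_apply]
      rw [this, ← L.Y_inr]
      exact L.Y_mem hi (Or.inl hd)
    · rw [hm k hk]
      simpa using A.zero_mem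
  exact h2

lemma tt_Y (e i : ι) (a : R × K) : X.tt e * L.Y i a * (X.tt e)⁻¹ =
    L.Y i (((C.q ^ (P.pairingIn ℤ i e) : Rˣ) : R) * a.1,
      red ((C.q ^ (P.pairingIn ℤ i e) : Rˣ) : R) * a.2) := by
  unfold Y
  have h1 := X.conj (X.tt e) (a.2 • ev b K i)
  rw [X.π_tt, map_smul, C.t_ev, smul_smul, mul_comm] at h1
  have h2 := L.y_t e i a.1
  simp only
  rw [← h1, ← h2]
  group

lemma tt_D {d : Bool} {Ψ : Set ι} (e : ι) {u : E} (hu : u ∈ L.D d Ψ) :
    X.tt e * u * (X.tt e)⁻¹ ∈ L.D d Ψ := by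
  have : L.D d Ψ ≤ (L.D d Ψ).comap (MulAut.conj (X.tt e)).toMonoidHom := by
    conv_lhs => rw [D]
    rw [Subgroup.closure_le]
    rintro _ ⟨k, hk, a, ha, rfl⟩
    rw [SetLike.mem_coe, Subgroup.mem_comap]
    have h1 := L.tt_Y e k a
    have h2 : X.tt e * L.Y k a * (X.tt e)⁻¹ ∈ L.D d Ψ := by
      rw [h1]
      apply L.Y_mem hk
      rcases ha with ha | ha
      · exact Or.inl ha
      · right; simp [ha]
    exact h2
  exact this hu

/-- vectors supported on `Ψ ∪ {α, β}` are fixed modulo `Ψ` by `XG Ψ`. -/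
lemma _root_.Pool.Agent.T2H35.Chev.CG.fix_mod (C : CG P b R K red G ρ) {Ψ : Set ι} {α β : ι}
    {l : V →ₗ[ℚ] ℚ} (hl : ∀ k ∈ Ψ, 0 < l (P.root k)) (hα : 0 < l (P.root α))
    (hβ : 0 < l (P.root β)) (hcl : Closed P Ψ) (hαΨ : ∀ k ∈ Ψ, Psi P α k ⊆ Ψ)
    (hβΨ : ∀ k ∈ Ψ, Psi P β k ⊆ Ψ) {g : G} (hg : g ∈ C.XG Ψ) :
    ∀ v : (b.support ⊕ ι) → K,
      (∀ k, k ∉ SS b true Ψ → k ≠ Sum.inr α → k ≠ Sum.inr β → v k = 0) →
      ∀ k, k ∉ SS b true Ψ → ρ g v k = v k := by
  have gen : ∀ i ∈ Ψ, ∀ s, ∀ v : (b.support ⊕ ι) → K,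
      (∀ k, k ∉ SS b true Ψ → k ≠ Sum.inr α → k ≠ Sum.inr β → v k = 0) →
      ∀ k, k ∉ SS b true Ψ → ρ (C.x i s) v k = v k := by
    intro i hi s v hv k hk
    apply C.raise
    intro k' a ha hw
    have key : ∀ c, 0 < l (P.root c) → (∀ k ∈ Ψ, Psi P c k ⊆ Ψ) → k' ≠ Sum.inr c := by
      rintro c hc hcΨ rfl
      have hw' : wt P b (Sum.inr c) = P.root c := rfl
      rw [hw'] at hw
      have hli := hl i hi
      have hai : 0 < (a : ℚ) * l (P.root i) := by
        have : (0 : ℚ) < a := by exact_mod_cast ha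
        positivity
      have hlw : l (wt P b k) = l (P.root c) + a * l (P.root i) := by
        rw [hw, map_add, map_nsmul, nsmul_eq_mul]
      cases k with
      | inl j =>
        have : wt P b (Sum.inl j) = 0 := rfl
        rw [this, map_zero] at hlw
        linarith
      | inr k0 =>
        have : wt P b (Sum.inr k0) = P.root k0 := rfl
        rw [this] at hw
        apply hk
        refine ⟨rfl, k0, ?_, rfl⟩
        exact hcΨ i hi ⟨1, a, le_rfl, ha, by rw [hw]; simp⟩
    by_cases hk' : k' ∈ SS b true Ψ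
    · obtain ⟨-, c, hc, rfl⟩ := hk'
      exact absurd rfl (key c (hl c hc) (fun k hk => hcl c hc k hk))
    · exact hv k' hk' (key α hα hαΨ) (key β hβ hβΨ)
  refine Subgroup.closure_induction'' (p := fun g _ => ∀ v : (b.support ⊕ ι) → K,
      (∀ k, k ∉ SS b true Ψ → k ≠ Sum.inr α → k ≠ Sum.inr β → v k = 0) →
      ∀ k, k ∉ SS b true Ψ → ρ g v k = v k) ?_ ?_ ?_ ?_ hg
  · rintro _ ⟨i, hi, s, rfl⟩
    exact gen i hi s
  · rintro _ ⟨i, hi, s, rfl⟩
    rw [C.x_neg]
    exact gen i hi (-s)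
  · intro v _ k _
    simp
  · intro g h _ _ hg hh v hv k hk
    rw [map_mul, Module.End.mul_apply, hg _ _ k hk, hh v hv k hk]
    intro k' hk' h1 h2
    rw [hh v hv k' hk', hv k' hk' h1 h2]

/-- **Commutator relations** (deformed for `d = true`, exact for `d = false`). -/
theorem commC [P.IsReduced] [P.IsRootSystem] (hR : ∀ s : R, ∃ z : ℤ, (z : R) = s) (d : Bool)
    (Hzero : d = false → ∀ α β κ0 s t (m : (b.support ⊕ ι) → K),
      P.root κ0 = P.root α + P.root β →
      (X.j m)⁻¹ * (L.y α s * L.y β t * (L.y α s)⁻¹ * (L.y β t)⁻¹) ∈ L.D false (Psi P α β) →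
      m (Sum.inr κ0) = 0) (n : ℕ) :
    ∀ α β, (Psi P α β).ncard = n → P.root α + P.root β ≠ 0 → ∀ a a', Al d a → Al d a' →
      L.Y α a * L.Y β a' * (L.Y α a)⁻¹ * (L.Y β a')⁻¹ ∈ L.D d (Psi P α β) := by
  induction n using Nat.strong_induction_on with
  | _ n IH =>
  intro α β hn hsum
  by_cases hαβ : α = β
  · subst hαβ
    intro a a' _ _
    rw [L.Y_comm α a a']
    simpa using one_mem _
  have h' : P.root α ≠ - P.root β := by
    intro h; exact hsum (by rw [h, neg_add_cancel])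
  have hlα := ell_left_pos P hαβ h'
  have hlβ := ell_right_pos P hαβ h'
  have hlΨ : ∀ k ∈ Psi P α β, 0 < ell P α β (P.root k) := fun k hk => ell_Psi_pos P hαβ h' hk
  have hcl := closed_Psi P α β
  have hpos := pos_Psi P hαβ h'
  have hΨΨ : ∀ i ∈ Psi P α β, ∀ i' ∈ Psi P α β, ∀ a a', Al d a → Al d a' →
      L.Y i a * L.Y i' a' * (L.Y i a)⁻¹ * (L.Y i' a')⁻¹ ∈ L.D d (Psi P i i') := by
    intro i hi i' hi'
    exact IH _ (hn ▸ ncard_mid P hαβ h' hi hi') i i' rfl
      (add_ne_zero_of_lin P (hlΨ i hi) (hlΨ i' hi'))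
  have hex := L.exact d _ _ rfl hcl hpos hΨΨ
  have hαΨ : ∀ i ∈ Psi P α β, ∀ a a', Al d a → Al d a' →
      L.Y α a * L.Y i a' * (L.Y α a)⁻¹ * (L.Y i a')⁻¹ ∈ L.D d (Psi P α β) := by
    intro i hi a a' ha ha'
    exact L.D_mono (Psi_left_subset P hi)
      (IH _ (hn ▸ ncard_left P hαβ h' hi) α i rfl (add_ne_zero_of_lin P hlα (hlΨ i hi)) a a' ha ha')
  have hβΨ : ∀ i ∈ Psi P α β, ∀ a a', Al d a → Al d a' →
      L.Y β a * L.Y i a' * (L.Y β a)⁻¹ * (L.Y i a')⁻¹ ∈ L.D d (Psi P α β) := by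
    intro i hi a a' ha ha'
    exact L.D_mono (Psi_right_subset P hi)
      (IH _ (hn ▸ ncard_right P hαβ h' hi) β i rfl (add_ne_zero_of_lin P hlβ (hlΨ i hi)) a a' ha ha')
  have nα : ∀ s, ∀ u ∈ L.D d (Psi P α β), L.y α s * u * (L.y α s)⁻¹ ∈ L.D d (Psi P α β) := by
    intro s
    rw [← L.Y_inl]
    exact L.conj_mem (fun k hk a ha => hαΨ k hk _ a (Or.inr rfl) ha)
  have nβ : ∀ s, ∀ u ∈ L.D d (Psi P α β), L.y β s * u * (L.y β s)⁻¹ ∈ L.D d (Psi P α β) := by
    intro s
    rw [← L.Y_inl]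
    exact L.conj_mem (fun k hk a ha => hβΨ k hk _ a (Or.inr rfl) ha)
  -- the defect
  let g : R → R → E := fun s t => L.y α s * L.y β t * (L.y α s)⁻¹ * (L.y β t)⁻¹
  have hπg : ∀ s t, X.π (g s t) ∈ C.XG (Psi P α β) := by
    intro s t
    simp only [g, map_mul, map_inv, L.π_y]
    exact C.comm α β s t hsum
  choose dd hdd hπdd using fun s t => L.exists_D_of_XG (hπg s t)
  choose mm hmm using fun s t => X.eq_of_π (g := g s t) (h := dd s t) (hπdd s t).symm
  have hdd' : ∀ s t, dd s t ∈ L.D d (Psi P α β) := fun s t => L.D_false_le d _ (hdd s t)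
  have unx : ∀ c, 0 < ell P α β (P.root c) → (∀ k ∈ Psi P α β, Psi P k c ⊆ Psi P α β) →
      ∀ s m k, k ∉ SS b d (Psi P α β) → LowZero (ell P α β) (SS b d (Psi P α β)) k m →
      ρ (C.x c s) m k = m k := fun c hc hcΨ s m k hk hm => C.unip_x d hlΨ hc hcΨ s m k hk hm
  have hcα : ∀ k ∈ Psi P α β, Psi P k α ⊆ Psi P α β := fun k hk => by
    rw [Psi_comm]; exact Psi_left_subset P hk
  have hcβ : ∀ k ∈ Psi P α β, Psi P k β ⊆ Psi P α β := fun k hk => by
    rw [Psi_comm]; exact Psi_right_subset P hk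
  have hTW := TW C hR (SS b d (Psi P α β)) α β mm (ell P α β) ?_ ?_ ?_ ?_
  · have hg : ∀ s t, g s t ∈ L.D d (Psi P α β) := by
      intro s t
      rw [hmm]
      exact mul_mem (L.j_mem_D (fun k hk => hTW k hk s t)) (hdd' s t)
    rintro ⟨s, κ⟩ ⟨t, κ'⟩ ha ha'
    have h1 : L.Y α (s, κ) * L.Y β (t, κ') * (L.Y α (s, κ))⁻¹ * (L.Y β (t, κ'))⁻¹ =
        X.j (κ • ev b K α + κ' • ρ (C.x α s) (ev b K β) -
          ρ (X.π (g s t)) (κ • ρ (C.x β t) (ev b K α) + κ' • ev b K β)) * g s t := by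
      have e1 : L.y α s * X.j (κ' • ev b K β) * (L.y α s)⁻¹ =
          X.j (κ' • ρ (C.x α s) (ev b K β)) := by
        rw [X.conj, L.π_y, map_smul]
      have e2 : L.y β t * X.j (κ • ev b K α) * (L.y β t)⁻¹ =
          X.j (κ • ρ (C.x β t) (ev b K α)) := by
        rw [X.conj, L.π_y, map_smul]
      have e3 : g s t * X.j (κ' • ev b K β + κ • ρ (C.x β t) (ev b K α)) * (g s t)⁻¹ =
          X.j (ρ (X.π (g s t)) (κ • ρ (C.x β t) (ev b K α) + κ' • ev b K β)) := by
        rw [add_comm (κ • ρ (C.x β t) (ev b K α))]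
        exact X.conj _ _
      unfold Y
      rw [sub_eq_add_neg, X.j_add, ← X.j_neg, ← e3, X.j_add, X.j_add, ← e1, ← e2]
      simp only [g]
      group
    rw [h1]
    refine mul_mem (L.j_mem_D ?_) (hg s t)
    intro k hk
    cases d with
    | false =>
      have hκ : κ = 0 := by
        rcases ha with ha | ha
        · exact absurd ha (by simp)
        · exact ha
      have hκ' : κ' = 0 := by
        rcases ha' with ha | ha
        · exact absurd ha (by simp)
        · exact ha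
      simp [hκ, hκ']
    | true =>
      have hαΨ' : ∀ k ∈ Psi P α β, Psi P α k ⊆ Psi P α β := fun k hk => Psi_left_subset P hk
      have hβΨ' : ∀ k ∈ Psi P α β, Psi P β k ⊆ Psi P α β := fun k hk => Psi_right_subset P hk
      -- `x_c e_{c'} = e_{c'}` off `Ψ`
      have f1 : ∀ c c' s, 0 < ell P α β (P.root c) → 0 < ell P α β (P.root c') →
          Psi P c' c ⊆ Psi P α β → ∀ k, k ∉ SS b true (Psi P α β) →
          ρ (C.x c s) (ev b K c') k = ev b K c' k := by
        intro c c' s hc hc' hcc k hk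
        apply C.raise
        intro k' a ha hw
        rw [ev, Pi.single_apply, if_neg]
        rintro rfl
        have hw' : wt P b (Sum.inr c') = P.root c' := rfl
        rw [hw'] at hw
        have hai : 0 < (a : ℚ) * ell P α β (P.root c) := by
          have : (0 : ℚ) < a := by exact_mod_cast ha
          positivity
        have hlw : ell P α β (wt P b k) = ell P α β (P.root c') + a * ell P α β (P.root c) := by
          rw [hw, map_add, map_nsmul, nsmul_eq_mul]
        cases k with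
        | inl j =>
          have : wt P b (Sum.inl j) = 0 := rfl
          rw [this, map_zero] at hlw
          linarith
        | inr k0 =>
          have : wt P b (Sum.inr k0) = P.root k0 := rfl
          rw [this] at hw
          apply hk
          refine ⟨rfl, k0, ?_, rfl⟩
          exact hcc ⟨1, a, le_rfl, ha, by rw [hw]; simp⟩
      have f2 := f1 α β s hlα hlβ (by rw [Psi_comm])
      have f3 := f1 β α t hlβ hlα (le_refl _)
      have f4 := C.fix_mod hlΨ hlα hlβ hcl hαΨ' hβΨ' (hπg s t)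
        (κ • ρ (C.x β t) (ev b K α) + κ' • ev b K β) (by
          intro k hk h1 h2
          simp only [Pi.add_apply, Pi.smul_apply, smul_eq_mul]
          rw [f3 k hk, ev, ev, Pi.single_apply, Pi.single_apply, if_neg h1, if_neg h2]
          ring) k hk
      simp only [Pi.add_apply, Pi.smul_apply, smul_eq_mul, Pi.sub_apply] at f4 ⊢
      rw [f4, f2 k hk, f3 k hk]
      ring
  · -- additivity in `s`
    intro s s' t k hk hlow
    have e1 : g (s + s') t = L.y α s * g s' t * (L.y α s)⁻¹ * g s t := by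
      simp only [g]
      rw [L.y_add]
      group
    set d' := L.y α s * dd s' t * (L.y α s)⁻¹ with hd'
    have hd'm : d' ∈ L.D d (Psi P α β) := nα s _ (hdd' s' t)
    have e2 : g (s + s') t = X.j (ρ (C.x α s) (mm s' t) + ρ (X.π d') (mm s t)) *
        (d' * dd s t) := by
      rw [e1, hmm s' t, hmm s t, X.j_add, ← X.conj, ← L.π_y, ← X.conj, hd']
      group
    rw [hmm (s + s') t] at e2
    have e3 : X.j (mm (s + s') t - (ρ (C.x α s) (mm s' t) + ρ (X.π d') (mm s t))) ∈
        L.D d (Psi P α β) := by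
      have : X.j (mm (s + s') t - (ρ (C.x α s) (mm s' t) + ρ (X.π d') (mm s t))) =
          (d' * dd s t) * (dd (s + s') t)⁻¹ := by
        rw [sub_eq_neg_add, X.j_add, ← X.j_neg, inv_mul_eq_iff_eq_mul, ← mul_assoc,
          eq_mul_inv_iff_mul_eq]
        exact e2
      rw [this]
      exact mul_mem (mul_mem hd'm (hdd' s t)) (inv_mem (hdd' _ _))
    have e4 := hex _ e3 k hk
    rw [Pi.sub_apply, Pi.add_apply, sub_eq_zero] at e4
    rw [e4, unx α hlα hcα s _ k hk (hlow s' t),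
      C.unip_XG d hlΨ hcl (L.π_D hd'm) _ k hk (hlow s t), add_comm]
  · -- additivity in `t`
    intro s t t' k hk hlow
    have e1 : g s (t + t') = g s t * (L.y β t * g s t' * (L.y β t)⁻¹) := by
      simp only [g]
      rw [L.y_add]
      group
    set d' := L.y β t * dd s t' * (L.y β t)⁻¹ with hd'
    have hd'm : d' ∈ L.D d (Psi P α β) := nβ t _ (hdd' s t')
    have e2 : g s (t + t') = X.j (mm s t + ρ (X.π (dd s t)) (ρ (C.x β t) (mm s t'))) *
        (dd s t * d') := by
      rw [e1, hmm s t', hmm s t, X.j_add, ← X.conj, ← L.π_y, ← X.conj, hd']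
      group
    rw [hmm s (t + t')] at e2
    have e3 : X.j (mm s (t + t') - (mm s t + ρ (X.π (dd s t)) (ρ (C.x β t) (mm s t')))) ∈
        L.D d (Psi P α β) := by
      have : X.j (mm s (t + t') - (mm s t + ρ (X.π (dd s t)) (ρ (C.x β t) (mm s t')))) =
          (dd s t * d') * (dd s (t + t'))⁻¹ := by
        rw [sub_eq_neg_add, X.j_add, ← X.j_neg, inv_mul_eq_iff_eq_mul, ← mul_assoc,
          eq_mul_inv_iff_mul_eq]
        exact e2
      rw [this]
      exact mul_mem (mul_mem (hdd' s t) hd'm) (inv_mem (hdd' _ _))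
    have e4 := hex _ e3 k hk
    rw [Pi.sub_apply, Pi.add_apply, sub_eq_zero] at e4
    have hlow2 : LowZero (ell P α β) (SS b d (Psi P α β)) k (ρ (C.x β t) (mm s t')) := by
      intro k' hk' hlt
      rw [unx β hlβ hcβ t _ k' hk' (fun k'' hk'' hlt' => hlow s t' k'' hk'' (hlt'.trans hlt))]
      exact hlow s t' k' hk' hlt
    rw [e4, C.unip_XG d hlΨ hcl (L.π_D (hdd' s t)) _ k hk hlow2, unx β hlβ hcβ t _ k hk (hlow s t')]
  · -- torus equivariance
    intro e s t k hk
    have e1 : X.tt e * g s t * (X.tt e)⁻¹ =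
        g (((C.q ^ (P.pairingIn ℤ α e) : Rˣ) : R) * s)
          (((C.q ^ (P.pairingIn ℤ β e) : Rˣ) : R) * t) := by
      simp only [g]
      rw [← L.y_t, ← L.y_t]
      group
    have e2 : X.tt e * g s t * (X.tt e)⁻¹ = X.j (ρ (C.t e) (mm s t)) *
        (X.tt e * dd s t * (X.tt e)⁻¹) := by
      rw [hmm s t, ← X.π_tt, ← X.conj]
      group
    rw [e1, hmm] at e2
    set s1 := ((C.q ^ (P.pairingIn ℤ α e) : Rˣ) : R) * s
    set t1 := ((C.q ^ (P.pairingIn ℤ β e) : Rˣ) : R) * t
    have e3 : X.j (mm s1 t1 - ρ (C.t e) (mm s t)) ∈ L.D d (Psi P α β) := by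
      have : X.j (mm s1 t1 - ρ (C.t e) (mm s t)) =
          (X.tt e * dd s t * (X.tt e)⁻¹) * (dd s1 t1)⁻¹ := by
        rw [sub_eq_neg_add, X.j_add, ← X.j_neg, inv_mul_eq_iff_eq_mul, ← mul_assoc,
          eq_mul_inv_iff_mul_eq]
        exact e2
      rw [this]
      exact mul_mem (L.tt_D e (hdd' s t)) (inv_mem (hdd' _ _))
    have e4 := hex _ e3 k hk
    rw [Pi.sub_apply, sub_eq_zero] at e4
    rw [e4, C.t_act]
  · -- the component of weight `α + β`
    intro k hk hw s t
    cases k with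
    | inl j => exact absurd hw.symm hsum
    | inr κ0 =>
      have hw' : P.root κ0 = P.root α + P.root β := hw
      cases d with
      | true => exact absurd ⟨rfl, κ0, mem_Psi_add P hw', rfl⟩ hk
      | false =>
        refine Hzero rfl α β κ0 s t (mm s t) hw' ?_
        have : (X.j (mm s t))⁻¹ * (L.y α s * L.y β t * (L.y α s)⁻¹ * (L.y β t)⁻¹) = dd s t := by
          rw [inv_mul_eq_iff_eq_mul]; exact hmm s t
        rw [this]
        exact hdd s t

end Lifts

end Pool.Agent.T2H35.Chev
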