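import Mathlib

/-!
# Definitions: Chevalley bases, adjoint elementary Chevalley groups, cocycles
-/

namespace Pool.Agent.T2H35.Chev

open Module

/-! ## Chevalley bases -/

section Chevalley

variable {ι V W : Type} [AddCommGroup V] [Module ℚ V] [AddCommGroup W] [Module ℚ W]

/-- A Chevalley basis of a Lie ring `L`, of type a (crystallographic) root system `P` with base
`b`: a `ℤ`-basis `h_j` (`j` simple), `e_i` (`i` a root) of `L` such that

* `[h_j, h_k] = 0`, `[h_j, e_i] = ⟨α_i, α_j^∨⟩ e_i`;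
* `[e_i, e_{-i}] = h_i`, where `h_i = ∑ n_j h_j` if `α_i^∨ = ∑ n_j α_j^∨`;
* `[e_i, e_j] = ± (r + 1) e_k` if `α_k = α_i + α_j` is a root, where `r` is the largest integer
  such that `α_j - r α_i` is a root;
* `[e_i, e_j] = 0` if `α_i + α_j` is neither zero nor a root. -/
structure ChevalleyBasis (P : RootPairing ι ℚ V W) [Finite ι] [P.IsCrystallographic] (b : P.Base)
    (L : Type) [LieRing L] where
  basis : Basis (b.support ⊕ ι) ℤ L
  h_h : ∀ j k : b.support, ⁅basis (Sum.inl j), basis (Sum.inl k)⁆ = 0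
  h_e : ∀ (j : b.support) (i : ι),
    ⁅basis (Sum.inl j), basis (Sum.inr i)⁆ = P.pairingIn ℤ i j • basis (Sum.inr i)
  e_neg : ∀ (i : ι) (n : b.support → ℤ), P.coroot i = ∑ j, n j • P.coroot j →
    ⁅basis (Sum.inr i), basis (Sum.inr (P.reflectionPerm i i))⁆ = ∑ j, n j • basis (Sum.inl j)
  e_e : ∀ i j k : ι, P.root k = P.root i + P.root j → ∃ ε : ℤ, (ε = 1 ∨ ε = -1) ∧
    ⁅basis (Sum.inr i), basis (Sum.inr j)⁆ =
      (ε * ((P.chainBotCoeff i j : ℤ) + 1)) • basis (Sum.inr k)
  e_e_zero : ∀ i j : ι, P.root i + P.root j ≠ 0 → P.root i + P.root j ∉ Set.range P.root →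
    ⁅basis (Sum.inr i), basis (Sum.inr j)⁆ = 0

variable [Fintype ι] [DecidableEq ι] {P : RootPairing ι ℚ V W} [P.IsCrystallographic] {b : P.Base}
  {L : Type} [LieRing L]

/-- The integer matrix of `ad e_i` in the Chevalley basis. -/
noncomputable def ChevalleyBasis.adE (B : ChevalleyBasis P b L) (i : ι) :
    Matrix (b.support ⊕ ι) (b.support ⊕ ι) ℤ :=
  fun d a => B.basis.repr ⁅B.basis (Sum.inr i), B.basis a⁆ d

/-- The matrix `x_i(t) = exp (t ad e_i) = ∑_{k ≤ 3} t^k / k! (ad e_i)^k` over a commutative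
ring `A` in which `2` and `3` are invertible. -/
noncomputable def ChevalleyBasis.xMat (B : ChevalleyBasis P b L) (A : Type) [CommRing A] (i : ι)
    (t : A) : Matrix (b.support ⊕ ι) (b.support ⊕ ι) A :=
  1 + t • (B.adE i).map (Int.cast : ℤ → A)
    + (t ^ 2 * Ring.inverse 2) • (B.adE i).map (Int.cast : ℤ → A) ^ 2
    + (t ^ 3 * Ring.inverse 6) • (B.adE i).map (Int.cast : ℤ → A) ^ 3

/-- The adjoint elementary Chevalley group over `A`: generated by the `x_i(t)`. -/
noncomputable def ChevalleyBasis.Gad (B : ChevalleyBasis P b L) (A : Type) [CommRing A] :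
    Subgroup (GL (b.support ⊕ ι) A) :=
  Subgroup.closure {g | ∃ i t, (g : Matrix (b.support ⊕ ι) (b.support ⊕ ι) A) = B.xMat A i t}

end Chevalley

/-! ## Root combinatorics -/

section Comb

variable {ι V W : Type} [AddCommGroup V] [Module ℚ V] [AddCommGroup W] [Module ℚ W]
variable (P : RootPairing ι ℚ V W)

/-- The roots `a α_i + c α_j` with `a, c ≥ 1`. -/
def Psi (i j : ι) : Set ι :=
  {k | ∃ a c : ℕ, 1 ≤ a ∧ 1 ≤ c ∧ P.root k = a • P.root i + c • P.root j}

/-- Closed sets of roots. -/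
def Closed (Ψ : Set ι) : Prop := ∀ i ∈ Ψ, ∀ j ∈ Ψ, Psi P i j ⊆ Ψ

/-- Sets of roots contained in an open half space. -/
def Pos (Ψ : Set ι) : Prop := ∃ l : V →ₗ[ℚ] ℚ, ∀ k ∈ Ψ, 0 < l (P.root k)

/-- The index of the negative root. -/
abbrev neg (i : ι) : ι := P.reflectionPerm i i

variable (b : P.Base)

/-- The weight of an index of the Chevalley basis. -/
def wt : (b.support ⊕ ι) → V := Sum.elim (fun _ => 0) P.root

/-- The pairing of the weight of an index of the Chevalley basis with a coroot. -/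
noncomputable def wtp [P.IsCrystallographic] (k : b.support ⊕ ι) (e : ι) : ℤ :=
  Sum.elim (fun _ => 0) (fun i => P.pairingIn ℤ i e) k

/-- The value of the root `α_c` on the Cartan part of `m`. -/
noncomputable def rootFun [P.IsCrystallographic] {K : Type} [CommRing K] (c : ι)
    (m : (b.support ⊕ ι) → K) : K :=
  ∑ j : b.support, (P.pairingIn ℤ c j : K) * m (Sum.inl j)

end Comb

/-! ## Cocycles -/

section Cocycle

variable {K G M : Type} [CommRing K] [Group G] [AddCommGroup M] [Module K M]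

/-- (Non-homogeneous) `2`-cocycles. -/
def IsCocycle (ρ : G →* (M →ₗ[K] M)) (f : G → G → M) : Prop :=
  ∀ g h k, ρ g (f h k) + f g (h * k) = f (g * h) k + f g h

/-- `f` is the coboundary of `c`. -/
def IsCobdOf (ρ : G →* (M →ₗ[K] M)) (f : G → G → M) (c : G → M) : Prop :=
  ∀ g h, f g h = ρ g (c h) - c (g * h) + c g

end Cocycle

end Pool.Agent.T2H35.Chev
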