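import Pool.Agent.T2H35.Chev.Chi

/-! Exponential formulas for the action of lifted root subgroups on strings -/

namespace Pool.Agent.T2H35.Chev

open Module

set_option linter.unusedSectionVars false
set_option linter.unusedVariables false

variable {ι V W : Type} [Fintype ι] [DecidableEq ι] [AddCommGroup V] [Module ℚ V]
  [AddCommGroup W] [Module ℚ W] {P : RootPairing ι ℚ V W} [P.IsCrystallographic] {b : P.Base}
  {R K : Type} [CommRing R] [Field K] {red : R →+* K} {G : Type} [Group G]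
  {ρ : G →* (((b.support ⊕ ι) → K) →ₗ[K] ((b.support ⊕ ι) → K))}

variable {C : CG P b R K red G ρ} {E : Type} [Group E]

/-! ### the ring `R × K[ε]` -/

/-- the embedding of `R` in `R × K[ε]` -/
def eR (red : R →+* K) : R →+* R × DualNumber K :=
  (RingHom.id R).prod ((TrivSqZeroExt.inlHom K K).comp red)

/-- the embedding of `R × K` in `R × K[ε]`, `(r, κ) ↦ (r, red r + κ ε)` -/
def emb (red : R →+* K) (a : R × K) : R × DualNumber K :=
  (a.1, TrivSqZeroExt.inl (red a.1) + TrivSqZeroExt.inr a.2)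

lemma emb_add (a a' : R × K) : emb red (a + a') = emb red a + emb red a' := by
  unfold emb
  ext <;> simp

lemma emb_zero : emb red (0 : R × K) = 0 := by
  unfold emb
  ext <;> simp

lemma emb_inj {a a' : R × K} (h : emb red a = emb red a') : a = a' := by
  have h1 := congrArg Prod.fst h
  have h2 := congrArg (fun x => TrivSqZeroExt.snd (Prod.snd x)) h
  simp only [emb] at h1 h2
  simp at h2
  exact Prod.ext h1 h2

lemma emb_scal (u : R) (a : R × K) : emb red (u * a.1, red u * a.2) = eR red u * emb red a := by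
  unfold emb eR
  ext <;> simp

lemma emb_zsmul (z : ℤ) (a : R × K) : emb red (z • a) = (z : R × DualNumber K) * emb red a := by
  unfold emb
  ext <;> simp

lemma eR_int (z : ℤ) : eR red (z : R) = (z : R × DualNumber K) := map_intCast _ _

lemma hom_int {A : Type} [AddCommGroup A] (H : R → A) (hH : ∀ s s', H (s + s') = H s + H s')
    (z : ℤ) (s : R) : H ((z : R) * s) = z • H s := by
  let Φ : R →+ A := AddMonoidHom.mk' H hH
  have : Φ (z • s) = z • Φ s := map_zsmul Φ z s
  rw [zsmul_eq_mul] at this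
  exact this

/-- additive functions of wrong weight vanish -/
lemma weight_kill (C : CG P b R K red G ρ) (hR : ∀ s : R, ∃ z : ℤ, (z : R) = s)
    (hloc : ∀ r : R, red r ≠ 0 → IsUnit r)
    (H : R → R × DualNumber K) (hH : ∀ s s', H (s + s') = H s + H s') (j : ℤ) (hj : 2 ≤ j)
    (hj' : j ≤ 4)
    (hq : ∀ s, H (((C.q ^ (2 : ℤ) : Rˣ) : R) * s) = eR red ((C.q ^ (2 * j) : Rˣ) : R) * H s)
    (s : R) : H s = 0 := by
  obtain ⟨z, hz⟩ := hR ((C.q ^ (2 : ℤ) : Rˣ) : R)
  have h1 := hq s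
  rw [← hz, hom_int H hH, zsmul_eq_mul, ← eR_int (red := red), hz] at h1
  have h2 : eR red (((C.q ^ (2 * j) : Rˣ) : R) - ((C.q ^ (2 : ℤ) : Rˣ) : R)) * H s = 0 := by
    rw [map_sub, sub_mul, ← h1, sub_self]
  have h3 : IsUnit (((C.q ^ (2 * j) : Rˣ) : R) - ((C.q ^ (2 : ℤ) : Rˣ) : R)) := by
    have e1 : ((C.q ^ (2 * j) : Rˣ) : R) - ((C.q ^ (2 : ℤ) : Rˣ) : R) =
        ((C.q ^ (2 : ℤ) : Rˣ) : R) * (((C.q ^ (2 * j - 2) : Rˣ) : R) - 1) := by
      rw [mul_sub, mul_one, ← Units.val_mul, ← zpow_add]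
      congr 3
      ring_nf
    rw [e1]
    apply IsUnit.mul (Units.isUnit _)
    apply hloc
    rw [map_sub, map_one, sub_ne_zero]
    apply C.q_ne
    · omega
    · rw [abs_le]; constructor <;> linarith
  have h4 := h3.map (eR red)
  exact (h4.mul_right_eq_zero).mp h2

/-- commutator -/
def cm {E : Type} [Group E] (g h : E) : E := g * h * g⁻¹ * h⁻¹

lemma cm_mul_left (g g' h : E) : cm (g * g') h = g * cm g' h * g⁻¹ * cm g h := by
  unfold cm; group

lemma cm_mul_right (g h h' : E) : cm g (h * h') = cm g h * (h * cm g h' * h⁻¹) := by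
  unfold cm; group

lemma conj_eq_cm (g h : E) : g * h * g⁻¹ = cm g h * h := by
  unfold cm; group

lemma coef_unique {c β d : ι} {l : V →ₗ[ℚ] ℚ} (hc : l (P.root c) = 0) (hd : l (P.root d) ≠ 0)
    {x y x' y' : ℕ}
    (h : x • P.root c + y • P.root d = x' • P.root c + y' • P.root d) : x = x' ∧ y = y' := by
  have h1 := congrArg l h
  simp only [map_add, map_nsmul, hc, smul_zero, zero_add, nsmul_eq_mul] at h1
  have h2 : (y : ℚ) = y' := mul_right_cancel₀ hd h1
  have h3 : y = y' := by exact_mod_cast h2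
  subst h3
  have h4 := add_right_cancel h
  have hne : P.root c ≠ 0 := P.ne_zero c
  rw [← Nat.cast_smul_eq_nsmul ℚ, ← Nat.cast_smul_eq_nsmul ℚ] at h4
  have h5 := smul_left_injective ℚ hne h4
  exact ⟨by exact_mod_cast h5, rfl⟩

namespace Lifts

variable {X : ExtData C E} (L : Lifts C X)

/-- The deformed structure constants. -/
noncomputable def A (c d k : ι) : R × K :=
  L.chi (Psi P c d) k (cm (L.y c 1) (L.y d 1))

variable [P.IsReduced] [P.IsRootSystem] (hR : ∀ s : R, ∃ z : ℤ, (z : R) = s)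
  (hloc : ∀ r : R, red r ≠ 0 → IsUnit r)

include hR in
/-- the first coordinate of `A` -/
lemma A_fst {c d k : ι} (h : c ≠ d)
    (h' : P.root c ≠ - P.root d) (hk : P.root k = P.root c + P.root d) :
    (L.A c d k).1 = (C.Nc c d : R) := by
  have hg := good_Psi h h' hk
  have hne : P.root c + P.root d ≠ 0 := fun h0 => h' (eq_neg_of_add_eq_zero_left h0)
  have hmem : cm (L.y c 1) (L.y d 1) ∈ L.D true (Psi P c d) := by
    rw [← L.Y_inl, ← L.Y_inl]
    exact L.commT hR hne _ _
  have h1 := L.π_D (L.chi_spec hR hg hmem)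
  have h2 := C.lead c d k 1 1 hk
  have h3 : X.π (cm (L.y c 1) (L.y d 1)) =
      C.x c 1 * C.x d 1 * (C.x c 1)⁻¹ * (C.x d 1)⁻¹ := by
    simp only [cm, map_mul, map_inv, L.π_y]
  rw [map_mul, map_inv, L.π_Y, C.x_neg, h3] at h1
  have h4 := mul_mem h1 (inv_mem h2)
  have h5 : C.x k (-(L.chi (Psi P c d) k (cm (L.y c 1) (L.y d 1))).1) *
      (C.x c 1 * C.x d 1 * (C.x c 1)⁻¹ * (C.x d 1)⁻¹) *
      (C.x k (-(C.Nc c d * 1 * 1)) * (C.x c 1 * C.x d 1 * (C.x c 1)⁻¹ * (C.x d 1)⁻¹))⁻¹ =
      C.x k (-(L.A c d k).1 + C.Nc c d) := by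
    have h7 : C.x k (C.Nc c d : R) = (C.x k (-(C.Nc c d : R)))⁻¹ := by rw [C.x_neg, neg_neg]
    rw [C.x_add, A, h7, mul_one, mul_one]
    group
  rw [h5] at h4
  have h6 := C.sep _ k _ hg.cl' hg.pos' (by simp) h4
  exact (neg_add_eq_zero.mp h6)

section

variable {c β : ι} (h : c ≠ β) (h' : P.root c ≠ - P.root β)

include h h' in
lemma add_ne_Str {k : ι} (hk : k ∈ Str P c β 1) : P.root c + P.root k ≠ 0 := by
  obtain ⟨a, z, ha, hk⟩ := hk
  intro h0
  have h1 := congrArg (lam P c β) h0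
  rw [map_add, lam_self, zero_add, map_zero, lam_Str P hk] at h1
  have h2 := lam_right_pos P h h'
  have : (1 : ℚ) ≤ a := by exact_mod_cast ha
  nlinarith

include h h' in
lemma lam_ne_Str {k : ι} (hk : k ∈ Str P c β 1) : lam P c β (P.root k) ≠ 0 := by
  obtain ⟨a, z, ha, hk⟩ := hk
  rw [lam_Str P hk]
  have h2 := lam_right_pos P h h'
  have : (1 : ℚ) ≤ a := by exact_mod_cast ha
  positivity

include h h' hR

lemma cmY_mem {k : ι} (hk : k ∈ Str P c β 1) (s : R) (a : R × K) :
    cm (L.y c s) (L.Y k a) ∈ L.D true (Psi P c k) := by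
  rw [← L.Y_inl]
  exact L.commT hR (add_ne_Str h h' hk) _ _

lemma cmY_mem' {k : ι} (hk : k ∈ Str P c β 1) (s : R) (a : R × K) :
    cm (L.y c s) (L.Y k a) ∈ L.D true (Str P c β 1) :=
  L.D_mono (Psi_c_Str P hk) (L.cmY_mem hR h h' hk s a)

lemma normS (s : R) : ∀ u ∈ L.D true (Str P c β 1),
    L.y c s * u * (L.y c s)⁻¹ ∈ L.D true (Str P c β 1) := by
  apply L.conj_mem
  intro k hk a _
  exact L.cmY_mem' hR h h' hk s a

/-- additivity of `chi_k (y_c(s) g y_c(s)⁻¹)` in `g` -/
lemma chi_conj_mul {k : ι} (hk : Good P (Str P c β 1) k) (s : R) :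
    ∀ g ∈ L.D true (Str P c β 1), ∀ g' ∈ L.D true (Str P c β 1),
    L.chi (Str P c β 1) k (L.y c s * (g * g') * (L.y c s)⁻¹) =
      L.chi (Str P c β 1) k (L.y c s * g * (L.y c s)⁻¹) +
      L.chi (Str P c β 1) k (L.y c s * g' * (L.y c s)⁻¹) := by
  intro g hg g' hg'
  rw [← L.chi_mul hR hk (L.normS hR h h' s g hg) (L.normS hR h h' s g' hg')]
  congr 1; group

lemma chi_conj_Y {k d : ι} (hk : Good P (Str P c β 1) k) (hd : d ∈ Str P c β 1) (s : R)
    (a : R × K) :
    L.chi (Str P c β 1) k (L.y c s * L.Y d a * (L.y c s)⁻¹) =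
      L.chi (Str P c β 1) k (cm (L.y c s) (L.Y d a)) + L.chi (Str P c β 1) k (L.Y d a) := by
  rw [conj_eq_cm, L.chi_mul hR hk (L.cmY_mem' hR h h' hd s a) (L.Y_mem hd (Or.inl rfl))]

lemma chi_cm_zero {k d : ι} (hk : Good P (Str P c β 1) k) (hd : d ∈ Str P c β 1)
    (hkd : k ∉ Psi P c d) (s : R) (a : R × K) :
    L.chi (Str P c β 1) k (cm (L.y c s) (L.Y d a)) = 0 := by
  apply L.chi_zero hR hk
  refine L.D_mono ?_ (L.cmY_mem hR h h' hd s a)
  intro l hl
  refine ⟨Psi_c_Str P hd hl, ?_⟩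
  rintro rfl
  exact hkd hl

/-- additivity of `F(s, a) = chi_k (cm (y_c s) (Y_d a))` in `a` -/
lemma F_add_right {k d : ι} (hk : Good P (Str P c β 1) k) (hd : d ∈ Str P c β 1) (s : R)
    (a a' : R × K) :
    L.chi (Str P c β 1) k (cm (L.y c s) (L.Y d (a + a'))) =
      L.chi (Str P c β 1) k (cm (L.y c s) (L.Y d a)) +
      L.chi (Str P c β 1) k (cm (L.y c s) (L.Y d a')) := by
  have hY : L.Y d a ∈ L.D true (Str P c β 1) := L.Y_mem hd (Or.inl rfl)
  rw [L.Y_add, cm_mul_right, L.chi_mul hR hk (L.cmY_mem' hR h h' hd s a)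
    (mul_mem (mul_mem hY (L.cmY_mem' hR h h' hd s a')) (inv_mem hY)),
    L.chi_mul hR hk (mul_mem hY (L.cmY_mem' hR h h' hd s a')) (inv_mem hY),
    L.chi_mul hR hk hY (L.cmY_mem' hR h h' hd s a'), L.chi_inv hR hk hY]
  abel

lemma F_scal_right {k d : ι} (hk : Good P (Str P c β 1) k) (hd : d ∈ Str P c β 1) (s : R)
    (u : R) (a : R × K) :
    emb red (L.chi (Str P c β 1) k (cm (L.y c s) (L.Y d (u * a.1, red u * a.2)))) =
      eR red u * emb red (L.chi (Str P c β 1) k (cm (L.y c s) (L.Y d a))) := by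
  obtain ⟨z, rfl⟩ := hR u
  let Φ : R × K →+ R × K := AddMonoidHom.mk' (fun a => L.chi (Str P c β 1) k
    (cm (L.y c s) (L.Y d a))) (fun a a' => L.F_add_right hR h h' hk hd s a a')
  have h1 : Φ (z • a) = z • Φ a := map_zsmul Φ z a
  have h2 : z • a = ((z : R) * a.1, red (z : R) * a.2) := by
    ext
    · simp
    · simp
  rw [h2] at h1
  show emb red (Φ _) = _
  rw [h1, emb_zsmul, eR_int]
  rfl

/-- `chi_k (y_c(s) g y_c(s)⁻¹) = chi_k g` for `g ∈ D(Ψ_{c,d})`, `k = c + d`. -/
lemma conj_Psi1 {k d : ι} (hk : Good P (Str P c β 1) k) (hd : d ∈ Str P c β 1)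
    (hkd : P.root k = P.root c + P.root d) (s : R) :
    ∀ g ∈ L.D true (Psi P c d), L.chi (Str P c β 1) k (L.y c s * g * (L.y c s)⁻¹) =
      L.chi (Str P c β 1) k g := by
  have hsub := L.D_mono (d := true) (Psi_c_Str P hd)
  apply L.hom_ext hR
  · intro g hg g' hg'
    exact L.chi_conj_mul hR h h' hk s g (hsub hg) g' (hsub hg')
  · intro g hg g' hg'
    exact L.chi_mul hR hk (hsub hg) (hsub hg')
  · intro e he a
    rw [L.chi_conj_Y hR h h' hk (Psi_c_Str P hd he), L.chi_cm_zero hR h h' hk (Psi_c_Str P hd he),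
      zero_add]
    rintro ⟨x, y, hx, hy, hke⟩
    obtain ⟨x', y', hx', hy', he'⟩ := he
    have h1 : (x + y * x') • P.root c + (y * y') • P.root d =
        1 • P.root c + 1 • P.root d := by
      rw [one_smul, one_smul, ← hkd, hke, he']
      module
    have h2 := coef_unique (β := β) (lam_self P c β) (lam_ne_Str h h' hd) h1
    have h3 : 1 ≤ y * x' := Nat.mul_pos hy hx'
    omega

/-- **first order** -/
theorem exp1 {k d : ι} (hk : Good P (Str P c β 1) k) (hd : d ∈ Str P c β 1)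
    (hkd : P.root k = P.root c + P.root d) (s : R) (a : R × K) :
    emb red (L.chi (Str P c β 1) k (cm (L.y c s) (L.Y d a))) =
      eR red s * emb red a * emb red (L.A c d k) := by
  have hcd : c ≠ d := by
    rintro rfl
    exact lam_ne_Str h h' hd (lam_self P c β)
  have hcd' : P.root c ≠ - P.root d := by
    intro h0
    exact add_ne_Str h h' hd (by rw [h0, neg_add_cancel])
  have hgP := good_Psi hcd hcd' hkd
  -- additivity in `s`
  have hs : ∀ s s' a, L.chi (Str P c β 1) k (cm (L.y c (s + s')) (L.Y d a)) =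
      L.chi (Str P c β 1) k (cm (L.y c s) (L.Y d a)) +
      L.chi (Str P c β 1) k (cm (L.y c s') (L.Y d a)) := by
    intro s s' a
    rw [L.y_add, cm_mul_left, L.chi_mul hR hk (L.normS hR h h' s _ (L.cmY_mem' hR h h' hd s' a))
      (L.cmY_mem' hR h h' hd s a), L.conj_Psi1 hR h h' hk hd hkd s _ (L.cmY_mem hR h h' hd s' a),
      add_comm]
  have hA : L.chi (Str P c β 1) k (cm (L.y c 1) (L.Y d (1, 0))) = L.A c d k := by
    rw [L.Y_inl]
    have hm : cm (L.y c 1) (L.y d 1) ∈ L.D true (Psi P c d) := by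
      rw [← L.Y_inl d]; exact L.cmY_mem hR h h' hd 1 _
    exact L.chi_mono hR hgP hk (Psi_c_Str P hd) hm
  have hA1 : (L.A c d k).1 = (C.Nc c d : R) := L.A_fst hR hcd hcd' hkd
  obtain ⟨t, κ⟩ := a
  have h1 : L.chi (Str P c β 1) k (cm (L.y c s) (L.Y d (t, κ))) =
      L.chi (Str P c β 1) k (cm (L.y c s) (L.Y d (t, 0))) +
      L.chi (Str P c β 1) k (cm (L.y c s) (L.Y d (0, κ))) := by
    rw [← L.F_add_right hR h h' hk hd]; simp
  have h2 : L.chi (Str P c β 1) k (cm (L.y c s) (L.Y d (0, κ))) =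
      (0, κ * (red s * (C.Nc c d : K))) := by
    have hm := L.cmY_mem' hR h h' hd s (0, κ)
    have e1 : cm (L.y c s) (L.Y d (0, κ)) =
        X.j (κ • (ρ (C.x c s) (ev b K d) - ev b K d)) := by
      unfold cm
      rw [L.Y_inr, X.conj, X.j_neg, ← X.j_add, L.π_y, map_smul, smul_sub, sub_eq_add_neg]
    rw [e1] at hm ⊢
    rw [L.chi_j hR hk (L.exactT hR hk.cl hk.pos hm)]
    congr 1
    have hkdne : Sum.inr k ≠ (Sum.inr d : b.support ⊕ ι) := by
      intro h0
      rw [Sum.inr.injEq] at h0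
      rw [h0] at hkd
      have : P.root c = 0 := by simpa using hkd
      exact P.ne_zero c this
    rw [Pi.smul_apply, Pi.sub_apply, smul_eq_mul,
      C.act1 c d k s (by rw [hkd, add_comm]), ev, Pi.single_apply, if_neg hkdne, sub_zero]
  have h3 : L.chi (Str P c β 1) k (cm (L.y c s) (L.Y d (t, 0))) =
      (s * t * (C.Nc c d : R), red s * red t * (L.A c d k).2) := by
    obtain ⟨z, rfl⟩ := hR s
    obtain ⟨w, rfl⟩ := hR t
    have e1 : ∀ a, L.chi (Str P c β 1) k (cm (L.y c (z : R)) (L.Y d a)) =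
        z • L.chi (Str P c β 1) k (cm (L.y c 1) (L.Y d a)) := fun a =>
      add_int hR (fun s => L.chi (Str P c β 1) k (cm (L.y c s) (L.Y d a)))
        (fun s s' => hs s s' a) z
    have e2 : L.chi (Str P c β 1) k (cm (L.y c 1) (L.Y d ((w : R), 0))) =
        w • L.chi (Str P c β 1) k (cm (L.y c 1) (L.Y d (1, 0))) :=
      add_int hR (fun t => L.chi (Str P c β 1) k (cm (L.y c 1) (L.Y d (t, 0))))
        (fun t t' => by rw [← L.F_add_right hR h h' hk hd]; simp) w
    rw [e1, e2, hA, smul_smul]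
    ext
    · rw [Prod.smul_fst, hA1]; push_cast; simp
    · rw [Prod.smul_snd]; push_cast; simp
  rw [h1, h2, h3]
  have h4 : emb red (L.A c d k) = ((C.Nc c d : R), TrivSqZeroExt.inl (C.Nc c d : K) +
      TrivSqZeroExt.inr (L.A c d k).2) := by
    unfold emb; rw [hA1, map_intCast]
  rw [h4]
  unfold emb eR
  ext
  · simp
  · simp
  · simp; ring

/-- conjugation formula on `D(Ψ_{c,d})` for `k = d + 2c` -/
lemma conj_Psi2 {k k1 d : ι} (hk : Good P (Str P c β 1) k) (hk1 : Good P (Str P c β 1) k1)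
    (hd : d ∈ Str P c β 1)
    (hk1d : P.root k1 = P.root c + P.root d) (hkk1 : P.root k = P.root c + P.root k1) (s : R) :
    ∀ g ∈ L.D true (Psi P c d),
      emb red (L.chi (Str P c β 1) k (L.y c s * g * (L.y c s)⁻¹)) =
      emb red (L.chi (Str P c β 1) k g) +
        eR red s * emb red (L.chi (Str P c β 1) k1 g) * emb red (L.A c k1 k) := by
  have hsub := L.D_mono (d := true) (Psi_c_Str P hd)
  apply L.hom_ext hR
  · intro g hg g' hg'
    rw [L.chi_conj_mul hR h h' hk s g (hsub hg) g' (hsub hg'), emb_add]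
  · intro g hg g' hg'
    rw [L.chi_mul hR hk (hsub hg) (hsub hg'), L.chi_mul hR hk1 (hsub hg) (hsub hg'), emb_add,
      emb_add]
    ring
  · intro e he a
    have heS := Psi_c_Str P hd he
    rw [L.chi_conj_Y hR h h' hk heS, emb_add]
    by_cases hek : e = k1
    · subst hek
      rw [L.exp1 hR h h' hk heS hkk1, L.chi_Y hR hk1]
      have h0 : L.chi (Str P c β 1) k (L.Y e a) = 0 := by
        apply L.chi_Y_ne hR hk heS
        rintro rfl
        have : P.root c = 0 := by simpa using hkk1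
        exact P.ne_zero c this
      rw [h0, emb_zero]
      ring
    · rw [L.chi_cm_zero hR h h' hk heS, L.chi_Y_ne hR hk1 heS hek, emb_zero]
      · ring
      · rintro ⟨x, y, hx, hy, hke⟩
        obtain ⟨x', y', hx', hy', he'⟩ := he
        have h1 : (x + y * x') • P.root c + (y * y') • P.root d =
            2 • P.root c + 1 • P.root d := by
          have : 2 • P.root c + 1 • P.root d = P.root k := by
            rw [hkk1, hk1d]; module
          rw [this, hke, he']
          module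
        have h2 := coef_unique (β := β) (lam_self P c β) (lam_ne_Str h h' hd) h1
        have h3 : y = 1 ∧ y' = 1 := by
          have := h2.2
          exact ⟨Nat.eq_one_of_mul_eq_one_right this, Nat.eq_one_of_mul_eq_one_left this⟩
        have h4 : x' = 1 := by
          have := h2.1
          rw [h3.1] at this
          omega
        apply hek
        apply P.root.injective
        rw [he', hk1d, h4, h3.2, one_smul, one_smul]

end

end Lifts

end Pool.Agent.T2H35.Chev
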