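import Pool.Agent.T2H35.Chev.Expo

/-! Second and third order exponential formulas -/

namespace Pool.Agent.T2H35.Chev

open Module

set_option linter.unusedSectionVars false
set_option linter.unusedVariables false

variable {ι V W : Type} [Fintype ι] [DecidableEq ι] [AddCommGroup V] [Module ℚ V]
  [AddCommGroup W] [Module ℚ W] {P : RootPairing ι ℚ V W} [P.IsCrystallographic] {b : P.Base}
  {R K : Type} [CommRing R] [Field K] {red : R →+* K} {G : Type} [Group G]
  {ρ : G →* (((b.support ⊕ ι) → K) →ₗ[K] ((b.support ⊕ ι) → K))}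

variable {C : CG P b R K red G ρ} {E : Type} [Group E]

namespace Lifts

variable {X : ExtData C E} (L : Lifts C X)

variable [P.IsReduced] [P.IsRootSystem] (hR : ∀ s : R, ∃ z : ℤ, (z : R) = s)
  (hloc : ∀ r : R, red r ≠ 0 → IsUnit r)

include hR in
lemma chi_tt {Ψ : Set ι} {k : ι} (h : Good P Ψ k) (e : ι) {g : E} (hg : g ∈ L.D true Ψ) :
    L.chi Ψ k (X.tt e * g * (X.tt e)⁻¹) =
      (((C.q ^ (P.pairingIn ℤ k e) : Rˣ) : R) * (L.chi Ψ k g).1,
        red ((C.q ^ (P.pairingIn ℤ k e) : Rˣ) : R) * (L.chi Ψ k g).2) := by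
  apply L.chi_unique hR h
  rw [← L.tt_Y]
  have h1 := L.tt_D e (L.chi_spec hR h hg)
  have h2 : X.tt e * ((L.Y k (L.chi Ψ k g))⁻¹ * g) * (X.tt e)⁻¹ =
    (X.tt e * L.Y k (L.chi Ψ k g) * (X.tt e)⁻¹)⁻¹ * (X.tt e * g * (X.tt e)⁻¹) := by group
  rw [← h2]; exact h1

section

variable {c β : ι} (h : c ≠ β) (h' : P.root c ≠ - P.root β)

include h h' hR

/-- torus equivariance of `F` -/
lemma F_tt {k d : ι} (hk : Good P (Str P c β 1) k) (hd : d ∈ Str P c β 1) (j : ℤ)
    (hj : P.pairingIn ℤ k c = P.pairingIn ℤ d c + 2 * j) (s : R) (a : R × K) :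
    emb red (L.chi (Str P c β 1) k (cm (L.y c (((C.q ^ (2 : ℤ) : Rˣ) : R) * s)) (L.Y d a))) =
      eR red ((C.q ^ (2 * j) : Rˣ) : R) *
        emb red (L.chi (Str P c β 1) k (cm (L.y c s) (L.Y d a))) := by
  have h1 := L.chi_tt hR hk c (L.cmY_mem' hR h h' hd s a)
  have h2 : X.tt c * cm (L.y c s) (L.Y d a) * (X.tt c)⁻¹ =
      cm (L.y c (((C.q ^ (2 : ℤ) : Rˣ) : R) * s))
        (L.Y d (((C.q ^ (P.pairingIn ℤ d c) : Rˣ) : R) * a.1,
          red ((C.q ^ (P.pairingIn ℤ d c) : Rˣ) : R) * a.2)) := by
    have e1 := L.y_t c c s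
    rw [P.pairingIn_same] at e1
    rw [← e1, ← L.tt_Y]
    unfold cm; group
  rw [h2] at h1
  have h3 := congrArg (emb red) h1
  rw [L.F_scal_right hR h h' hk hd, emb_scal, hj, zpow_add] at h3
  push_cast at h3
  rw [map_mul, mul_assoc] at h3
  have hu : IsUnit (eR red ((C.q ^ (P.pairingIn ℤ d c) : Rˣ) : R)) :=
    (Units.isUnit _).map (eR red)
  have h4 := hu.mul_left_cancel h3
  exact_mod_cast h4

/-- sum formula for `F` -/
lemma F_sum {k d : ι} (hk : Good P (Str P c β 1) k) (hd : d ∈ Str P c β 1) (s s' : R)
    (a : R × K) :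
    emb red (L.chi (Str P c β 1) k (cm (L.y c (s + s')) (L.Y d a))) =
      emb red (L.chi (Str P c β 1) k (L.y c s * cm (L.y c s') (L.Y d a) * (L.y c s)⁻¹)) +
        emb red (L.chi (Str P c β 1) k (cm (L.y c s) (L.Y d a))) := by
  rw [L.y_add, cm_mul_left, L.chi_mul hR hk (L.normS hR h h' s _ (L.cmY_mem' hR h h' hd s' a))
    (L.cmY_mem' hR h h' hd s a), emb_add]

include hloc in
/-- **second order** -/
theorem exp2 {k k1 d : ι} (hk : Good P (Str P c β 1) k) (hk1 : Good P (Str P c β 1) k1)
    (hd : d ∈ Str P c β 1)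
    (hk1d : P.root k1 = P.root c + P.root d) (hkk1 : P.root k = P.root c + P.root k1) (s : R)
    (a : R × K) :
    2 * emb red (L.chi (Str P c β 1) k (cm (L.y c s) (L.Y d a))) =
      eR red s ^ 2 * (emb red a * emb red (L.A c d k1) * emb red (L.A c k1 k)) := by
  have hsum : ∀ s s', emb red (L.chi (Str P c β 1) k (cm (L.y c (s + s')) (L.Y d a))) =
      emb red (L.chi (Str P c β 1) k (cm (L.y c s) (L.Y d a))) +
      emb red (L.chi (Str P c β 1) k (cm (L.y c s') (L.Y d a))) +
      eR red s * eR red s' * (emb red a * emb red (L.A c d k1) * emb red (L.A c k1 k)) := by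
    intro s s'
    rw [L.F_sum hR h h' hk hd, L.conj_Psi2 hR h h' hk hk1 hd hk1d hkk1 s _
      (L.cmY_mem hR h h' hd s' a), L.exp1 hR h h' hk1 hd hk1d]
    ring
  have hp : P.pairingIn ℤ k c = P.pairingIn ℤ d c + 2 * 2 := by
    rw [P.pairingIn_eq_add_of_root_eq_add (j := c) hkk1,
      P.pairingIn_eq_add_of_root_eq_add (j := c) hk1d, P.pairingIn_same]
    ring
  have key := weight_kill C hR hloc
    (fun s => 2 * emb red (L.chi (Str P c β 1) k (cm (L.y c s) (L.Y d a))) -
      eR red s ^ 2 * (emb red a * emb red (L.A c d k1) * emb red (L.A c k1 k)))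
    (fun s s' => by
      rw [hsum s s', map_add]
      ring) 2 le_rfl (by norm_num)
    (fun s => by
      rw [L.F_tt hR h h' hk hd 2 hp]
      have : eR red (((C.q ^ (2 : ℤ) : Rˣ) : R) * s) ^ 2 =
          eR red ((C.q ^ ((2 : ℤ) * 2) : Rˣ) : R) * eR red s ^ 2 := by
        rw [zpow_mul (C.q) 2 2, ← map_pow, ← map_pow, ← map_mul]
        congr 1
        push_cast
        rw [mul_pow]
        norm_cast
      rw [this]
      ring) s
  exact sub_eq_zero.mp key

include hloc in
/-- conjugation formula on `D(Ψ_{c,d})` for `k = d + 3c` -/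
lemma conj_Psi3 {k k2 k1 d : ι} (hk : Good P (Str P c β 1) k) (hk2 : Good P (Str P c β 1) k2)
    (hk1 : Good P (Str P c β 1) k1) (hd : d ∈ Str P c β 1)
    (hk1d : P.root k1 = P.root c + P.root d) (hk2k1 : P.root k2 = P.root c + P.root k1)
    (hkk2 : P.root k = P.root c + P.root k2) (s : R) :
    ∀ g ∈ L.D true (Psi P c d),
      2 * emb red (L.chi (Str P c β 1) k (L.y c s * g * (L.y c s)⁻¹)) =
      2 * emb red (L.chi (Str P c β 1) k g) +
        2 * eR red s * emb red (L.chi (Str P c β 1) k2 g) * emb red (L.A c k2 k) +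
        eR red s ^ 2 * emb red (L.chi (Str P c β 1) k1 g) * emb red (L.A c k1 k2) *
          emb red (L.A c k2 k) := by
  have hsub := L.D_mono (d := true) (Psi_c_Str P hd)
  have ne1 : ∀ {i i' : ι}, P.root i = P.root c + P.root i' → i' ≠ i := by
    rintro i i' hi rfl
    have : P.root c = 0 := by simpa using hi
    exact P.ne_zero c this
  have ne2 : k1 ≠ k := by
    rintro rfl
    have : 2 • P.root c = 0 := by
      have e1 : P.root k1 = 2 • P.root c + P.root k1 := by
        conv_lhs => rw [hkk2, hk2k1]
        module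
      simpa using e1
    rw [← Nat.cast_smul_eq_nsmul ℚ] at this
    rcases smul_eq_zero.mp this with h0 | h0
    · norm_num at h0
    · exact P.ne_zero c h0
  apply L.hom_ext hR
  · intro g hg g' hg'
    rw [L.chi_conj_mul hR h h' hk s g (hsub hg) g' (hsub hg'), emb_add]
    ring
  · intro g hg g' hg'
    rw [L.chi_mul hR hk (hsub hg) (hsub hg'), L.chi_mul hR hk1 (hsub hg) (hsub hg'),
      L.chi_mul hR hk2 (hsub hg) (hsub hg'), emb_add, emb_add, emb_add]
    ring
  · intro e he a
    have heS := Psi_c_Str P hd he
    rw [L.chi_conj_Y hR h h' hk heS, emb_add]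
    by_cases hek2 : e = k2
    · subst hek2
      rw [L.exp1 hR h h' hk heS hkk2, L.chi_Y hR hk2, L.chi_Y_ne hR hk heS (ne1 hkk2),
        L.chi_Y_ne hR hk1 heS (ne1 hk2k1).symm, emb_zero]
      ring
    · by_cases hek1 : e = k1
      · subst hek1
        rw [mul_add, L.exp2 hR hloc h h' hk hk2 heS hk2k1 hkk2, L.chi_Y hR hk1,
          L.chi_Y_ne hR hk heS ne2, L.chi_Y_ne hR hk2 heS (ne1 hk2k1), emb_zero]
        ring
      · rw [L.chi_cm_zero hR h h' hk heS, L.chi_Y_ne hR hk1 heS hek1,
          L.chi_Y_ne hR hk2 heS hek2, emb_zero]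
        · ring
        · rintro ⟨x, y, hx, hy, hke⟩
          obtain ⟨x', y', hx', hy', he'⟩ := he
          have h1 : (x + y * x') • P.root c + (y * y') • P.root d =
              3 • P.root c + 1 • P.root d := by
            have : 3 • P.root c + 1 • P.root d = P.root k := by
              rw [hkk2, hk2k1, hk1d]; module
            rw [this, hke, he']
            module
          have h2 := coef_unique (β := β) (lam_self P c β) (lam_ne_Str h h' hd) h1
          have h3 : y = 1 ∧ y' = 1 := by
            have := h2.2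
            exact ⟨Nat.eq_one_of_mul_eq_one_right this, Nat.eq_one_of_mul_eq_one_left this⟩
          have h4 : x' = 1 ∨ x' = 2 := by
            have := h2.1
            rw [h3.1] at this
            omega
          rcases h4 with h4 | h4
          · apply hek1
            apply P.root.injective
            rw [he', hk1d, h4, h3.2, one_smul, one_smul]
          · apply hek2
            apply P.root.injective
            rw [he', hk2k1, hk1d, h4, h3.2]
            module

include hloc in
/-- **third order** -/
theorem exp3 {k k2 k1 d : ι} (hk : Good P (Str P c β 1) k) (hk2 : Good P (Str P c β 1) k2)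
    (hk1 : Good P (Str P c β 1) k1) (hd : d ∈ Str P c β 1)
    (hk1d : P.root k1 = P.root c + P.root d) (hk2k1 : P.root k2 = P.root c + P.root k1)
    (hkk2 : P.root k = P.root c + P.root k2) (s : R) (a : R × K) :
    6 * emb red (L.chi (Str P c β 1) k (cm (L.y c s) (L.Y d a))) =
      eR red s ^ 3 * (emb red a * emb red (L.A c d k1) * emb red (L.A c k1 k2) *
        emb red (L.A c k2 k)) := by
  have hsum : ∀ s s', 2 * emb red (L.chi (Str P c β 1) k (cm (L.y c (s + s')) (L.Y d a))) =
      2 * emb red (L.chi (Str P c β 1) k (cm (L.y c s) (L.Y d a))) +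
      2 * emb red (L.chi (Str P c β 1) k (cm (L.y c s') (L.Y d a))) +
      (eR red s * eR red s' ^ 2 + eR red s ^ 2 * eR red s') *
        (emb red a * emb red (L.A c d k1) * emb red (L.A c k1 k2) * emb red (L.A c k2 k)) := by
    intro s s'
    have e1 := L.exp2 hR hloc h h' hk2 hk1 hd hk1d hk2k1 s' a
    rw [L.F_sum hR h h' hk hd, mul_add, L.conj_Psi3 hR hloc h h' hk hk2 hk1 hd hk1d hk2k1 hkk2 s _
      (L.cmY_mem hR h h' hd s' a), L.exp1 hR h h' hk1 hd hk1d]
    linear_combination (eR red s * emb red (L.A c k2 k)) * e1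
  have hp : P.pairingIn ℤ k c = P.pairingIn ℤ d c + 2 * 3 := by
    rw [P.pairingIn_eq_add_of_root_eq_add (j := c) hkk2,
      P.pairingIn_eq_add_of_root_eq_add (j := c) hk2k1,
      P.pairingIn_eq_add_of_root_eq_add (j := c) hk1d, P.pairingIn_same]
    ring
  have key := weight_kill C hR hloc
    (fun s => 6 * emb red (L.chi (Str P c β 1) k (cm (L.y c s) (L.Y d a))) -
      eR red s ^ 3 * (emb red a * emb red (L.A c d k1) * emb red (L.A c k1 k2) *
        emb red (L.A c k2 k)))
    (fun s s' => by
      rw [map_add]
      linear_combination 3 * hsum s s') 3 (by norm_num) (by norm_num)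
    (fun s => by
      rw [L.F_tt hR h h' hk hd 3 hp]
      have : eR red (((C.q ^ (2 : ℤ) : Rˣ) : R) * s) ^ 3 =
          eR red ((C.q ^ ((2 : ℤ) * 3) : Rˣ) : R) * eR red s ^ 3 := by
        rw [zpow_mul (C.q) 2 3, ← map_pow, ← map_pow, ← map_mul]
        congr 1
        push_cast
        rw [mul_pow]
        norm_cast
      rw [this]
      ring) s
  exact sub_eq_zero.mp key

lemma str_stop {k' e : ι} (hk' : k' ∈ Str P c β 1) (hstop : ∀ l, P.root l ≠ P.root k' - P.root c)
    {n : ℕ} (hn : 1 ≤ n) (he : P.root e = P.root k' - n • P.root c) : False := by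
  have hck : c ≠ k' := by
    rintro rfl
    exact lam_ne_Str h h' hk' (lam_self P c β)
  have hck' : P.root c ≠ - P.root k' := by
    intro h0
    exact add_ne_Str h h' hk' (by rw [h0, neg_add_cancel])
  have hlin := RootPairing.IsReduced.linearIndependent P hck hck'
  have h1 : n ≤ P.chainBotCoeff c k' :=
    (P.root_sub_nsmul_mem_range_iff_le_chainBotCoeff hlin).mp ⟨e, he⟩
  obtain ⟨l, hl⟩ := (P.root_sub_nsmul_mem_range_iff_le_chainBotCoeff hlin (n := 1)).mpr
    (hn.trans h1)
  exact hstop l (by rw [hl, one_smul])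

/-- first order conjugation formula on the whole of `D(Str)` -/
theorem Q1 {k k' : ι} {z : ℤ} (hkz : P.root k = P.root β + z • P.root c)
    (hkk' : P.root k = P.root c + P.root k')
    (hstop : ∀ l, P.root l ≠ P.root k' - P.root c) (s : R) :
    ∀ g ∈ L.D true (Str P c β 1),
      emb red (L.chi (Str P c β 1) k (L.y c s * g * (L.y c s)⁻¹)) =
      emb red (L.chi (Str P c β 1) k g) +
        eR red s * emb red (L.chi (Str P c β 1) k' g) * emb red (L.A c k' k) := by
  have hk := good_Str h h' hkz
  have hk'z : P.root k' = P.root β + (z - 1) • P.root c := by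
    rw [sub_smul, one_smul, ← add_sub_assoc, ← hkz, hkk']; abel
  have hk' := good_Str h h' hk'z
  apply L.hom_ext hR
  · intro g hg g' hg'
    rw [L.chi_conj_mul hR h h' hk s g hg g' hg', emb_add]
  · intro g hg g' hg'
    rw [L.chi_mul hR hk hg hg', L.chi_mul hR hk' hg hg', emb_add, emb_add]
    ring
  · intro e he a
    rw [L.chi_conj_Y hR h h' hk he, emb_add]
    by_cases hek : e = k'
    · subst hek
      rw [L.exp1 hR h h' hk he hkk', L.chi_Y hR hk']
      have h0 : L.chi (Str P c β 1) k (L.Y e a) = 0 := by
        apply L.chi_Y_ne hR hk he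
        rintro rfl
        have : P.root c = 0 := by simpa using hkk'
        exact P.ne_zero c this
      rw [h0, emb_zero]
      ring
    · rw [L.chi_cm_zero hR h h' hk he, L.chi_Y_ne hR hk' he hek, emb_zero]
      · ring
      · rintro ⟨x, y, hx, hy, hke⟩
        obtain ⟨a0, w, ha0, he'⟩ := he
        have e1 : lam P c β (P.root k) = lam P c β (P.root β) := by
          rw [hkz, map_add, map_zsmul, lam_self, smul_zero, add_zero]
        have e2 : lam P c β (P.root k) = (y * a0 : ℕ) * lam P c β (P.root β) := by
          rw [hke, map_add, map_nsmul, map_nsmul, lam_self, smul_zero, zero_add, lam_Str P he',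
            nsmul_eq_mul]
          push_cast; ring
        have h3 := lam_right_pos P h h'
        have h4 : ((y * a0 : ℕ) : ℚ) = (1 : ℕ) := by
          rw [e1] at e2
          have := mul_right_cancel₀ h3.ne' ((one_mul _).trans e2)
          rw [← this]; simp
        have h5 : y * a0 = 1 := by exact_mod_cast h4
        have hy1 : y = 1 := Nat.eq_one_of_mul_eq_one_right h5
        subst hy1
        rw [one_smul] at hke
        by_cases hx1 : x = 1
        · apply hek
          apply P.root.injective
          rw [hx1, one_smul, hkk'] at hke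
          exact (add_left_cancel hke).symm
        · refine str_stop hR h h' hk'.mem hstop (n := x - 1) (by omega) (e := e) ?_
          have : P.root e = P.root k - x • P.root c := by rw [hke]; abel
          rw [this, hkk']
          have hx2 : x = (x - 1) + 1 := by omega
          conv_lhs => rw [hx2]
          rw [add_smul, one_smul]; abel

include hloc in
/-- second order conjugation formula on the whole of `D(Str)` -/
theorem Q2 {k k' k'' : ι} {z : ℤ} (hkz : P.root k = P.root β + z • P.root c)
    (hkk' : P.root k = P.root c + P.root k') (hkk'' : P.root k' = P.root c + P.root k'')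
    (hstop : ∀ l, P.root l ≠ P.root k'' - P.root c) (s : R) :
    ∀ g ∈ L.D true (Str P c β 1),
      2 * emb red (L.chi (Str P c β 1) k (L.y c s * g * (L.y c s)⁻¹)) =
      2 * emb red (L.chi (Str P c β 1) k g) +
        2 * eR red s * emb red (L.chi (Str P c β 1) k' g) * emb red (L.A c k' k) +
        eR red s ^ 2 * (emb red (L.chi (Str P c β 1) k'' g) * emb red (L.A c k'' k') *
          emb red (L.A c k' k)) := by
  have hk := good_Str h h' hkz
  have hk'z : P.root k' = P.root β + (z - 1) • P.root c := by
    rw [sub_smul, one_smul, ← add_sub_assoc, ← hkz, hkk']; abel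
  have hk''z : P.root k'' = P.root β + (z - 2) • P.root c := by
    have : P.root k'' = P.root k' - P.root c := by rw [hkk'']; abel
    rw [this, hk'z]; module
  have hk' := good_Str h h' hk'z
  have hk'' := good_Str h h' hk''z
  have ne1 : ∀ {i i' : ι}, P.root i = P.root c + P.root i' → i' ≠ i := by
    rintro i i' hi rfl
    have : P.root c = 0 := by simpa using hi
    exact P.ne_zero c this
  have ne2 : k'' ≠ k := by
    rintro rfl
    have : 2 • P.root c = 0 := by
      have e1 : P.root k'' = 2 • P.root c + P.root k'' := by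
        conv_lhs => rw [hkk', hkk'']
        module
      simpa using e1
    rw [← Nat.cast_smul_eq_nsmul ℚ] at this
    rcases smul_eq_zero.mp this with h0 | h0
    · norm_num at h0
    · exact P.ne_zero c h0
  apply L.hom_ext hR
  · intro g hg g' hg'
    rw [L.chi_conj_mul hR h h' hk s g hg g' hg', emb_add]
    ring
  · intro g hg g' hg'
    rw [L.chi_mul hR hk hg hg', L.chi_mul hR hk' hg hg', L.chi_mul hR hk'' hg hg', emb_add,
      emb_add, emb_add]
    ring
  · intro e he a
    rw [L.chi_conj_Y hR h h' hk he, emb_add]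
    by_cases hek : e = k'
    · subst hek
      rw [L.exp1 hR h h' hk he hkk', L.chi_Y hR hk', L.chi_Y_ne hR hk he (ne1 hkk'),
        L.chi_Y_ne hR hk'' he (ne1 hkk'').symm, emb_zero]
      ring
    · by_cases hek2 : e = k''
      · subst hek2
        rw [mul_add, L.exp2 hR hloc h h' hk hk' he hkk'' hkk', L.chi_Y hR hk'',
          L.chi_Y_ne hR hk he ne2, L.chi_Y_ne hR hk' he (ne1 hkk''), emb_zero]
        ring
      · rw [L.chi_cm_zero hR h h' hk he, L.chi_Y_ne hR hk' he hek, L.chi_Y_ne hR hk'' he hek2,
          emb_zero]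
        · ring
        · rintro ⟨x, y, hx, hy, hke⟩
          obtain ⟨a0, w, ha0, he'⟩ := he
          have e1 : lam P c β (P.root k) = lam P c β (P.root β) := by
            rw [hkz, map_add, map_zsmul, lam_self, smul_zero, add_zero]
          have e2 : lam P c β (P.root k) = (y * a0 : ℕ) * lam P c β (P.root β) := by
            rw [hke, map_add, map_nsmul, map_nsmul, lam_self, smul_zero, zero_add, lam_Str P he',
              nsmul_eq_mul]
            push_cast; ring
          have h3 := lam_right_pos P h h'
          have h4 : ((y * a0 : ℕ) : ℚ) = (1 : ℕ) := by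
            rw [e1] at e2
            have := mul_right_cancel₀ h3.ne' ((one_mul _).trans e2)
            rw [← this]; simp
          have h5 : y * a0 = 1 := by exact_mod_cast h4
          have hy1 : y = 1 := Nat.eq_one_of_mul_eq_one_right h5
          subst hy1
          rw [one_smul] at hke
          by_cases hx1 : x = 1
          · apply hek
            apply P.root.injective
            rw [hx1, one_smul, hkk'] at hke
            exact (add_left_cancel hke).symm
          · by_cases hx2 : x = 2
            · apply hek2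
              apply P.root.injective
              rw [hx2, hkk', hkk''] at hke
              have : P.root c + (P.root c + P.root k'') = 2 • P.root c + P.root k'' := by module
              rw [this] at hke
              exact (add_left_cancel hke).symm
            · refine str_stop hR h h' hk''.mem hstop (n := x - 2) (by omega) (e := e) ?_
              have : P.root e = P.root k - x • P.root c := by rw [hke]; abel
              rw [this, hkk', hkk'']
              have hx3 : x = (x - 2) + 2 := by omega
              conv_lhs => rw [hx3]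
              rw [add_smul, two_smul]; abel

end

end Lifts

end Pool.Agent.T2H35.Chev
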