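import Pool.Agent.T2H35.Chev.TW

/-! Extensions of `G` by the adjoint module, lifts of root subgroups -/

namespace Pool.Agent.T2H35.Chev

open Module

set_option linter.unusedSectionVars false
set_option linter.unusedVariables false

variable {ι V W : Type} [Fintype ι] [DecidableEq ι] [AddCommGroup V] [Module ℚ V]
  [AddCommGroup W] [Module ℚ W] {P : RootPairing ι ℚ V W} [P.IsCrystallographic] {b : P.Base}
  {R K : Type} [CommRing R] [Field K] {red : R →+* K} {G : Type} [Group G]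
  {ρ : G →* (((b.support ⊕ ι) → K) →ₗ[K] ((b.support ⊕ ι) → K))}

/-- `n_c = x_c(1) x_{-c}(-1) x_c(1)` -/
def CG.nn (C : CG P b R K red G ρ) (c : ι) : G := C.x c 1 * C.x (neg P c) (-1) * C.x c 1

/-- An extension of `G` by the module `M = K^κ`, split over `N`. -/
structure ExtData (C : CG P b R K red G ρ) (E : Type) [Group E] where
  π : E →* G
  j : ((b.support ⊕ ι) → K) → E
  j_add : ∀ m m', j (m + m') = j m * j m'
  j_inj : Function.Injective j
  π_j : ∀ m, π (j m) = 1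
  ker : ∀ g, π g = 1 → ∃ m, j m = g
  conj : ∀ g m, g * j m * g⁻¹ = j (ρ (π g) m)
  σ : C.N →* E
  π_σ : ∀ n, π (σ n) = n

/-- The lift of `t_e`. -/
def ExtData.tt {C : CG P b R K red G ρ} {E : Type} [Group E] (X : ExtData C E) (e : ι) : E :=
  X.σ ⟨C.t e, C.t_mem e⟩

/-- The lift of `n_c`. -/
def ExtData.nt {C : CG P b R K red G ρ} {E : Type} [Group E] (X : ExtData C E) (c : ι) : E :=
  X.σ ⟨C.nn c, C.n_mem c⟩

/-- A family of equivariant lifts of the root subgroups. -/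
structure Lifts (C : CG P b R K red G ρ) {E : Type} [Group E] (X : ExtData C E) where
  y : ι → R → E
  y_add : ∀ i s t, y i (s + t) = y i s * y i t
  π_y : ∀ i s, X.π (y i s) = C.x i s
  y_t : ∀ e i s, X.tt e * y i s * (X.tt e)⁻¹ = y i (((C.q ^ (P.pairingIn ℤ i e) : Rˣ) : R) * s)
  y_n : ∀ c i s, X.nt c * y i s * (X.nt c)⁻¹ = y (P.reflectionPerm c i) (C.η c i * s)

variable {C : CG P b R K red G ρ} {E : Type} [Group E]

/-- the basis vector `e_i` of `M` -/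
abbrev ev (b : P.Base) (K : Type) [Field K] (i : ι) : (b.support ⊕ ι) → K :=
  Pi.single (Sum.inr i) 1

namespace ExtData

variable (X : ExtData C E)

lemma j_zero : X.j 0 = 1 := by
  have := X.j_add 0 0
  rw [add_zero] at this
  exact left_eq_mul.mp this

lemma j_neg (m) : (X.j m)⁻¹ = X.j (-m) := by
  rw [inv_eq_iff_mul_eq_one, ← X.j_add, add_neg_cancel, j_zero]

lemma j_comm (m m') : X.j m * X.j m' = X.j m' * X.j m := by
  rw [← X.j_add, ← X.j_add, add_comm]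

lemma mul_j (g m) : g * X.j m = X.j (ρ (X.π g) m) * g := by
  rw [← X.conj, inv_mul_cancel_right]

lemma π_tt (e : ι) : X.π (X.tt e) = C.t e := X.π_σ _

lemma π_nt (c : ι) : X.π (X.nt c) = C.nn c := X.π_σ _

lemma eq_of_π {g h : E} (hgh : X.π g = X.π h) : ∃ m, g = X.j m * h := by
  obtain ⟨m, hm⟩ := X.ker (g * h⁻¹) (by rw [map_mul, map_inv, hgh, mul_inv_cancel])
  exact ⟨m, by rw [hm, inv_mul_cancel_right]⟩

end ExtData

namespace Lifts

variable {X : ExtData C E} (L : Lifts C X)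

lemma y_zero (i : ι) : L.y i 0 = 1 := by
  have := L.y_add i 0 0
  rw [add_zero] at this
  exact left_eq_mul.mp this

lemma y_neg (i : ι) (s : R) : (L.y i s)⁻¹ = L.y i (-s) := by
  rw [inv_eq_iff_mul_eq_one, ← L.y_add, add_neg_cancel, y_zero]

/-- `ρ (x_i(s)) e_i = e_i` -/
lemma _root_.Pool.Agent.T2H35.Chev.CG.x_ev [P.IsReduced] (C : CG P b R K red G ρ) (i : ι) (s : R) :
    ρ (C.x i s) (ev b K i) = ev b K i := by
  funext k
  apply C.raise
  intro k' a ha hw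
  rw [ev, Pi.single_apply, if_neg]
  rintro rfl
  cases k with
  | inl j =>
    simp only [wt, Sum.elim_inl, Sum.elim_inr] at hw
    have h1 : (a + 1) • P.root i = 0 := by rw [add_smul, one_smul, add_comm]; exact hw.symm
    have h2 : P.root i ≠ 0 := P.ne_zero i
    rw [← Nat.cast_smul_eq_nsmul ℚ] at h1
    rcases smul_eq_zero.mp h1 with h3 | h3
    · have : (0 : ℚ) < ((a + 1 : ℕ) : ℚ) := by positivity
      linarith
    · exact h2 h3
  | inr k0 =>
    simp only [wt, Sum.elim_inr] at hw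
    have h1 : P.root k0 = (a + 1) • P.root i := by rw [add_smul, one_smul, add_comm]; exact hw
    have h2 : ¬ LinearIndependent ℚ ![P.root k0, P.root i] := by
      rw [LinearIndependent.pair_iff]
      push Not
      refine ⟨1, -((a + 1 : ℕ) : ℚ), ?_, fun h => absurd h one_ne_zero⟩
      rw [h1, one_smul, neg_smul, Nat.cast_smul_eq_nsmul, add_neg_cancel]
    have h2' : P.root i ≠ 0 := P.ne_zero i
    rw [RootPairing.IsReduced.linearIndependent_iff] at h2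
    push Not at h2
    by_cases h3 : k0 = i
    · rw [h3] at h1
      have h4 : a • P.root i = 0 := by
        rw [add_smul, one_smul] at h1
        exact right_eq_add.mp h1
      rw [← Nat.cast_smul_eq_nsmul ℚ] at h4
      rcases smul_eq_zero.mp h4 with h5 | h5
      · have : (0 : ℚ) < (a : ℚ) := by exact_mod_cast ha
        linarith
      · exact h2' h5
    · have h4 := h2 h3
      rw [h1] at h4
      have h5 : (a + 2) • P.root i = 0 := by
        rw [show a + 2 = (a + 1) + 1 by ring, add_smul, one_smul, h4, neg_add_cancel]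
      rw [← Nat.cast_smul_eq_nsmul ℚ] at h5
      rcases smul_eq_zero.mp h5 with h6 | h6
      · have : (0 : ℚ) < ((a + 2 : ℕ) : ℚ) := by positivity
        linarith
      · exact h2' h6

/-- The root subgroup element with parameter in `R × K`. -/
def Y (i : ι) (a : R × K) : E := X.j (a.2 • ev b K i) * L.y i a.1

lemma Y_add [P.IsReduced] (i : ι) (a a' : R × K) : L.Y i (a + a') = L.Y i a * L.Y i a' := by
  unfold Y
  have h1 : L.y i a.1 * X.j (a'.2 • ev b K i) = X.j (a'.2 • ev b K i) * L.y i a.1 := by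
    rw [X.mul_j, L.π_y, map_smul, C.x_ev]
  rw [Prod.fst_add, Prod.snd_add, add_smul, X.j_add, L.y_add]
  calc _ = X.j (a.2 • ev b K i) * (X.j (a'.2 • ev b K i) * L.y i a.1) * L.y i a'.1 := by group
    _ = _ := by rw [← h1]; group

lemma Y_zero [P.IsReduced] (i : ι) : L.Y i 0 = 1 := by
  unfold Y
  simp [X.j_zero, L.y_zero]

lemma Y_neg [P.IsReduced] (i : ι) (a : R × K) : (L.Y i a)⁻¹ = L.Y i (-a) := by
  rw [inv_eq_iff_mul_eq_one, ← L.Y_add, add_neg_cancel, Y_zero]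

lemma π_Y (i : ι) (a : R × K) : X.π (L.Y i a) = C.x i a.1 := by
  unfold Y
  rw [map_mul, X.π_j, L.π_y, one_mul]

lemma Y_inl (i : ι) (s : R) : L.Y i (s, 0) = L.y i s := by
  unfold Y; simp [X.j_zero]

lemma Y_inr (i : ι) (κ : K) : L.Y i (0, κ) = X.j (κ • ev b K i) := by
  unfold Y; simp [L.y_zero]

lemma Y_comm [P.IsReduced] (i : ι) (a a' : R × K) : L.Y i a * L.Y i a' = L.Y i a' * L.Y i a := by
  rw [← L.Y_add, ← L.Y_add, add_comm]

end Lifts

/-- allowed parameters: all of `R × K` if `d` is true, `R × 0` otherwise -/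
def Al {R K : Type} [Zero K] (d : Bool) (a : R × K) : Prop := d = true ∨ a.2 = 0

lemma Al.neg {R K : Type} [AddGroup R] [AddGroup K] {d : Bool} {a : R × K} (h : Al d a) :
    Al d (-a) := by
  rcases h with h | h
  · exact Or.inl h
  · right; simp [h]

lemma Al.add {R K : Type} [AddGroup R] [AddGroup K] {d : Bool} {a a' : R × K} (h : Al d a)
    (h' : Al d a') : Al d (a + a') := by
  rcases h with h | h
  · exact Or.inl h
  · rcases h' with h' | h'
    · exact Or.inl h'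
    · right; simp [h, h']

namespace Lifts

variable {X : ExtData C E} (L : Lifts C X)

/-- The group generated by the root subgroups in `Ψ`. -/
def D (d : Bool) (Ψ : Set ι) : Subgroup E :=
  Subgroup.closure {g | ∃ k ∈ Ψ, ∃ a, Al d a ∧ g = L.Y k a}

lemma Y_mem {d : Bool} {Ψ : Set ι} {k : ι} (hk : k ∈ Ψ) {a : R × K} (ha : Al d a) :
    L.Y k a ∈ L.D d Ψ := Subgroup.subset_closure ⟨k, hk, a, ha, rfl⟩

lemma y_mem {d : Bool} {Ψ : Set ι} {k : ι} (hk : k ∈ Ψ) (s : R) : L.y k s ∈ L.D d Ψ := by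
  rw [← L.Y_inl]
  exact L.Y_mem hk (Or.inr rfl)

lemma D_mono {d : Bool} {Ψ Ψ' : Set ι} (h : Ψ ⊆ Ψ') : L.D d Ψ ≤ L.D d Ψ' := by
  apply Subgroup.closure_mono
  rintro g ⟨k, hk, a, ha, rfl⟩
  exact ⟨k, h hk, a, ha, rfl⟩

lemma D_false_le (d : Bool) (Ψ : Set ι) : L.D false Ψ ≤ L.D d Ψ := by
  apply Subgroup.closure_mono
  rintro g ⟨k, hk, a, ha, rfl⟩
  refine ⟨k, hk, a, ?_, rfl⟩
  rcases ha with ha | ha
  · exact absurd ha (by simp)
  · exact Or.inr ha

lemma π_D {d : Bool} {Ψ : Set ι} {g : E} (hg : g ∈ L.D d Ψ) : X.π g ∈ C.XG Ψ := by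
  have : L.D d Ψ ≤ (C.XG Ψ).comap X.π := by
    rw [D, Subgroup.closure_le]
    rintro _ ⟨k, hk, a, ha, rfl⟩
    rw [SetLike.mem_coe, Subgroup.mem_comap, L.π_Y]
    exact C.x_mem_XG hk _
  exact this hg

lemma exists_D_of_XG {Ψ : Set ι} {g : G} (hg : g ∈ C.XG Ψ) : ∃ h ∈ L.D false Ψ, X.π h = g := by
  have : C.XG Ψ ≤ (L.D false Ψ).map X.π := by
    rw [CG.XG, Subgroup.closure_le]
    rintro _ ⟨k, hk, s, rfl⟩
    exact ⟨L.y k s, L.y_mem hk s, L.π_y k s⟩
  obtain ⟨h, h1, h2⟩ := this hg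
  exact ⟨h, h1, h2⟩

/-- normalisation from commutators -/
lemma conj_mem {d : Bool} {Ψ : Set ι} {g : E}
    (h : ∀ k ∈ Ψ, ∀ a, Al d a → g * L.Y k a * g⁻¹ * (L.Y k a)⁻¹ ∈ L.D d Ψ) :
    ∀ u ∈ L.D d Ψ, g * u * g⁻¹ ∈ L.D d Ψ := by
  intro u hu
  have : L.D d Ψ ≤ (L.D d Ψ).comap (MulAut.conj g).toMonoidHom := by
    conv_lhs => rw [D]
    rw [Subgroup.closure_le]
    rintro _ ⟨k, hk, a, ha, rfl⟩
    rw [SetLike.mem_coe, Subgroup.mem_comap]
    have h1 := mul_mem (h k hk a ha) (L.Y_mem hk ha)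
    rw [inv_mul_cancel_right] at h1
    exact h1
  exact this hu

/-- peeling off an indecomposable root -/
lemma peel [P.IsReduced] {d : Bool} {Ψ : Set ι} {k0 : ι} (hk0 : k0 ∈ Ψ)
    (hind : ∀ i ∈ Ψ, ∀ i' ∈ Ψ, k0 ∉ Psi P i i') (hcl : Closed P Ψ)
    (hcomm : ∀ i ∈ Ψ, ∀ i' ∈ Ψ, ∀ a a', Al d a → Al d a' →
      L.Y i a * L.Y i' a' * (L.Y i a)⁻¹ * (L.Y i' a')⁻¹ ∈ L.D d (Psi P i i'))
    {g : E} (hg : g ∈ L.D d Ψ) : ∃ a, Al d a ∧ (L.Y k0 a)⁻¹ * g ∈ L.D d (Ψ \ {k0}) := by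
  have hsub : ∀ i ∈ Ψ, ∀ i' ∈ Ψ, Psi P i i' ⊆ Ψ \ {k0} := by
    intro i hi i' hi' l hl
    refine ⟨hcl i hi i' hi' hl, ?_⟩
    rintro rfl
    exact hind i hi i' hi' hl
  have hnorm : ∀ a, Al d a → ∀ u ∈ L.D d (Ψ \ {k0}),
      L.Y k0 a * u * (L.Y k0 a)⁻¹ ∈ L.D d (Ψ \ {k0}) := by
    intro a ha
    apply L.conj_mem
    intro k hk a' ha'
    exact L.D_mono (hsub k0 hk0 k hk.1) (hcomm k0 hk0 k hk.1 a a' ha ha')
  have key : ∀ k ∈ Ψ, ∀ a', Al d a' → ∀ g, (∃ a, Al d a ∧ (L.Y k0 a)⁻¹ * g ∈ L.D d (Ψ \ {k0})) →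
      (∃ a, Al d a ∧ (L.Y k0 a)⁻¹ * (L.Y k a' * g) ∈ L.D d (Ψ \ {k0})) := by
    rintro k hk a' ha' g ⟨a, ha, hga⟩
    by_cases hkk : k = k0
    · subst hkk
      refine ⟨a' + a, ha'.add ha, ?_⟩
      rw [L.Y_add, mul_inv_rev]
      have : (L.Y k a)⁻¹ * (L.Y k a')⁻¹ * (L.Y k a' * g) = (L.Y k a)⁻¹ * g := by group
      rw [this]; exact hga
    · refine ⟨a, ha, ?_⟩
      have h1 : L.Y k a' ∈ L.D d (Ψ \ {k0}) := L.Y_mem (Ψ := Ψ \ {k0}) ⟨hk, hkk⟩ ha'
      have h2 := hnorm (-a) ha.neg _ h1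
      rw [← L.Y_neg, inv_inv] at h2
      have : (L.Y k0 a)⁻¹ * (L.Y k a' * g) =
        ((L.Y k0 a)⁻¹ * L.Y k a' * L.Y k0 a) * ((L.Y k0 a)⁻¹ * g) := by group
      rw [this]
      exact mul_mem h2 hga
  refine Subgroup.closure_induction_left (p := fun g _ =>
    ∃ a, Al d a ∧ (L.Y k0 a)⁻¹ * g ∈ L.D d (Ψ \ {k0})) ?_ ?_ ?_ hg
  · exact ⟨0, Or.inr rfl, by rw [L.Y_zero]; simp⟩
  · rintro _ ⟨k, hk, a, ha, rfl⟩ g _ hg
    exact key k hk a ha g hg
  · rintro _ ⟨k, hk, a, ha, rfl⟩ g _ hg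
    rw [L.Y_neg]
    exact key k hk (-a) ha.neg g hg

/-- exactness: `D(Ψ) ∩ M = M_Ψ` -/
theorem exact [P.IsReduced] (d : Bool) (n : ℕ) : ∀ Ψ : Set ι, Ψ.ncard = n → Closed P Ψ →
    Pos P Ψ →
    (∀ i ∈ Ψ, ∀ i' ∈ Ψ, ∀ a a', Al d a → Al d a' →
      L.Y i a * L.Y i' a' * (L.Y i a)⁻¹ * (L.Y i' a')⁻¹ ∈ L.D d (Psi P i i')) →
    ∀ m, X.j m ∈ L.D d Ψ → ∀ k, k ∉ SS b d Ψ → m k = 0 := by
  induction n with
  | zero =>
    intro Ψ hn hcl hpos hcomm m hm k hk
    rw [Set.ncard_eq_zero (Set.toFinite _)] at hn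
    subst hn
    have : L.D d ∅ = ⊥ := by
      rw [D, Subgroup.closure_eq_bot_iff]
      rintro _ ⟨k, hk, -⟩
      exact absurd hk (by simp)
    rw [this, Subgroup.mem_bot, ← X.j_zero] at hm
    rw [X.j_inj hm]; rfl
  | succ n IH =>
    intro Ψ hn hcl hpos hcomm m hm k hk
    obtain ⟨l, hl⟩ := hpos
    have hne : Ψ.Nonempty := by
      rw [Set.nonempty_iff_ne_empty]
      rintro rfl
      simp at hn
    obtain ⟨k0, hk0, hmin⟩ := Set.exists_min_image Ψ (fun k => l (P.root k)) (Set.toFinite _) hne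
    have hind : ∀ i ∈ Ψ, ∀ i' ∈ Ψ, k0 ∉ Psi P i i' := by
      intro i hi i' hi' h
      have h1 := linfun_Psi P (hl i hi) (hl i' hi') h
      have h2 := hmin i hi
      have h3 := hl i' hi'
      linarith
    obtain ⟨a, ha, hga⟩ := L.peel hk0 hind hcl hcomm hm
    have hsub : ∀ i ∈ Ψ, ∀ i' ∈ Ψ, Psi P i i' ⊆ Ψ \ {k0} := by
      intro i hi i' hi' l hl
      refine ⟨hcl i hi i' hi' hl, ?_⟩
      rintro rfl
      exact hind i hi i' hi' hl
    have hcl' : Closed P (Ψ \ {k0}) := fun i hi i' hi' => hsub i hi.1 i' hi'.1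
    have hpos' : Pos P (Ψ \ {k0}) := ⟨l, fun k hk => hl k hk.1⟩
    have h1 := L.π_D hga
    rw [map_mul, X.π_j, mul_one, map_inv, L.π_Y, C.x_neg] at h1
    have h2 := C.sep _ k0 _ hcl' hpos' (by simp) h1
    have h3 : a.1 = 0 := by simpa using h2
    have h4 : (L.Y k0 a)⁻¹ * X.j m = X.j (m - a.2 • ev b K k0) := by
      have : a = (0, a.2) := by rw [← h3]
      rw [this, L.Y_inr, X.j_neg, ← X.j_add]
      congr 1
      abel
    rw [h4] at hga
    have h5 := IH (Ψ \ {k0}) (by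
        rw [Set.ncard_sdiff_singleton_of_mem hk0, hn]; rfl) hcl' hpos'
      (fun i hi i' hi' => hcomm i hi.1 i' hi'.1) _ hga k (by
        rintro ⟨hd, i, hi, rfl⟩
        exact hk ⟨hd, i, hi.1, rfl⟩)
    rw [Pi.sub_apply, Pi.smul_apply, sub_eq_zero] at h5
    rw [h5]
    by_cases hkk : k = Sum.inr k0
    · subst hkk
      rcases ha with hd | ha
      · exact absurd ⟨hd, k0, hk0, rfl⟩ hk
      · rw [ha, zero_smul]
    · rw [ev, Pi.single_apply, if_neg hkk, smul_zero]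

end Lifts

end Pool.Agent.T2H35.Chev
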