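import Pool.Agent.T2H35.Chev.Rho
import Pool.Agent.T2H35.Chev.Avg
import Pool.Agent.T2H35.Chev.Comb

/-! Finite level: inflated cocycles on root subgroups, base change of the elementary group,
decomposition of roots -/

namespace Pool.Agent.T2H35.Chev

open Module

set_option linter.unusedSectionVars false
set_option linter.unusedVariables false

variable {ι V W : Type} [Fintype ι] [DecidableEq ι] [AddCommGroup V] [Module ℚ V]
  [AddCommGroup W] [Module ℚ W]

/-! ### `xMat` and ring homomorphisms -/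

section xMat

variable {P : RootPairing ι ℚ V W} [P.IsCrystallographic] {b : P.Base}
  {L : Type} [LieRing L] (B : ChevalleyBasis P b L)

lemma xMat_map_congr {A A' : Type} [CommRing A] [CommRing A'] (φ : A →+* A') (i : ι) {s t : A}
    (h : φ s = φ t) : (B.xMat A i s).map φ = (B.xMat A i t).map φ := by
  unfold ChevalleyBasis.xMat
  ext d a
  simp only [Matrix.map_apply, Matrix.add_apply, Matrix.smul_apply, smul_eq_mul, map_add, map_mul,
    map_pow, h]

lemma map_inverse {A A' : Type} [CommRing A] [CommRing A'] (φ : A →+* A') {a : A}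
    (h : IsUnit a) : φ (Ring.inverse a) = Ring.inverse (φ a) := by
  obtain ⟨u, rfl⟩ := h
  rw [Ring.inverse_unit]
  have : φ (u : A) = (Units.map (φ : A →* A') u : A'ˣ) := rfl
  rw [this, Ring.inverse_unit]
  rfl

lemma xMat_map {A A' : Type} [CommRing A] [CommRing A'] (φ : A →+* A') (i : ι) (t : A)
    (h2 : IsUnit (2 : A)) (h6 : IsUnit (6 : A)) :
    (B.xMat A i t).map φ = B.xMat A' i (φ t) := by
  have hA : ((B.adE i).map (Int.cast : ℤ → A)).map φ = (B.adE i).map (Int.cast : ℤ → A') := by
    ext d a; simp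
  have hA2 : ((B.adE i).map (Int.cast : ℤ → A) ^ 2).map φ =
      (B.adE i).map (Int.cast : ℤ → A') ^ 2 := by
    rw [← hA]
    exact map_pow (RingHom.mapMatrix φ) _ 2
  have hA3 : ((B.adE i).map (Int.cast : ℤ → A) ^ 3).map φ =
      (B.adE i).map (Int.cast : ℤ → A') ^ 3 := by
    rw [← hA]
    exact map_pow (RingHom.mapMatrix φ) _ 3
  unfold ChevalleyBasis.xMat
  have e1 : Ring.inverse (2 : A') = φ (Ring.inverse (2 : A)) := by
    rw [map_inverse φ h2, map_ofNat]
  have e2 : Ring.inverse (6 : A') = φ (Ring.inverse (6 : A)) := by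
    rw [map_inverse φ h6, map_ofNat]
  rw [e1, e2, ← hA2, ← hA3]
  ext d a
  simp only [Matrix.map_apply, Matrix.add_apply, Matrix.smul_apply, smul_eq_mul, map_add, map_mul,
    map_pow, map_intCast]
  congr 3
  rw [Matrix.one_apply, Matrix.one_apply]
  split_ifs <;> simp

end xMat

/-! ### cyclic groups -/

section cyclic

variable {K G M : Type} [Field K] [Group G] [AddCommGroup M] [Module K M] {ρ : G →* (M →ₗ[K] M)}
  {f : G → G → M} (hf : IsCocycle ρ f)

include hf

lemma coc_one_left (g : G) : f 1 g = f 1 1 := by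
  have := hf 1 1 g
  rw [rho_one, one_mul, one_mul] at this
  have h2 : f 1 g + f 1 g = f 1 1 + f 1 g := by rw [this]; abel
  exact add_right_cancel h2

lemma coc_one_right (g : G) : f g 1 = ρ g (f 1 1) := by
  have := hf g 1 1
  rw [one_mul, mul_one] at this
  have h2 : ρ g (f 1 1) + f g 1 = f g 1 + f g 1 := this
  exact (add_right_cancel h2).symm

/-- explicit primitive on a cyclic subgroup -/
lemma cyclic_primitive (x : G) (s t : ℕ) :
    f (x ^ s) (x ^ t) = ρ (x ^ s) (f 1 1 - ∑ i ∈ Finset.range t, f (x ^ i) x) -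
      (f 1 1 - ∑ i ∈ Finset.range (s + t), f (x ^ i) x) +
      (f 1 1 - ∑ i ∈ Finset.range s, f (x ^ i) x) := by
  induction t with
  | zero =>
    rw [pow_zero, coc_one_right hf, Finset.range_zero, Finset.sum_empty, sub_zero, add_zero]
    abel
  | succ t ih =>
    have h1 := hf (x ^ s) (x ^ t) x
    rw [← pow_succ, ← pow_add] at h1
    have h2 : f (x ^ s) (x ^ (t + 1)) = f (x ^ (s + t)) x + f (x ^ s) (x ^ t) -
        ρ (x ^ s) (f (x ^ t) x) := by
      rw [← h1]; abel
    rw [h2, ih, Finset.sum_range_succ, ← add_assoc s t 1, Finset.sum_range_succ, map_sub, map_sub,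
      map_add]
    abel

end cyclic

lemma sum_period {M : Type} [AddCommGroup M] (F : ℕ → M) (q : ℕ) (hq : ∀ i, F (i + q) = F i)
    (m : ℕ) : ∑ i ∈ Finset.range (m * q), F i = m • ∑ i ∈ Finset.range q, F i := by
  induction m with
  | zero => simp
  | succ m ih =>
    rw [Nat.succ_mul, Finset.sum_range_add, ih, succ_nsmul]
    congr 1
    refine Finset.sum_congr rfl (fun i _ => ?_)
    have : ∀ m, F (m * q + i) = F i := by
      intro m
      induction m with
      | zero => simp
      | succ m ih => rw [Nat.succ_mul, add_right_comm, hq, ih]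
    exact this m

/-- **Finite level**. -/
theorem hroot_of_inflated (P : RootPairing ι ℚ V W) [P.IsCrystallographic] (b : P.Base)
    {L : Type} [LieRing L] (B : ChevalleyBasis P b L) (p k : ℕ) [Fact p.Prime]
    (C : CG P b (ZMod (p ^ (k + 1))) (ZMod p) (redP p (k + 1) (by omega))
      (B.Gad (ZMod (p ^ (k + 1)))) (rhoSub p (k + 1) (by omega) (B.Gad (ZMod (p ^ (k + 1))))))
    (hC : ∀ i s, (C.x i s).1.1 = B.xMat (ZMod (p ^ (k + 1))) i s)
    (f : B.Gad (ZMod (p ^ (k + 1))) → B.Gad (ZMod (p ^ (k + 1))) → ((b.support ⊕ ι) → ZMod p))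
    (hf : IsCocycle (rhoSub p (k + 1) (by omega) (B.Gad (ZMod (p ^ (k + 1))))) f)
    (hinf : ∀ g h g' h' : B.Gad (ZMod (p ^ (k + 1))),
        SameMod p k g.1 g'.1 → SameMod p k h.1 h'.1 → f g h = f g' h') :
    ∀ i, ∃ c : ZMod (p ^ (k + 1)) → ((b.support ⊕ ι) → ZMod p), ∀ s t,
      f (C.x i s) (C.x i t) =
        rhoSub p (k + 1) (by omega) (B.Gad (ZMod (p ^ (k + 1)))) (C.x i s)
          (c t) - c (s + t) + c s := by
  intro i
  have hp : p.Prime := Fact.out
  have : NeZero (p ^ (k + 1)) := ⟨pow_ne_zero _ hp.ne_zero⟩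
  have hx0 : C.x i 0 = 1 := by
    have := C.x_add i 0 0
    rw [add_zero] at this
    exact left_eq_mul.mp this
  have hpow : ∀ n : ℕ, C.x i (n : ZMod (p ^ (k + 1))) = C.x i 1 ^ n := by
    intro n
    induction n with
    | zero => rw [Nat.cast_zero, hx0, pow_zero]
    | succ n ih => rw [Nat.cast_succ, C.x_add, ih, pow_succ (C.x i 1) n]
  let F : ℕ → ((b.support ⊕ ι) → ZMod p) := fun n => f (C.x i 1 ^ n) (C.x i 1)
  have hF : ∀ n, F (n + p ^ k) = F n := by
    intro n
    apply hinf
    · unfold SameMod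
      rw [← hpow, ← hpow]
      apply Units.ext
      show ((C.x i _).1.1).map _ = ((C.x i _).1.1).map _
      rw [hC, hC]
      apply xMat_map_congr
      rw [map_natCast, map_natCast, Nat.cast_add, ZMod.natCast_self, add_zero]
    · rfl
  have hsum : ∀ n, ∑ j ∈ Finset.range (n + p ^ (k + 1)), F j = ∑ j ∈ Finset.range n, F j := by
    intro n
    have h0 : ∑ j ∈ Finset.range (p ^ (k + 1)), F j = 0 := by
      rw [pow_succ, mul_comm, sum_period F (p ^ k) hF p]
      have : ∀ v : (b.support ⊕ ι) → ZMod p, p • v = 0 := by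
        intro v
        funext j
        simp
      exact this _
    rw [add_comm, Finset.sum_range_add, h0, zero_add]
    refine Finset.sum_congr rfl (fun j _ => ?_)
    show f (C.x i 1 ^ (p ^ (k + 1) + j)) (C.x i 1) = f (C.x i 1 ^ j) (C.x i 1)
    rw [pow_add, ← hpow (p ^ (k + 1)), ZMod.natCast_self, hx0, one_mul]
  have hsum' : ∀ m n, ∑ j ∈ Finset.range (n + m * p ^ (k + 1)), F j =
      ∑ j ∈ Finset.range n, F j := by
    intro m
    induction m with
    | zero => intro n; simp
    | succ m ih => intro n; rw [Nat.succ_mul, ← add_assoc, hsum, ih]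
  refine ⟨fun s => f 1 1 - ∑ j ∈ Finset.range s.val, F j, ?_⟩
  intro s t
  have hs : C.x i s = C.x i 1 ^ s.val := by rw [← hpow, ZMod.natCast_zmod_val]
  have ht : C.x i t = C.x i 1 ^ t.val := by rw [← hpow, ZMod.natCast_zmod_val]
  have hst : ∑ j ∈ Finset.range (s + t).val, F j = ∑ j ∈ Finset.range (s.val + t.val), F j := by
    rw [ZMod.val_add]
    conv_rhs => rw [← Nat.mod_add_div (s.val + t.val) (p ^ (k + 1)), mul_comm (p ^ (k + 1))]
    rw [hsum']
  have key := cyclic_primitive hf (C.x i 1) s.val t.val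
  rw [← hs, ← ht] at key
  rw [key]
  simp only [hst]
  rfl

/-! ### base change of `Gad` -/

lemma isUnit_of_toZModPow {p n : ℕ} [Fact p.Prime] (hn : 1 ≤ n) {x : ℤ_[p]}
    (h : IsUnit (PadicInt.toZModPow n x)) : IsUnit x := by
  by_contra hx
  rw [PadicInt.not_isUnit_iff, PadicInt.norm_lt_one_iff_dvd] at hx
  obtain ⟨y, rfl⟩ := hx
  rw [map_mul, map_natCast] at h
  have h1 := isUnit_of_mul_isUnit_left h
  have h2 := h1.pow n
  rw [← Nat.cast_pow, ZMod.natCast_self] at h2
  have hp : p.Prime := Fact.out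
  have : Fact (1 < p ^ n) := ⟨Nat.one_lt_pow (by omega) hp.one_lt⟩
  exact not_isUnit_zero h2

lemma isUnit_padic_natCast {p : ℕ} [hp : Fact p.Prime] {m : ℕ} (h : ¬ p ∣ m) :
    IsUnit ((m : ℕ) : ℤ_[p]) := by
  rw [PadicInt.isUnit_iff]
  by_contra hne
  apply h
  have h1 : ‖((m : ℤ) : ℤ_[p])‖ < 1 :=
    lt_of_le_of_ne (PadicInt.norm_le_one _) (by exact_mod_cast hne)
  rw [PadicInt.norm_int_lt_one_iff_dvd] at h1
  exact_mod_cast h1

/-- **Base change of Gad** -/
theorem map_Gad (P : RootPairing ι ℚ V W) [P.IsCrystallographic] (b : P.Base)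
    {L : Type} [LieRing L] (B : ChevalleyBasis P b L) (p n : ℕ) [Fact p.Prime] (hn : 1 ≤ n)
    (hp : 60 < p) :
    (B.Gad ℤ_[p]).map (Matrix.GeneralLinearGroup.map (PadicInt.toZModPow n)) =
      B.Gad (ZMod (p ^ n)) := by
  have h2 : IsUnit (2 : ℤ_[p]) := by
    have := isUnit_padic_natCast (p := p) (m := 2) (fun h => by
      have := Nat.le_of_dvd (by norm_num) h; omega)
    simpa using this
  have h6 : IsUnit (6 : ℤ_[p]) := by
    have := isUnit_padic_natCast (p := p) (m := 6) (fun h => by
      have := Nat.le_of_dvd (by norm_num) h; omega)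
    simpa using this
  unfold ChevalleyBasis.Gad
  rw [MonoidHom.map_closure]
  congr 1
  ext g
  constructor
  · rintro ⟨g', ⟨i, t, hg'⟩, rfl⟩
    refine ⟨i, PadicInt.toZModPow n t, ?_⟩
    rw [← xMat_map B (PadicInt.toZModPow n) i t h2 h6, ← hg']
    rfl
  · rintro ⟨i, t, hg⟩
    obtain ⟨t', rfl⟩ := ZMod.ringHom_surjective (PadicInt.toZModPow (p := p) n) t
    rw [← xMat_map B (PadicInt.toZModPow n) i t' h2 h6] at hg
    have hdet : IsUnit (B.xMat ℤ_[p] i t').det := by
      apply isUnit_of_toZModPow hn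
      rw [RingHom.map_det]
      have : (PadicInt.toZModPow n).mapMatrix (B.xMat ℤ_[p] i t') =
          (g : Matrix (b.support ⊕ ι) (b.support ⊕ ι) (ZMod (p ^ n))) := hg.symm
      rw [this]
      exact (Matrix.isUnit_iff_isUnit_det _).mp g.isUnit
    refine ⟨Matrix.GeneralLinearGroup.mk'' (B.xMat ℤ_[p] i t') hdet, ⟨i, t', rfl⟩, ?_⟩
    apply Units.ext
    rw [hg]
    rfl

/-! ### decomposition of roots -/

theorem exists_decomp (P : RootPairing ι ℚ V W) [P.IsCrystallographic] [P.IsReduced]
    [P.IsIrreducible] (hrank : 2 ≤ Module.finrank ℚ V) (c : ι) :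
    ∃ i j, P.root c = P.root i + P.root j := by
  -- a root which is not proportional and not orthogonal to `c`
  have key : ∃ d, d ≠ c ∧ d ≠ neg P c ∧ P.pairingIn ℤ c d ≠ 0 := by
    by_contra hcon
    push Not at hcon
    have h1 : Submodule.span ℚ {P.root c} = ⊤ := by
      apply RootPairing.IsIrreducible.eq_top_of_invtSubmodule_reflection (P := P)
      · intro d
        rw [Module.End.mem_invtSubmodule, Submodule.span_singleton_le_iff_mem,
          Submodule.mem_comap, Submodule.mem_span_singleton]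
        by_cases hd : d = c
        · subst hd
          refine ⟨-1, ?_⟩
          simp
        · by_cases hd' : d = neg P c
          · subst hd'
            refine ⟨-1, ?_⟩
            show (-1 : ℚ) • P.root c = P.reflection (neg P c) (P.root c)
            rw [P.reflection_apply_root, root_neg, P.pairing_reflectionPerm_self_right,
              P.pairing_same]
            module
          · refine ⟨1, ?_⟩
            show (1 : ℚ) • P.root c = P.reflection d (P.root c)
            rw [P.reflection_apply_root, pairing_eq_cast, hcon d hd hd']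
            simp
      · rw [ne_eq, Submodule.span_singleton_eq_bot]
        exact P.ne_zero c
    have h2 : Module.finrank ℚ V ≤ 1 := by
      have h3 := finrank_span_singleton (K := ℚ) (P.ne_zero c)
      rw [h1, finrank_top] at h3
      omega
    omega
  obtain ⟨d, hd, hd', hp⟩ := key
  have hpos : ∃ e, e ≠ c ∧ 0 < P.pairingIn ℤ c e := by
    rcases lt_or_gt_of_ne hp with h | h
    · refine ⟨neg P d, ?_, ?_⟩
      · intro h0
        apply hd'
        rw [← h0, neg_neg']
      · show 0 < P.pairingIn ℤ c (P.reflectionPerm d d)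
        rw [P.pairingIn_reflectionPerm_self_right]
        omega
    · exact ⟨d, hd, h⟩
  obtain ⟨e, he, hpe⟩ := hpos
  obtain ⟨l, hl⟩ := P.root_sub_root_mem_of_pairingIn_pos hpe (Ne.symm he)
  exact ⟨l, e, by rw [hl]; abel⟩

end Pool.Agent.T2H35.Chev
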