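import Pool.Agent.T2H35.Chev.Rank1

/-! Gauss decomposition of the group generated by the lifts; the splitting -/

namespace Pool.Agent.T2H35.Chev

open Module

set_option linter.unusedSectionVars false
set_option linter.unusedVariables false

variable {ι V W : Type} [Fintype ι] [DecidableEq ι] [AddCommGroup V] [Module ℚ V]
  [AddCommGroup W] [Module ℚ W] {P : RootPairing ι ℚ V W} [P.IsCrystallographic] {b : P.Base}
  {R K : Type} [CommRing R] [Field K] {red : R →+* K} {G : Type} [Group G]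
  {ρ : G →* (((b.support ⊕ ι) → K) →ₗ[K] ((b.support ⊕ ι) → K))}

variable {C : CG P b R K red G ρ} {E : Type} [Group E]

section functionals

variable [P.IsReduced] [P.IsRootSystem]

lemma isPos_neg (b : P.Base) (i : ι) : b.IsPos (neg P i) ↔ ¬ b.IsPos i :=
  RootPairing.Base.IsPos.neg_iff_not b i

/-- the functional with given values on the simple roots -/
noncomputable def htf (b : P.Base) (S : b.support → ℚ) : V →ₗ[ℚ] ℚ :=
  b.toWeightBasis.constr ℚ S

lemma htf_simple (b : P.Base) (S : b.support → ℚ) (j : b.support) :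
    htf b S (P.root j) = S j := by
  have := b.toWeightBasis.constr_basis ℚ S j
  rwa [RootPairing.Base.toWeightBasis_apply] at this

/-- height as a linear functional -/
noncomputable def htL (b : P.Base) : V →ₗ[ℚ] ℚ := htf b (fun _ => 1)

/-- height without the `i`-th coordinate -/
noncomputable def htI (b : P.Base) (i : ι) : V →ₗ[ℚ] ℚ := htf b (fun j => if j.1 = i then 0 else 1)

lemma htL_simple (b : P.Base) {j : ι} (hj : j ∈ b.support) : htL b (P.root j) = 1 :=
  htf_simple b _ ⟨j, hj⟩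

lemma htI_simple (b : P.Base) {i j : ι} (hj : j ∈ b.support) :
    htI b i (P.root j) = if j = i then 0 else 1 :=
  htf_simple b _ ⟨j, hj⟩

lemma htL_pos {b : P.Base} {k : ι} (hk : b.IsPos k) : 0 < htL b (P.root k) := by
  refine hk.induction_on_add (p := fun k => 0 < htL b (P.root k)) ?_ ?_
  · intro i hi; rw [htL_simple b hi]; exact one_pos
  · intro i j k hk hi hj
    rw [hk, map_add, htL_simple b hj]; linarith

lemma htL_neg {b : P.Base} {k : ι} (hk : ¬ b.IsPos k) : htL b (P.root k) < 0 := by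
  have := htL_pos ((isPos_neg b k).mpr hk)
  rw [root_neg, map_neg] at this
  linarith

lemma htI_pos {b : P.Base} {i k : ι} (hi : i ∈ b.support) (hk : b.IsPos k) :
    k = i ∨ 0 < htI b i (P.root k) := by
  refine hk.induction_on_add (p := fun k => k = i ∨ 0 < htI b i (P.root k)) ?_ ?_
  · intro j hj
    rw [htI_simple b hj]
    by_cases h : j = i
    · exact Or.inl h
    · right; rw [if_neg h]; exact one_pos
  · intro l j k hk hl hj
    right
    rw [hk, map_add, htI_simple b hj]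
    by_cases hji : j = i
    · rw [if_pos hji, add_zero]
      rcases hl with rfl | hl
      · exfalso
        rw [hji] at hk
        have h1 := P.linearIndependent_of_add_mem_range_root' (i := l) (j := l) ⟨k, hk⟩
        rw [LinearIndependent.pair_iff] at h1
        have := h1 1 (-1) (by module)
        exact absurd this.1 one_ne_zero
      · exact hl
    · rw [if_neg hji]
      rcases hl with rfl | hl
      · rw [htI_simple b hi, if_pos rfl]; norm_num
      · linarith

lemma htI_self {b : P.Base} {i : ι} (hi : i ∈ b.support) : htI b i (P.root i) = 0 := by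
  rw [htI_simple b hi, if_pos rfl]

lemma htI_neg {b : P.Base} {i k : ι} (hi : i ∈ b.support) (hk : ¬ b.IsPos k) :
    k = neg P i ∨ htI b i (P.root k) < 0 := by
  rcases htI_pos hi ((isPos_neg b k).mpr hk) with h | h
  · left; rw [← h, neg_neg']
  · right
    rw [root_neg, map_neg] at h
    linarith

lemma isPos_of_htI {b : P.Base} {i k : ι} (hi : i ∈ b.support) (hk : 0 < htI b i (P.root k)) :
    b.IsPos k := by
  by_contra h
  rcases htI_neg hi h with rfl | h
  · rw [root_neg, map_neg, htI_self hi] at hk; norm_num at hk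
  · linarith

lemma not_isPos_of_htI {b : P.Base} {i k : ι} (hi : i ∈ b.support)
    (hk : htI b i (P.root k) < 0) : ¬ b.IsPos k := by
  intro h
  rcases htI_pos hi h with rfl | h
  · rw [htI_self hi] at hk; norm_num at hk
  · linarith

lemma closed_lin (l : V →ₗ[ℚ] ℚ) : Closed P {k | 0 < l (P.root k)} := by
  intro i hi j hj k hk
  have := linfun_Psi P hi hj hk
  rw [Set.mem_ofPred_eq] at *
  linarith

lemma pos_set_eq (b : P.Base) : {k | b.IsPos k} = {k | 0 < htL b (P.root k)} := by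
  ext k
  constructor
  · intro hk; exact htL_pos hk
  · intro hk
    by_contra h
    have := htL_neg h
    rw [Set.mem_ofPred_eq] at hk
    linarith

lemma neg_set_eq (b : P.Base) : {k | ¬ b.IsPos k} = {k | 0 < (-htL b) (P.root k)} := by
  ext k
  constructor
  · intro hk
    have := htL_neg hk
    rw [Set.mem_ofPred_eq, LinearMap.neg_apply]
    linarith
  · intro hk h
    have := htL_pos h
    rw [Set.mem_ofPred_eq, LinearMap.neg_apply] at hk
    linarith

lemma closed_pos (b : P.Base) : Closed P {k | b.IsPos k} := by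
  rw [pos_set_eq]; exact closed_lin _

lemma pos_pos (b : P.Base) : Pos P {k | b.IsPos k} := by
  rw [pos_set_eq]; exact ⟨htL b, fun k hk => hk⟩

lemma closed_negs (b : P.Base) : Closed P {k | ¬ b.IsPos k} := by
  rw [neg_set_eq]; exact closed_lin _

lemma pos_negs (b : P.Base) : Pos P {k | ¬ b.IsPos k} := by
  rw [neg_set_eq]; exact ⟨-htL b, fun k hk => hk⟩

/-- `Ψ_{i,k}` for a root `i` on which the functional vanishes -/
lemma Psi_lin {l : V →ₗ[ℚ] ℚ} {i k : ι} (hi : l (P.root i) = 0) (hk : 0 < l (P.root k)) :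
    P.root i + P.root k ≠ 0 ∧ Psi P i k ⊆ {k | 0 < l (P.root k)} := by
  constructor
  · intro h0
    have := congrArg l h0
    rw [map_add, hi, map_zero] at this
    linarith
  · rintro m ⟨x, y, hx, hy, hm⟩
    rw [Set.mem_ofPred_eq, hm, map_add, map_nsmul, map_nsmul, hi, smul_zero, zero_add,
      nsmul_eq_mul]
    have : (0 : ℚ) < y := by exact_mod_cast hy
    positivity

end functionals

namespace Lifts

variable {X : ExtData C E} {L : Lifts C X}

variable [P.IsReduced] [P.IsRootSystem] (hR : ∀ s : R, ∃ z : ℤ, (z : R) = s)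
  (hloc : ∀ r : R, red r ≠ 0 → IsUnit r)
  (hC : L.Comm) (hdec : ∀ i, ∃ α β, P.root i = P.root α + P.root β)

lemma decomp {Ψ Ψ' : Set ι} {i : ι} (hΨ : ∀ k ∈ Ψ, k = i ∨ k ∈ Ψ')
    (hn : ∀ s, ∀ u ∈ L.D false Ψ', L.y i s * u * (L.y i s)⁻¹ ∈ L.D false Ψ') :
    ∀ g ∈ L.D false Ψ, ∃ a, ∃ u ∈ L.D false Ψ', g = L.y i a * u := by
  have key : ∀ k ∈ Ψ, ∀ a', Al false a' → ∀ g, (∃ a, ∃ u ∈ L.D false Ψ', g = L.y i a * u) →
      ∃ a, ∃ u ∈ L.D false Ψ', L.Y k a' * g = L.y i a * u := by
    rintro k hk a' ha' g ⟨a, u, hu, rfl⟩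
    have ha2 : a'.2 = 0 := ha'.resolve_left (by simp)
    have e1 : a' = (a'.1, 0) := by rw [← ha2]
    rw [e1, L.Y_inl]
    rcases hΨ k hk with rfl | hk'
    · exact ⟨a'.1 + a, u, hu, by rw [L.y_add]; group⟩
    · refine ⟨a, L.y i (-a) * L.y k a'.1 * (L.y i (-a))⁻¹ * u,
        mul_mem (hn _ _ (L.y_mem hk' _)) hu, ?_⟩
      rw [← L.y_neg]; group
  intro g hg
  refine Subgroup.closure_induction_left (p := fun g _ =>
    ∃ a, ∃ u ∈ L.D false Ψ', g = L.y i a * u) ?_ ?_ ?_ hg
  · exact ⟨0, 1, one_mem _, by rw [L.y_zero, one_mul]⟩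
  · rintro _ ⟨k, hk, a, ha, rfl⟩ g _ hg
    exact key k hk a ha g hg
  · rintro _ ⟨k, hk, a, ha, rfl⟩ g _ hg
    rw [L.Y_neg]
    exact key k hk (-a) ha.neg g hg

/-- `g = u t v u'` -/
def Big (L : Lifts C X) (g : E) : Prop :=
  ∃ u ∈ L.D false {k | b.IsPos k}, ∃ t ∈ L.Tor, ∃ v ∈ L.D false {k | ¬ b.IsPos k},
    ∃ u' ∈ L.D false {k | b.IsPos k}, g = u * t * v * u'

include hC hdec hloc

lemma Big_left {i : ι} (hi : i ∈ b.support) (s : R) {g : E} (hg : L.Big g) :
    L.Big (L.y (neg P i) s * g) := by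
  obtain ⟨u, hu, t, ht, v, hv, u', hu', rfl⟩ := hg
  have hnegi : htI b i (P.root (neg P i)) = 0 := by
    rw [root_neg, map_neg, htI_self hi, neg_zero]
  set Ψ1 : Set ι := {k | 0 < htI b i (P.root k)}
  set Ψ2 : Set ι := {k | 0 < (-htI b i) (P.root k)}
  have n1 : ∀ j, htI b i (P.root j) = 0 → ∀ s, ∀ u ∈ L.D false Ψ1,
      L.y j s * u * (L.y j s)⁻¹ ∈ L.D false Ψ1 := by
    intro j hj s
    apply normF hC
    intro k hk
    exact Psi_lin hj hk
  have n2 : ∀ j, htI b i (P.root j) = 0 → ∀ s, ∀ u ∈ L.D false Ψ2,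
      L.y j s * u * (L.y j s)⁻¹ ∈ L.D false Ψ2 := by
    intro j hj s
    apply normF hC
    intro k hk
    exact Psi_lin (by rw [LinearMap.neg_apply, hj, neg_zero]) hk
  obtain ⟨a, u1, hu1, rfl⟩ := decomp (i := i) (Ψ' := Ψ1) (fun k hk => htI_pos hi hk)
    (n1 i (htI_self hi)) u hu
  obtain ⟨c, v1, hv1, rfl⟩ := decomp (i := neg P i) (Ψ' := Ψ2) (fun k hk => by
      rcases htI_neg hi hk with h | h
      · exact Or.inl h
      · right
        show 0 < (-htI b i) (P.root k)
        rw [LinearMap.neg_apply]; linarith)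
    (n2 _ hnegi) v hv
  obtain ⟨c', e1⟩ := L.Tor_left ht (neg P i) c
  obtain ⟨a', h, c'', d', hh, e2⟩ := yxy hloc hC hdec i s a c'
  obtain ⟨d'', e3⟩ := L.Tor_right ht i d'
  obtain ⟨c3, e4⟩ := L.Tor_right ht (neg P i) c''
  have m1 : L.y (neg P i) s * (L.y i a * u1 * (L.y i a)⁻¹) * (L.y (neg P i) s)⁻¹ ∈
      L.D false Ψ1 := n1 _ hnegi _ _ (n1 _ (htI_self hi) _ _ hu1)
  have m2 : L.y i d'' * v1 * (L.y i d'')⁻¹ ∈ L.D false Ψ2 := n2 _ (htI_self hi) _ _ hv1
  have sub1 : L.D false Ψ1 ≤ L.D false {k | b.IsPos k} :=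
    L.D_mono (fun k hk => isPos_of_htI hi hk)
  have sub2 : L.D false Ψ2 ≤ L.D false {k | ¬ b.IsPos k} :=
    L.D_mono (fun k hk => by
      apply not_isPos_of_htI hi
      have hk' : 0 < (-htI b i) (P.root k) := hk
      rw [LinearMap.neg_apply] at hk'
      linarith)
  have ipos : b.IsPos i := b.isPos_of_mem_support hi
  have ineg : ¬ b.IsPos (neg P i) := by
    rw [isPos_neg]; exact fun h => h ipos
  refine ⟨(L.y (neg P i) s * (L.y i a * u1 * (L.y i a)⁻¹) * (L.y (neg P i) s)⁻¹) * L.y i a',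
    mul_mem (sub1 m1) (L.y_mem ipos _), h * t, mul_mem hh ht,
    L.y (neg P i) c3 * (L.y i d'' * v1 * (L.y i d'')⁻¹),
    mul_mem (L.y_mem ineg _) (sub2 m2), L.y i d'' * u', mul_mem (L.y_mem ipos _) hu', ?_⟩
  calc L.y (neg P i) s * (L.y i a * u1 * t * (L.y (neg P i) c * v1) * u')
      = (L.y (neg P i) s * (L.y i a * u1 * (L.y i a)⁻¹) * (L.y (neg P i) s)⁻¹) *
          (L.y (neg P i) s * L.y i a) * (t * L.y (neg P i) c) * v1 * u' := by group
    _ = (L.y (neg P i) s * (L.y i a * u1 * (L.y i a)⁻¹) * (L.y (neg P i) s)⁻¹) *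
          (L.y (neg P i) s * L.y i a * L.y (neg P i) c') * t * v1 * u' := by rw [e1]; group
    _ = (L.y (neg P i) s * (L.y i a * u1 * (L.y i a)⁻¹) * (L.y (neg P i) s)⁻¹) *
          (L.y i a' * h * L.y (neg P i) c'') * (L.y i d' * t) * v1 * u' := by rw [e2]; group
    _ = (L.y (neg P i) s * (L.y i a * u1 * (L.y i a)⁻¹) * (L.y (neg P i) s)⁻¹) *
          L.y i a' * h * (L.y (neg P i) c'' * t) * L.y i d'' * v1 * u' := by rw [e3]; group
    _ = _ := by rw [e4]; group

lemma Big_left' {i : ι} (hi : i ∈ b.support) (s : R) {g : E} (hg : L.Big g) :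
    L.Big (L.y i s * g) := by
  obtain ⟨u, hu, t, ht, v, hv, u', hu', rfl⟩ := hg
  exact ⟨L.y i s * u, mul_mem (L.y_mem (Ψ := {k | b.IsPos k}) (b.isPos_of_mem_support hi) _) hu,
    t, ht, v, hv, u', hu', by group⟩

/-- the group generated by the simple root subgroups and their opposites -/
def H0 (L : Lifts C X) : Subgroup E :=
  Subgroup.closure {g | ∃ i ∈ b.support, ∃ s, g = L.y i s ∨ g = L.y (neg P i) s}

lemma Big_H0 {g : E} (hg : g ∈ L.H0) : L.Big g := by
  refine Subgroup.closure_induction_left (p := fun g _ => L.Big g) ?_ ?_ ?_ hg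
  · exact ⟨1, one_mem _, 1, one_mem _, 1, one_mem _, 1, one_mem _, by simp⟩
  · rintro _ ⟨i, hi, s, rfl | rfl⟩ g _ hg
    · exact Big_left' hloc hC hdec hi s hg
    · exact Big_left hloc hC hdec hi s hg
  · rintro _ ⟨i, hi, s, rfl | rfl⟩ g _ hg
    · rw [L.y_neg]; exact Big_left' hloc hC hdec hi _ hg
    · rw [L.y_neg]; exact Big_left hloc hC hdec hi _ hg

omit hloc in
lemma y_mem_H0 (i : ι) : ∀ s, L.y i s ∈ L.H0 ∧ L.y (neg P i) s ∈ L.H0 := by
  refine b.induction_reflect i (p := fun i => ∀ s, L.y i s ∈ L.H0 ∧ L.y (neg P i) s ∈ L.H0)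
    ?_ ?_ ?_
  · intro i hi s
    exact ⟨(hi s).2, by
      have := (hi s).1
      rwa [← neg_neg' P i] at this⟩
  · intro i hi s
    exact ⟨Subgroup.subset_closure ⟨i, hi, s, Or.inl rfl⟩,
      Subgroup.subset_closure ⟨i, hi, s, Or.inr rfl⟩⟩
  · intro i j hi hj s
    have hw : L.ww j 1 ∈ L.H0 := by
      unfold ww
      refine mul_mem (mul_mem ?_ ?_) ?_
      · exact Subgroup.subset_closure ⟨j, hj, _, Or.inl rfl⟩
      · exact Subgroup.subset_closure ⟨j, hj, _, Or.inr rfl⟩
      · exact Subgroup.subset_closure ⟨j, hj, _, Or.inl rfl⟩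
    have key : ∀ k, (∀ s, L.y k s ∈ L.H0) → ∀ s, L.y (P.reflectionPerm j k) s ∈ L.H0 := by
      intro k hk s
      obtain ⟨s', e1⟩ := Mono_ww_inv hC hdec j 1 (P.reflectionPerm j k) s
      have e3 : P.reflectionPerm j (P.reflectionPerm j k) = k := by simp
      rw [e3, inv_inv] at e1
      have e2 : L.y (P.reflectionPerm j k) s = L.ww j 1 * L.y k s' * (L.ww j 1)⁻¹ := by
        rw [← e1]; group
      rw [e2]
      exact mul_mem (mul_mem hw (hk s')) (inv_mem hw)
    refine ⟨key i (fun s => (hi s).1) s, ?_⟩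
    rw [← refl_neg]
    exact key _ (fun s => (hi s).2) s

lemma Big_of_mem {g : E} (hg : g ∈ L.D false Set.univ) : L.Big g := by
  apply Big_H0 hloc hC hdec
  have : L.D false Set.univ ≤ L.H0 := by
    intro g hg
    exact L.D_false_gen (p := fun g => g ∈ L.H0) hg (fun k _ s => (y_mem_H0 hC hdec k s).1)
      (one_mem _) (fun g _ g' _ h h' => mul_mem h h')
  exact this hg

/-- elements of `H ∩ M` are fixed by the positive root subgroups -/
lemma fixed_pos {m : (b.support ⊕ ι) → K} (hm : X.j m ∈ L.D false Set.univ) {i : ι}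
    (hi : b.IsPos i) (s : R) : ρ (C.x i s) m = m := by
  obtain ⟨u, hu, t, ht, v, hv, u', hu', e⟩ := Big_of_mem hloc hC hdec hm
  have hv1 : v = 1 := by
    have h1 : X.π v = 1 := by
      refine C.gauss (X.π (u⁻¹ * u'⁻¹)) (L.π_D (mul_mem (inv_mem hu) (inv_mem hu'))) (X.π v)
        (L.π_D hv) (X.π t⁻¹) ?_ ?_
      · intro i s
        obtain ⟨s', hs⟩ := (ht i s).2
        refine ⟨s', ?_⟩
        rw [← L.π_y, ← L.π_y, ← hs]
        simp only [map_mul, map_inv, inv_inv]
      · have e1 := congrArg X.π e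
        rw [X.π_j] at e1
        simp only [map_mul, map_inv] at e1 ⊢
        have e2 : X.π v = (X.π t)⁻¹ * (X.π u)⁻¹ * 1 * (X.π u')⁻¹ := by
          rw [e1]; group
        rw [e2]; group
    exact inj_F hC (closed_negs b) (pos_negs b) hv (one_mem _) (by rw [h1, map_one])
  rw [hv1, mul_one] at e
  have h1 : X.j m * L.y i s * (X.j m)⁻¹ ∈ L.D false {k | b.IsPos k} := by
    rw [e]
    have h2 : t * (u' * L.y i s * u'⁻¹) * t⁻¹ ∈ L.D false {k | b.IsPos k} :=
      L.Tor_D ht (mul_mem (mul_mem hu' (L.y_mem hi s)) (inv_mem hu'))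
    have h3 : u * t * u' * L.y i s * (u * t * u')⁻¹ =
        u * (t * (u' * L.y i s * u'⁻¹) * t⁻¹) * u⁻¹ := by group
    rw [h3]
    exact mul_mem (mul_mem hu h2) (inv_mem hu)
  have h2 : X.j (m - ρ (C.x i s) m) ∈ L.D false {k | b.IsPos k} := by
    have e1 : X.j (m - ρ (C.x i s) m) = X.j m * L.y i s * (X.j m)⁻¹ * (L.y i s)⁻¹ := by
      rw [sub_eq_add_neg, X.j_add, ← X.j_neg, ← L.π_y, ← X.conj]; group
    rw [e1]
    exact mul_mem h1 (inv_mem (L.y_mem (Ψ := {k | b.IsPos k}) hi s))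
  have h3 := exactF hC (closed_pos b) (pos_pos b) h2
  exact (sub_eq_zero.mp h3).symm

/-- `H ∩ M = 0` -/
theorem inter_zero {m : (b.support ⊕ ι) → K} (hm : X.j m ∈ L.D false Set.univ) : m = 0 := by
  have hw : ∀ i, L.ww i 1 ∈ L.D false Set.univ := by
    intro i
    unfold ww
    exact mul_mem (mul_mem (L.y_mem (Set.mem_univ _) _) (L.y_mem (Set.mem_univ _) _))
      (L.y_mem (Set.mem_univ _) _)
  have key : ∀ i s, ρ (C.x i s) m = m := by
    intro i s
    by_cases hi : b.IsPos i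
    · exact fixed_pos hloc hC hdec hm hi s
    · have hi' : b.IsPos (neg P i) := (isPos_neg b i).mpr hi
      set w := L.ww (neg P i) 1 with hwdef
      have h1 : X.j (ρ (X.π w⁻¹) m) ∈ L.D false Set.univ := by
        rw [← X.conj]
        exact mul_mem (mul_mem (inv_mem (hw _)) hm) (inv_mem (inv_mem (hw _)))
      obtain ⟨s', e1⟩ := Mono_ww_inv hC hdec (neg P i) 1 i s
      have e3 : P.reflectionPerm (neg P i) i = neg P i := by rw [refl_refl_neg]
      rw [e3, inv_inv] at e1
      have h2 := fixed_pos hloc hC hdec h1 hi' s'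
      have e4 : C.x (neg P i) s' = X.π w⁻¹ * C.x i s * X.π w := by
        rw [← L.π_y, ← L.π_y, ← e1, hwdef]; simp only [map_mul]
      have h3 : ρ (X.π w) (ρ (C.x (neg P i) s') (ρ (X.π w⁻¹) m)) =
          ρ (X.π w) (ρ (X.π w⁻¹) m) := by rw [h2]
      have e5 : ∀ g h : G, ∀ m, ρ g (ρ h m) = ρ (g * h) m := by
        intro g h m; rw [map_mul]; rfl
      rw [e5, e5, e5, e4, map_inv] at h3
      have e6 : X.π w * ((X.π w)⁻¹ * C.x i s * X.π w) * (X.π w)⁻¹ = C.x i s := by group
      rw [e6, mul_inv_cancel, map_one] at h3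
      exact h3
  apply C.inv0
  intro g
  have hg : g ∈ Subgroup.closure {g | ∃ i s, g = C.x i s} := by rw [C.gen]; trivial
  refine Subgroup.closure_induction'' (p := fun g _ => ρ g m = m) ?_ ?_ ?_ ?_ hg
  · rintro _ ⟨i, s, rfl⟩; exact key i s
  · rintro _ ⟨i, s, rfl⟩
    rw [C.x_neg]; exact key i _
  · rw [map_one]; rfl
  · intro g g' _ _ h h'
    rw [map_mul, Module.End.mul_apply, h', h]

/-- **the extension splits** -/
theorem splits : ∃ τ : G →* E, ∀ g, X.π (τ g) = g := by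
  let H := L.D false Set.univ
  let f : H →* G := X.π.comp H.subtype
  have hinj : Function.Injective f := by
    rw [injective_iff_map_eq_one]
    intro g hg
    obtain ⟨m, hm⟩ := X.ker g.1 hg
    have : m = 0 := inter_zero hloc hC hdec (by rw [hm]; exact g.2)
    rw [this, X.j_zero] at hm
    exact Subtype.ext hm.symm
  have hsurj : Function.Surjective f := by
    rw [← MonoidHom.range_eq_top, eq_top_iff, ← C.gen, Subgroup.closure_le]
    rintro _ ⟨i, s, rfl⟩
    exact ⟨⟨L.y i s, L.y_mem (Set.mem_univ i) s⟩, L.π_y i s⟩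
  let e := MulEquiv.ofBijective f ⟨hinj, hsurj⟩
  refine ⟨H.subtype.comp e.symm.toMonoidHom, ?_⟩
  intro g
  exact e.apply_symm_apply g

end Lifts

end Pool.Agent.T2H35.Chev
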