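import Pool.Agent.T2H35.Chev.Defs

/-!
# The group-level facts about Chevalley groups used by the extension argument

`R` is a ring all of whose elements are integer multiples of `1` (`ℤ/pⁿ`), `K` its residue
field (`ℤ/p`), `G` the adjoint elementary Chevalley group over `R`, acting on the Chevalley
Lie algebra `K^(b.support ⊕ ι)` over `K` via `ρ`.
-/

namespace Pool.Agent.T2H35.Chev

open Module

variable {ι V W : Type} [Fintype ι] [DecidableEq ι] [AddCommGroup V] [Module ℚ V]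
  [AddCommGroup W] [Module ℚ W]

structure CG (P : RootPairing ι ℚ V W) [P.IsCrystallographic] (b : P.Base)
    (R K : Type) [CommRing R] [Field K] (red : R →+* K) (G : Type) [Group G]
    (ρ : G →* (((b.support ⊕ ι) → K) →ₗ[K] ((b.support ⊕ ι) → K))) where
  /-- root subgroups -/
  x : ι → R → G
  x_add : ∀ i s t, x i (s + t) = x i s * x i t
  gen : Subgroup.closure {g | ∃ i s, g = x i s} = ⊤
  /-- structure constants: `[e_i, e_j] = Nc i j e_{i+j}` -/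
  Nc : ι → ι → ℤ
  Nc_unit : ∀ i j k, P.root k = P.root i + P.root j → IsUnit (Nc i j : R)
  comm : ∀ i j s t, P.root i + P.root j ≠ 0 →
    (x i s * x j t * (x i s)⁻¹ * (x j t)⁻¹) ∈ Subgroup.closure {g | ∃ k ∈ Psi P i j, ∃ s, g = x k s}
  lead : ∀ i j k s t, P.root k = P.root i + P.root j →
    x k (-(Nc i j * s * t)) * (x i s * x j t * (x i s)⁻¹ * (x j t)⁻¹) ∈
      Subgroup.closure {g | ∃ l ∈ Psi P i j \ {k}, ∃ s, g = x l s}
  sep : ∀ (Ψ : Set ι) k s, Closed P Ψ → Pos P Ψ → k ∉ Ψ →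
    x k s ∈ Subgroup.closure {g | ∃ l ∈ Ψ, ∃ s, g = x l s} → s = 0
  /-- the torus elements `t e = h_e(τ²)`, `τ` a Teichmüller unit, and `q = τ²` -/
  q : Rˣ
  q_ne : ∀ c : ℤ, c ≠ 0 → |c| ≤ 24 → (red (q ^ c : Rˣ)) ≠ 1
  t : ι → G
  t_conj : ∀ e i s, t e * x i s * (t e)⁻¹ = x i (((q ^ (P.pairingIn ℤ i e) : Rˣ) : R) * s)
  /-- the finite `p'`-subgroup generated by the `t e` and the `n_c = x_c(1) x_{-c}(-1) x_c(1)` -/
  N : Subgroup G
  N_fin : Finite N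
  N_card : ((Nat.card N : ℕ) : K) ≠ 0
  t_mem : ∀ e, t e ∈ N
  n_mem : ∀ c, x c 1 * x (neg P c) (-1) * x c 1 ∈ N
  N_perm : ∀ g ∈ N, ∀ i, ∃ j u, ∀ s, g * x i s * g⁻¹ = x j (u * s)
  η : ι → ι → ℤ
  η_pm : ∀ c i, η c i = 1 ∨ η c i = -1
  η_self : ∀ c, η c c = -1
  η_neg : ∀ c i, η c (neg P i) = η c i
  n_conj : ∀ c i s, (x c 1 * x (neg P c) (-1) * x c 1) * x i s *
    (x c 1 * x (neg P c) (-1) * x c 1)⁻¹ = x (P.reflectionPerm c i) (η c i * s)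
  /-- the elements `w_c(u) = x_c(u) x_{-c}(-u⁻¹) x_c(u)` -/
  w_self : ∀ c (u : Rˣ) s,
    (x c u * x (neg P c) (-(u⁻¹ : Rˣ)) * x c u) * x c s *
      (x c u * x (neg P c) (-(u⁻¹ : Rˣ)) * x c u)⁻¹ =
        x (neg P c) (-(((u⁻¹ : Rˣ) : R) * ((u⁻¹ : Rˣ) : R) * s))
  w_conj : ∀ c (u : Rˣ) i, ∃ v : R, ∀ s,
    (x c u * x (neg P c) (-(u⁻¹ : Rˣ)) * x c u) * x i s *
      (x c u * x (neg P c) (-(u⁻¹ : Rˣ)) * x c u)⁻¹ = x (P.reflectionPerm c i) (v * s)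
  /-- action on the Lie algebra over `K` -/
  raise : ∀ c s (m : (b.support ⊕ ι) → K) k,
    (∀ k' (a : ℕ), 1 ≤ a → wt P b k = wt P b k' + a • P.root c → m k' = 0) →
      ρ (x c s) m k = m k
  act1 : ∀ c i k s, P.root k = P.root i + P.root c →
    ρ (x c s) (Pi.single (Sum.inr i) 1) (Sum.inr k) = red s * (Nc c i : K)
  act_cartan : ∀ c s (m : (b.support ⊕ ι) → K), (∀ i, m (Sum.inr i) = 0) →
    ρ (x c s) m = m - (red s * rootFun P b c m) • Pi.single (Sum.inr c) 1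
  hvec : ι → ((b.support ⊕ ι) → K)
  hvec_cartan : ∀ c i, hvec c (Sum.inr i) = 0
  hvec_self : ∀ c, rootFun P b c (hvec c) = 2
  act_opp : ∀ c s, ρ (x c s) (Pi.single (Sum.inr (neg P c)) 1) =
    Pi.single (Sum.inr (neg P c)) 1 + red s • hvec c - (red s ^ 2) • Pi.single (Sum.inr c) 1
  n_cartan : ∀ c (m : (b.support ⊕ ι) → K), (∀ i, m (Sum.inr i) = 0) →
    ρ (x c 1 * x (neg P c) (-1) * x c 1) m = m - rootFun P b c m • hvec c
  n_e : ∀ c i, ρ (x c 1 * x (neg P c) (-1) * x c 1) (Pi.single (Sum.inr i) 1) =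
    (η c i : K) • Pi.single (Sum.inr (P.reflectionPerm c i)) 1
  t_act : ∀ e (m : (b.support ⊕ ι) → K), ρ (t e) m =
    fun k => red ((q ^ (wtp P b k e) : Rˣ) : R) * m k
  inv0 : ∀ m : (b.support ⊕ ι) → K, (∀ g, ρ g m = m) → m = 0
  /-- `U⁻ ∩ T U⁺ = 1` -/
  gauss : ∀ u ∈ Subgroup.closure {g | ∃ l ∈ {i | b.IsPos i}, ∃ s, g = x l s},
    ∀ v ∈ Subgroup.closure {g | ∃ l ∈ {i | ¬ b.IsPos i}, ∃ s, g = x l s},
    ∀ g, (∀ i s, ∃ s', g * x i s * g⁻¹ = x i s') → g * u = v → v = 1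

end Pool.Agent.T2H35.Chev
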