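import Pool.Agent.T2H35.Chev.Norm

/-! Vanishing of the deformation of the structure constants -/

namespace Pool.Agent.T2H35.Chev

open Module

set_option linter.unusedSectionVars false
set_option linter.unusedVariables false

variable {ι V W : Type} [Fintype ι] [DecidableEq ι] [AddCommGroup V] [Module ℚ V]
  [AddCommGroup W] [Module ℚ W] {P : RootPairing ι ℚ V W} [P.IsCrystallographic] {b : P.Base}
  {R K : Type} [CommRing R] [Field K] {red : R →+* K} {G : Type} [Group G]
  {ρ : G →* (((b.support ⊕ ι) → K) →ₗ[K] ((b.support ⊕ ι) → K))}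

variable {C : CG P b R K red G ρ} {E : Type} [Group E]

variable [P.IsReduced]

lemma root_refl (c d : ι) : P.root (P.reflectionPerm c d) =
    P.root d - P.pairingIn ℤ d c • P.root c := by
  rw [P.root_reflectionPerm, P.reflection_apply_root, pairing_eq_cast, Int.cast_smul_eq_zsmul]

lemma refl_mem_Str {c β k : ι} (hk : k ∈ Str P c β 1) : P.reflectionPerm c k ∈ Str P c β 1 := by
  obtain ⟨a, z, ha, hk⟩ := hk
  refine ⟨a, z - P.pairingIn ℤ k c, ha, ?_⟩
  rw [root_refl, hk]
  module

namespace Lifts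

variable {X : ExtData C E} (L : Lifts C X)

/-- action of `w_c` for normalised lifts -/
lemma wl_conj (hn : ∀ c i, L.mv c (Sum.inr i) = 0) (c i : ι) (s : R) :
    ∃ a, L.wl c * L.y i s * (L.wl c)⁻¹ = L.Y (P.reflectionPerm c i) a := by
  refine ⟨(C.η c i * s, red (C.η c i * s) * rootFun P b (P.reflectionPerm c i) (L.mv c)), ?_⟩
  have h1 : L.wl c * L.y i s * (L.wl c)⁻¹ =
      X.j (L.mv c) * (X.nt c * L.y i s * (X.nt c)⁻¹) * (X.j (L.mv c))⁻¹ := by
    rw [L.wl_eq]; group
  rw [h1, L.y_n]
  set i' := P.reflectionPerm c i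
  set s' := (C.η c i : R) * s
  have h2 : L.y i' s' * (X.j (L.mv c))⁻¹ = X.j (-ρ (C.x i' s') (L.mv c)) * L.y i' s' := by
    rw [X.j_neg, X.mul_j, L.π_y, map_neg]
  rw [mul_assoc, h2, ← mul_assoc, ← X.j_add, C.act_cartan i' s' _ (hn c)]
  unfold Y
  congr 2
  abel

variable [P.IsRootSystem] (hR : ∀ s : R, ∃ z : ℤ, (z : R) = s)
  (hloc : ∀ r : R, red r ≠ 0 → IsUnit r)

include hR

/-- antisymmetry of `A` -/
lemma A_symm {c d k : ι} (h : c ≠ d) (h' : P.root c ≠ - P.root d)
    (hk : P.root k = P.root c + P.root d) : L.A d c k = - L.A c d k := by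
  have hg := good_Psi h h' hk
  have hne : P.root c + P.root d ≠ 0 := fun h0 => h' (eq_neg_of_add_eq_zero_left h0)
  have hm : cm (L.y c 1) (L.y d 1) ∈ L.D true (Psi P c d) := by
    rw [← L.Y_inl c, ← L.Y_inl d]; exact L.commT hR hne _ _
  unfold A
  rw [Psi_comm P d c, ← L.chi_inv hR hg hm]
  congr 1
  unfold cm; group

section

variable {c β : ι} (h : c ≠ β) (h' : P.root c ≠ - P.root β)

include h h'

lemma nt_D (k : ι) : ∀ g ∈ L.D true (Str P c β 1 \ {k}),
    X.nt c * g * (X.nt c)⁻¹ ∈ L.D true (Str P c β 1 \ {P.reflectionPerm c k}) := by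
  intro g hg
  have : L.D true (Str P c β 1 \ {k}) ≤
      (L.D true (Str P c β 1 \ {P.reflectionPerm c k})).comap
        (MulAut.conj (X.nt c)).toMonoidHom := by
    conv_lhs => rw [D]
    rw [Subgroup.closure_le]
    rintro _ ⟨i, hi, a, ha, rfl⟩
    rw [SetLike.mem_coe, Subgroup.mem_comap]
    have h1 := L.nt_Y c i a
    have h2 : X.nt c * L.Y i a * (X.nt c)⁻¹ ∈
        L.D true (Str P c β 1 \ {P.reflectionPerm c k}) := by
      rw [h1]
      refine L.Y_mem (Ψ := Str P c β 1 \ {P.reflectionPerm c k}) ⟨refl_mem_Str hi.1, ?_⟩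
        (Or.inl rfl)
      intro h0
      exact hi.2 ((P.reflectionPerm c).injective h0)
    exact h2
  exact this hg

lemma chi_nt {k : ι} (hk : Good P (Str P c β 1) k)
    (hk' : Good P (Str P c β 1) (P.reflectionPerm c k)) {g : E}
    (hg : g ∈ L.D true (Str P c β 1)) :
    L.chi (Str P c β 1) (P.reflectionPerm c k) (X.nt c * g * (X.nt c)⁻¹) =
      (C.η c k * (L.chi (Str P c β 1) k g).1, C.η c k * (L.chi (Str P c β 1) k g).2) := by
  apply L.chi_unique hR hk'
  rw [← L.nt_Y]
  have h1 := L.nt_D hR h h' k _ (L.chi_spec hR hk hg)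
  have h2 : X.nt c * ((L.Y k (L.chi (Str P c β 1) k g))⁻¹ * g) * (X.nt c)⁻¹ =
    (X.nt c * L.Y k (L.chi (Str P c β 1) k g) * (X.nt c)⁻¹)⁻¹ *
      (X.nt c * g * (X.nt c)⁻¹) := by group
  rw [← h2]; exact h1

/-- `W`-invariance of the structure constants -/
lemma Wrel {k d : ι} {z : ℤ} (hkz : P.root k = P.root β + z • P.root c)
    (hkd : P.root k = P.root c + P.root d) :
    emb red (L.A (neg P c) (P.reflectionPerm c d) (P.reflectionPerm c k)) =
      -((C.η c k * C.η c d : ℤ) : R × DualNumber K) * emb red (L.A c d k) := by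
  have hk := good_Str h h' hkz
  have hdz : P.root d = P.root β + (z - 1) • P.root c := by
    rw [sub_smul, one_smul, ← add_sub_assoc, ← hkz, hkd]; abel
  have hd : d ∈ Str P c β 1 := (good_Str h h' hdz).mem
  have hk'z : P.root (P.reflectionPerm c k) =
      P.root β + (z - P.pairingIn ℤ k c) • P.root c := by
    rw [root_refl, hkz]; module
  have hk' := good_Str h h' hk'z
  have hd' : P.reflectionPerm c d ∈ Str P c β 1 := refl_mem_Str hd
  have hnc : neg P c ≠ β := by
    intro h0
    apply h'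
    rw [← h0, root_neg, neg_neg]
  have hnc' : P.root (neg P c) ≠ - P.root β := by
    rw [root_neg]
    intro h0
    exact h (P.root.injective (neg_injective h0))
  have hkd' : P.root (P.reflectionPerm c k) = P.root (neg P c) +
      P.root (P.reflectionPerm c d) := by
    rw [root_neg, P.root_reflectionPerm c k, P.root_reflectionPerm c d, hkd, map_add,
      P.reflection_apply_self]
  have e1 := L.exp1 hR hnc hnc' (k := P.reflectionPerm c k) (d := P.reflectionPerm c d)
    (by rw [Str_neg]; exact hk') (by rw [Str_neg]; exact hd') hkd' (-1) ((C.η c d : R), 0)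
  rw [Str_neg] at e1
  have e2 : cm (L.y (neg P c) (-1)) (L.Y (P.reflectionPerm c d) ((C.η c d : R), 0)) =
      X.nt c * cm (L.y c 1) (L.y d 1) * (X.nt c)⁻¹ := by
    rw [L.Y_inl]
    have f1 := L.nt_self c 1
    have f2 := L.y_n c d 1
    rw [mul_one] at f2
    rw [← f1, ← f2]
    unfold cm; group
  have hm : cm (L.y c 1) (L.y d 1) ∈ L.D true (Str P c β 1) := by
    rw [← L.Y_inl d]; exact L.cmY_mem' hR h h' hd 1 _
  rw [e2, L.chi_nt hR h h' hk hk' hm] at e1
  have e3 := L.exp1 hR h h' hk hd hkd 1 (1, 0)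
  rw [L.Y_inl] at e3
  have e4 : emb red ((C.η c k : R) * (L.chi (Str P c β 1) k (cm (L.y c 1) (L.y d 1))).1,
      (C.η c k : K) * (L.chi (Str P c β 1) k (cm (L.y c 1) (L.y d 1))).2) =
      (C.η c k : R × DualNumber K) *
        emb red (L.chi (Str P c β 1) k (cm (L.y c 1) (L.y d 1))) := by
    rw [← eR_int (red := red), ← emb_scal, map_intCast]
  have e5 : emb red ((1 : R), (0 : K)) = 1 := by
    unfold emb
    ext <;> simp
  have e6 : emb red ((C.η c d : R), (0 : K)) = (C.η c d : R × DualNumber K) := by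
    rw [← eR_int (red := red)]
    unfold emb eR
    ext <;> simp
  rw [e4, e3, e5, e6, map_neg, map_one] at e1
  have e7 : ((C.η c d : ℤ) : R × DualNumber K) * (C.η c d : ℤ) = 1 := by
    rcases C.η_pm c d with h0 | h0 <;> rw [h0] <;> simp
  push_cast
  linear_combination ((C.η c d : ℤ) : R × DualNumber K) * e1 -
    emb red (L.A (neg P c) (P.reflectionPerm c d) (P.reflectionPerm c k)) * e7

/-- the key vanishing: coordinates of `z u z⁻¹` other than the top one vanish -/
lemma key_zero (hn : ∀ c i, L.mv c (Sum.inr i) = 0)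
    (hstop : ∀ l, P.root l ≠ P.root (P.reflectionPerm c β) + P.root c) {k : ι} {z : ℤ}
    (hkz : P.root k = P.root β + z • P.root c) (hk : k ≠ P.reflectionPerm c β) :
    L.chi (Str P c β 1) k (L.y (neg P c) (-1) * (L.y c 1 * L.y β 1 * (L.y c 1)⁻¹) *
      (L.y (neg P c) (-1))⁻¹) = 0 := by
  obtain ⟨a, ha⟩ := L.wl_conj hn c β 1
  have hkg := good_Str h h' hkz
  set top := P.reflectionPerm c β with htop
  have htS : top ∈ Str P c β 1 :=
    refl_mem_Str ⟨1, 0, le_rfl, by rw [one_smul, zero_smul, add_zero]⟩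
  have e1 : L.y (neg P c) (-1) * (L.y c 1 * L.y β 1 * (L.y c 1)⁻¹) * (L.y (neg P c) (-1))⁻¹ =
      L.y c (-1) * L.Y top a * (L.y c (-1))⁻¹ := by
    rw [← ha, L.y_neg c (-1), neg_neg, ← L.y_neg c 1]
    unfold wl; group
  rw [e1, L.chi_conj_Y hR h h' hkg htS, L.chi_Y_ne hR hkg htS (Ne.symm hk), add_zero]
  apply L.chi_cm_zero hR h h' hkg htS
  rintro ⟨x, y, hx, hy, hke⟩
  have htr : P.root top = P.root β - P.pairingIn ℤ β c • P.root c := root_refl c β
  have hy1 : y = 1 := by
    have e2 := congrArg (lam P c β) hke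
    rw [hkz, htr] at e2
    simp only [map_add, map_sub, map_nsmul, map_zsmul, lam_self, smul_zero, add_zero, sub_zero,
      zero_add, nsmul_eq_mul] at e2
    have h3 := lam_right_pos P h h'
    have h4 : (1 : ℚ) = y := by
      apply mul_right_cancel₀ h3.ne'
      rw [one_mul]; exact e2
    exact_mod_cast h4.symm
  subst hy1
  rw [one_smul] at hke
  -- go down from top with the root `-c`
  have hnc : neg P c ≠ β := by
    intro h0
    apply h'
    rw [← h0, root_neg, neg_neg]
  have hnc' : P.root (neg P c) ≠ - P.root β := by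
    rw [root_neg]
    intro h0
    exact h (P.root.injective (neg_injective h0))
  refine str_stop hR hnc hnc' (k' := top) (e := k) (by rw [Str_neg]; exact htS) ?_ hx ?_
  · intro l hl
    rw [root_neg, sub_neg_eq_add] at hl
    exact hstop l hl
  · rw [hke, root_neg]; module

lemma chi_u {k : ι} (hk : Good P (Str P c β 1) k) :
    L.chi (Str P c β 1) k (L.y c 1 * L.y β 1 * (L.y c 1)⁻¹) =
      L.chi (Str P c β 1) k (cm (L.y c 1) (L.Y β (1, 0))) +
      L.chi (Str P c β 1) k (L.Y β (1, 0)) := by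
  have hβ : β ∈ Str P c β 1 := ⟨1, 0, le_rfl, by rw [one_smul, zero_smul, add_zero]⟩
  rw [← L.Y_inl β, L.chi_conj_Y hR h h' hk hβ]

lemma u_mem : L.y c 1 * L.y β 1 * (L.y c 1)⁻¹ ∈ L.D true (Str P c β 1) := by
  have hβ : β ∈ Str P c β 1 := ⟨1, 0, le_rfl, by rw [one_smul, zero_smul, add_zero]⟩
  exact L.normS hR h h' 1 _ (L.y_mem hβ 1)

lemma emb_one' : emb red ((1 : R), (0 : K)) = 1 := by
  unfold emb
  ext <;> simp

/-- strings of length one -/
lemma string1 (hn : ∀ c i, L.mv c (Sum.inr i) = 0) (h2 : (2 : K) ≠ 0)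
    (hNc : ∀ i j k, P.root k = P.root i + P.root j → (C.Nc i j : K) ≠ 0)
    {top : ι} (htop : P.root top = P.root c + P.root β) (hp : P.pairingIn ℤ β c = -1)
    (hstop : ∀ l, P.root l ≠ P.root top + P.root c) : (L.A c β top).2 = 0 := by
  have hrt : P.reflectionPerm c β = top := by
    apply P.root.injective
    rw [root_refl, hp, htop]; module
  have hrb : P.reflectionPerm c top = β := by rw [← hrt]; simp
  have hβz : P.root β = P.root β + (0 : ℤ) • P.root c := by simp
  have htz : P.root top = P.root β + (1 : ℤ) • P.root c := by rw [htop]; module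
  have gβ := good_Str h h' hβz
  have gt := good_Str h h' htz
  have hne : β ≠ top := by
    rintro rfl
    have : P.root c = 0 := by simpa using htop
    exact P.ne_zero c this
  have hnc : neg P c ≠ β := by
    intro h0
    apply h'
    rw [← h0, root_neg, neg_neg]
  have hnc' : P.root (neg P c) ≠ - P.root β := by
    rw [root_neg]
    intro h0
    exact h (P.root.injective (neg_injective h0))
  have e1 := L.key_zero hR h h' hn (by rw [hrt]; exact hstop) hβz (by rw [hrt]; exact hne)
  have e2 := L.Q1 hR hnc hnc' (k := β) (k' := top) (z := 0) (by simp)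
    (by rw [root_neg, htop]; abel)
    (by intro l hl; rw [root_neg, sub_neg_eq_add] at hl; exact hstop l hl) (-1) _
    (by rw [Str_neg]; exact L.u_mem hR h h')
  rw [Str_neg] at e2
  rw [e1, emb_zero, L.chi_u hR h h' gβ, L.chi_u hR h h' gt, L.chi_Y hR gβ,
    L.chi_Y_ne hR gt gβ.mem hne, add_zero, emb_add, emb_one' hR h h',
    L.exp1 hR h h' gt gβ.mem htop, emb_one' hR h h', map_one, map_neg, map_one] at e2
  rw [L.chi_cm_zero hR h h' gβ gβ.mem ?_, emb_zero] at e2
  · have e3 := L.Wrel hR h h' htz htop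
    rw [hrt, hrb] at e3
    rw [e3] at e2
    have hA1 : (L.A c β top).1 = (C.Nc c β : R) := L.A_fst hR h h' htop
    have e4 := congrArg (fun x => TrivSqZeroExt.snd (Prod.snd x)) e2
    simp only [emb, hA1, map_intCast] at e4
    simp at e4
    have e5 := hNc c β top htop
    rcases C.η_pm c top with h3 | h3 <;> rcases C.η_pm c β with h4 | h4 <;>
    · rw [h3, h4] at e4
      simp at e4
      have e6 : 2 * ((C.Nc c β : K) * (L.A c β top).2) = 0 := by
        first
        | linear_combination e4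
        | linear_combination -e4
      rcases mul_eq_zero.mp e6 with e7 | e7
      · exact absurd e7 h2
      · rcases mul_eq_zero.mp e7 with e8 | e8
        · exact absurd e8 e5
        · exact e8
  · rintro ⟨x, y, hx, hy, hke⟩
    have h1 : 0 • P.root c + 1 • P.root β = x • P.root c + y • P.root β := by
      rw [← hke]; module
    have := coef_unique (β := β) (lam_self P c β) (lam_right_pos P h h').ne' h1
    omega

end

end Lifts

end Pool.Agent.T2H35.Chev
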