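import Pool.Agent.T2H35.Chev.Kappa

/-! Vanishing of the deformation of the structure constants: longer strings -/

namespace Pool.Agent.T2H35.Chev

open Module

set_option linter.unusedSectionVars false
set_option linter.unusedVariables false

variable {ι V W : Type} [Fintype ι] [DecidableEq ι] [AddCommGroup V] [Module ℚ V]
  [AddCommGroup W] [Module ℚ W] {P : RootPairing ι ℚ V W} [P.IsCrystallographic] {b : P.Base}
  {R K : Type} [CommRing R] [Field K] {red : R →+* K} {G : Type} [Group G]
  {ρ : G →* (((b.support ⊕ ι) → K) →ₗ[K] ((b.support ⊕ ι) → K))}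

variable {C : CG P b R K red G ρ} {E : Type} [Group E]

lemma CG.Nc_ne (C : CG P b R K red G ρ) {i j k : ι} (h : P.root k = P.root i + P.root j) :
    (C.Nc i j : K) ≠ 0 := by
  have h1 := (C.Nc_unit i j k h).map red
  rw [map_intCast] at h1
  exact h1.ne_zero

namespace Lifts

variable {X : ExtData C E} (L : Lifts C X)

variable [P.IsReduced] [P.IsRootSystem] (hR : ∀ s : R, ∃ z : ℤ, (z : R) = s)
  (hloc : ∀ r : R, red r ≠ 0 → IsUnit r)

lemma emb_snd (a : R × K) : TrivSqZeroExt.snd (emb red a).2 = a.2 := by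
  unfold emb; simp

lemma emb_fst (a : R × K) : TrivSqZeroExt.fst (emb red a).2 = red a.1 := by
  unfold emb; simp

include hR in
lemma A_unit {c d k : ι} (h : c ≠ d) (h' : P.root c ≠ - P.root d)
    (hk : P.root k = P.root c + P.root d) : IsUnit (emb red (L.A c d k)) := by
  rw [Prod.isUnit_iff]
  constructor
  · show IsUnit (L.A c d k).1
    rw [L.A_fst hR h h' hk]
    exact C.Nc_unit c d k hk
  · rw [TrivSqZeroExt.isUnit_iff_isUnit_fst, emb_fst, L.A_fst hR h h' hk, map_intCast]
    exact (C.Nc_ne hk).isUnit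

/-- reading off the infinitesimal part -/
lemma eps_of_mul {a a' : R × K} {w : ℤ} (hw : w = 1 ∨ w = -1) {z : ℤ}
    (h : (z : R × DualNumber K) + (w : R × DualNumber K) * (emb red a * emb red a') = 0) :
    red a.1 * a'.2 + a.2 * red a'.1 = 0 := by
  have h1 := congrArg (fun x => TrivSqZeroExt.snd (Prod.snd x)) h
  simp only [emb] at h1
  rcases hw with rfl | rfl
  · simp at h1
    linear_combination h1
  · simp at h1
    linear_combination -h1

section

variable {c β : ι} (h : c ≠ β) (h' : P.root c ≠ - P.root β)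

include h h' in
lemma pairs {d : ι} (hd : d ∈ Str P c β 1) : c ≠ d ∧ P.root c ≠ - P.root d := by
  constructor
  · rintro rfl
    exact lam_ne_Str h h' hd (lam_self P c β)
  · intro h0
    exact add_ne_Str h h' hd (by rw [h0, neg_add_cancel])

include hR hloc h h'

/-- strings of length two -/
lemma string2 (hn : ∀ c i, L.mv c (Sum.inr i) = 0) (h2 : (2 : K) ≠ 0)
    {mid top : ι} (hmid : P.root mid = P.root c + P.root β)
    (htop : P.root top = P.root c + P.root mid) (hp : P.pairingIn ℤ β c = -2)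
    (hstop : ∀ l, P.root l ≠ P.root top + P.root c) :
    (C.Nc c β : K) * (L.A c mid top).2 + (L.A c β mid).2 * (C.Nc c mid : K) = 0 := by
  have hrt : P.reflectionPerm c β = top := by
    apply P.root.injective
    rw [root_refl, hp, htop, hmid]; module
  have hrb : P.reflectionPerm c top = β := by rw [← hrt]; simp
  have hpm : P.pairingIn ℤ mid c = 0 := by
    rw [P.pairingIn_eq_add_of_root_eq_add (j := c) hmid, hp, P.pairingIn_same]; norm_num
  have hrm : P.reflectionPerm c mid = mid := by
    apply P.root.injective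
    rw [root_refl, hpm]; module
  have hβz : P.root β = P.root β + (0 : ℤ) • P.root c := by simp
  have hmz : P.root mid = P.root β + (1 : ℤ) • P.root c := by rw [hmid]; module
  have htz : P.root top = P.root β + (2 : ℤ) • P.root c := by rw [htop, hmid]; module
  have gβ := good_Str h h' hβz
  have gm := good_Str h h' hmz
  have gt := good_Str h h' htz
  have ne1 : β ≠ mid := by
    rintro rfl
    have : P.root c = 0 := by simpa using hmid
    exact P.ne_zero c this
  have ne2 : mid ≠ top := by
    rintro rfl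
    have : P.root c = 0 := by simpa using htop
    exact P.ne_zero c this
  have ne3 : β ≠ top := by
    rintro rfl
    have e1 : (2 : ℤ) • P.root c = 0 := by simpa using htz
    rw [← Int.cast_smul_eq_zsmul ℚ] at e1
    rcases smul_eq_zero.mp e1 with h0 | h0
    · norm_num at h0
    · exact P.ne_zero c h0
  have hnc : neg P c ≠ β := by
    intro h0
    apply h'
    rw [← h0, root_neg, neg_neg]
  have hnc' : P.root (neg P c) ≠ - P.root β := by
    rw [root_neg]
    intro h0
    exact h (P.root.injective (neg_injective h0))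
  have e1 := L.key_zero hR h h' hn (by rw [hrt]; exact hstop) hmz (by rw [hrt]; exact ne2)
  have e2 := L.Q1 hR hnc hnc' (k := mid) (k' := top) (z := -1)
    (by rw [root_neg, hmid]; module)
    (by rw [root_neg, htop]; abel)
    (by intro l hl; rw [root_neg, sub_neg_eq_add] at hl; exact hstop l hl) (-1) _
    (by rw [Str_neg]; exact L.u_mem hR h h')
  have x2 := L.exp2 hR hloc h h' gt gm gβ.mem hmid htop 1 (1, 0)
  have x1 := L.exp1 hR h h' gm gβ.mem hmid 1 (1, 0)
  rw [emb_one' hR h h', map_one] at x1 x2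
  rw [Str_neg] at e2
  rw [e1, emb_zero, L.chi_u hR h h' gm, L.chi_u hR h h' gt,
    L.chi_Y_ne hR gm gβ.mem ne1, L.chi_Y_ne hR gt gβ.mem ne3, add_zero, add_zero,
    x1, map_neg, map_one] at e2
  have e3 := L.Wrel hR h h' hmz hmid
  rw [hrt, hrm] at e3
  rw [e3] at e2
  obtain ⟨cm1, cm2⟩ := pairs h h' gm.mem
  have u0 := L.A_unit hR h h' hmid
  have hη : C.η c mid * C.η c β = 1 ∨ C.η c mid * C.η c β = -1 := by
    rcases C.η_pm c mid with h3 | h3 <;> rcases C.η_pm c β with h4 | h4 <;> rw [h3, h4] <;> simp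
  have key : ((2 : ℤ) : R × DualNumber K) + ((C.η c mid * C.η c β : ℤ) : R × DualNumber K) *
      (emb red (L.A c β mid) * emb red (L.A c mid top)) = 0 := by
    apply (u0.mul_right_eq_zero).mp
    rw [Int.cast_ofNat]
    linear_combination -2 * e2 - (((C.η c mid * C.η c β : ℤ) : R × DualNumber K) *
      emb red (L.A c β mid)) * x2
  have := eps_of_mul hη key
  rw [L.A_fst hR h h' hmid, L.A_fst hR cm1 cm2 htop, map_intCast, map_intCast] at this
  exact this

/-- strings of length three -/
lemma string3 (hn : ∀ c i, L.mv c (Sum.inr i) = 0) (h2 : (2 : K) ≠ 0) (h3 : (3 : K) ≠ 0)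
    {k1 k2 top : ι} (hk1 : P.root k1 = P.root c + P.root β)
    (hk2 : P.root k2 = P.root c + P.root k1)
    (htop : P.root top = P.root c + P.root k2) (hp : P.pairingIn ℤ β c = -3)
    (hstop : ∀ l, P.root l ≠ P.root top + P.root c) :
    (C.Nc c β : K) * (L.A c k2 top).2 + (L.A c β k1).2 * (C.Nc c k2 : K) = 0 ∧
      (L.A c k1 k2).2 = 0 := by
  have hrt : P.reflectionPerm c β = top := by
    apply P.root.injective
    rw [root_refl, hp, htop, hk2, hk1]; module
  have hrb : P.reflectionPerm c top = β := by rw [← hrt]; simp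
  have hp1 : P.pairingIn ℤ k1 c = -1 := by
    rw [P.pairingIn_eq_add_of_root_eq_add (j := c) hk1, hp, P.pairingIn_same]; norm_num
  have hr1 : P.reflectionPerm c k1 = k2 := by
    apply P.root.injective
    rw [root_refl, hp1, hk2]; module
  have hr2 : P.reflectionPerm c k2 = k1 := by rw [← hr1]; simp
  have hβz : P.root β = P.root β + (0 : ℤ) • P.root c := by simp
  have h1z : P.root k1 = P.root β + (1 : ℤ) • P.root c := by rw [hk1]; module
  have h2z : P.root k2 = P.root β + (2 : ℤ) • P.root c := by rw [hk2, hk1]; module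
  have htz : P.root top = P.root β + (3 : ℤ) • P.root c := by rw [htop, hk2, hk1]; module
  have gβ := good_Str h h' hβz
  have g1 := good_Str h h' h1z
  have g2 := good_Str h h' h2z
  have gt := good_Str h h' htz
  have nez : ∀ {i i' : ι} {z z' : ℤ}, P.root i = P.root β + z • P.root c →
      P.root i' = P.root β + z' • P.root c → z ≠ z' → i ≠ i' := by
    rintro i i' z z' e1 e2 hz rfl
    rw [e1] at e2
    have e3 := add_left_cancel e2
    rw [← Int.cast_smul_eq_zsmul ℚ, ← Int.cast_smul_eq_zsmul ℚ] at e3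
    have e4 := smul_left_injective ℚ (P.ne_zero c) e3
    exact hz (by exact_mod_cast e4)
  have neβ1 : β ≠ k1 := nez hβz h1z (by norm_num)
  have neβ2 : β ≠ k2 := nez hβz h2z (by norm_num)
  have neβt : β ≠ top := nez hβz htz (by norm_num)
  have ne1t : k1 ≠ top := nez h1z htz (by norm_num)
  have ne2t : k2 ≠ top := nez h2z htz (by norm_num)
  have hnc : neg P c ≠ β := by
    intro h0
    apply h'
    rw [← h0, root_neg, neg_neg]
  have hnc' : P.root (neg P c) ≠ - P.root β := by
    rw [root_neg]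
    intro h0
    exact h (P.root.injective (neg_injective h0))
  have e1 := L.key_zero hR h h' hn (by rw [hrt]; exact hstop) h2z (by rw [hrt]; exact ne2t)
  have e1' := L.key_zero hR h h' hn (by rw [hrt]; exact hstop) h1z (by rw [hrt]; exact ne1t)
  have e2 := L.Q1 hR hnc hnc' (k := k2) (k' := top) (z := -2)
    (by rw [root_neg, hk2, hk1]; module)
    (by rw [root_neg, htop]; abel)
    (by intro l hl; rw [root_neg, sub_neg_eq_add] at hl; exact hstop l hl) (-1) _
    (by rw [Str_neg]; exact L.u_mem hR h h')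
  have e2' := L.Q2 hR hloc hnc hnc' (k := k1) (k' := k2) (k'' := top) (z := -1)
    (by rw [root_neg, hk1]; module)
    (by rw [root_neg, hk2]; abel)
    (by rw [root_neg, htop]; abel)
    (by intro l hl; rw [root_neg, sub_neg_eq_add] at hl; exact hstop l hl) (-1) _
    (by rw [Str_neg]; exact L.u_mem hR h h')
  have x3 := L.exp3 hR hloc h h' gt g2 g1 gβ.mem hk1 hk2 htop 1 (1, 0)
  have x2 := L.exp2 hR hloc h h' g2 g1 gβ.mem hk1 hk2 1 (1, 0)
  have x1 := L.exp1 hR h h' g1 gβ.mem hk1 1 (1, 0)
  rw [emb_one' hR h h', map_one] at x1 x2 x3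
  rw [Str_neg] at e2 e2'
  rw [e1, emb_zero, L.chi_u hR h h' g2, L.chi_u hR h h' gt,
    L.chi_Y_ne hR g2 gβ.mem neβ2, L.chi_Y_ne hR gt gβ.mem neβt, add_zero, add_zero,
    map_neg, map_one] at e2
  rw [e1', emb_zero, L.chi_u hR h h' g1, L.chi_u hR h h' g2, L.chi_u hR h h' gt,
    L.chi_Y_ne hR g1 gβ.mem neβ1, L.chi_Y_ne hR g2 gβ.mem neβ2,
    L.chi_Y_ne hR gt gβ.mem neβt, add_zero, add_zero, add_zero,
    map_neg, map_one] at e2'
  have e3 := L.Wrel hR h h' h1z hk1
  rw [hrt, hr1] at e3
  have e3' := L.Wrel hR h h' h2z hk2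
  rw [hr1, hr2] at e3'
  rw [e3] at e2 e2'
  rw [e3'] at e2'
  obtain ⟨c11, c12⟩ := pairs h h' g1.mem
  obtain ⟨c21, c22⟩ := pairs h h' g2.mem
  have u0 := L.A_unit hR h h' hk1
  have u1 := L.A_unit hR c11 c12 hk2
  have hη : C.η c k1 * C.η c β = 1 ∨ C.η c k1 * C.η c β = -1 := by
    rcases C.η_pm c k1 with h3 | h3 <;> rcases C.η_pm c β with h4 | h4 <;> rw [h3, h4] <;> simp
  have hη' : C.η c k2 * C.η c k1 = 1 ∨ C.η c k2 * C.η c k1 = -1 := by
    rcases C.η_pm c k2 with h3 | h3 <;> rcases C.η_pm c k1 with h4 | h4 <;> rw [h3, h4] <;> simp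
  have key : ((3 : ℤ) : R × DualNumber K) + ((C.η c k1 * C.η c β : ℤ) : R × DualNumber K) *
      (emb red (L.A c β k1) * emb red (L.A c k2 top)) = 0 := by
    apply ((u0.mul u1).mul_right_eq_zero).mp
    rw [Int.cast_ofNat]
    linear_combination -6 * e2 - 3 * x2 - (((C.η c k1 * C.η c β : ℤ) : R × DualNumber K) *
      emb red (L.A c β k1)) * x3
  have key' : ((4 : ℤ) : R × DualNumber K) + ((C.η c k2 * C.η c k1 : ℤ) : R × DualNumber K) *
      (emb red (L.A c k1 k2) * emb red (L.A c k1 k2)) = 0 := by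
    have u3 : IsUnit (3 : R × DualNumber K) := by
      rw [Prod.isUnit_iff]
      constructor
      · apply hloc
        show red ((3 : R × DualNumber K).1) ≠ 0
        rw [Prod.fst_ofNat, map_ofNat]
        exact h3
      · have e3 : (3 : DualNumber K) = TrivSqZeroExt.inl (3 : K) :=
          (map_ofNat (TrivSqZeroExt.inlHom K K) 3).symm
        rw [TrivSqZeroExt.isUnit_iff_isUnit_fst, Prod.snd_ofNat, e3, TrivSqZeroExt.fst_inl]
        exact (isUnit_iff_ne_zero.mpr h3)
    apply ((u3.mul u0).mul_right_eq_zero).mp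
    rw [Int.cast_ofNat]
    rw [Int.cast_ofNat] at key
    linear_combination -6 * e2' - 12 * x1 -
      6 * (((C.η c k2 * C.η c k1 : ℤ) : R × DualNumber K) * emb red (L.A c k1 k2)) * x2 -
      (((C.η c k2 * C.η c k1 : ℤ) : R × DualNumber K) *
        ((C.η c k1 * C.η c β : ℤ) : R × DualNumber K) *
        emb red (L.A c β k1) * emb red (L.A c k1 k2)) * x3 -
      (((C.η c k2 * C.η c k1 : ℤ) : R × DualNumber K) * emb red (L.A c β k1) *
        emb red (L.A c k1 k2) ^ 2) * key
  constructor
  · have := eps_of_mul hη key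
    rw [L.A_fst hR h h' hk1, L.A_fst hR c21 c22 htop, map_intCast, map_intCast] at this
    exact this
  · have := eps_of_mul hη' key'
    rw [L.A_fst hR c11 c12 hk2, map_intCast] at this
    have e5 := C.Nc_ne hk2
    have e6 : (2 * (C.Nc c k1 : K)) * (L.A c k1 k2).2 = 0 := by linear_combination this
    exact (mul_eq_zero.mp e6).resolve_left (mul_ne_zero h2 e5)

end

/-- `z` with `d + z c` a root -/
lemma stop_of {c d : ι} (hlin : LinearIndependent ℚ ![P.root c, P.root d]) {l : ι} {z : ℤ}
    (hl : P.root l = P.root d + z • P.root c) :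
    -(P.chainBotCoeff c d : ℤ) ≤ z ∧ z ≤ P.chainTopCoeff c d := by
  have h1 : P.root d + z • P.root c ∈ Set.range P.root := ⟨l, hl⟩
  rw [P.root_add_zsmul_mem_range_iff hlin, Set.mem_Icc] at h1
  exact h1

lemma exists_of {c d : ι} (hlin : LinearIndependent ℚ ![P.root c, P.root d]) {z : ℤ}
    (h1 : -(P.chainBotCoeff c d : ℤ) ≤ z) (h2 : z ≤ P.chainTopCoeff c d) :
    ∃ l, P.root l = P.root d + z • P.root c := by
  have h3 := (P.root_add_zsmul_mem_range_iff hlin (z := z)).mpr ⟨h1, h2⟩
  exact h3

include hR hloc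

section kz

variable (hn : ∀ c i, L.mv c (Sum.inr i) = 0) (h2 : (2 : K) ≠ 0) (h3 : (3 : K) ≠ 0)

include hn h2

/-- strings starting at `d` -/
lemma kappa_bot1 {c d k : ι} (h : c ≠ d) (h' : P.root c ≠ - P.root d)
    (hk : P.root k = P.root c + P.root d) (hb : P.chainBotCoeff c d = 0)
    (ht : P.chainTopCoeff c d = 1) : (L.A c d k).2 = 0 := by
  have hlin := RootPairing.IsReduced.linearIndependent P h h'
  have hp := P.chainBotCoeff_sub_chainTopCoeff hlin
  rw [hb, ht] at hp
  refine L.string1 hR h h' hn h2 (fun i j k hk => C.Nc_ne hk) hk ?_ ?_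
  · rw [← hp]; norm_num
  · intro l hl
    have h4 := (stop_of hlin (l := l) (z := 2) (by rw [hl, hk]; module)).2
    rw [ht] at h4
    norm_num at h4

lemma kappa_bot {c d k : ι} (h : c ≠ d) (h' : P.root c ≠ - P.root d)
    (hk : P.root k = P.root c + P.root d) (hb : P.chainBotCoeff c d = 0) :
    (L.A c d k).2 = 0 := by
  have hlin := RootPairing.IsReduced.linearIndependent P h h'
  have hp := P.chainBotCoeff_sub_chainTopCoeff hlin
  have ht1 : 1 ≤ P.chainTopCoeff c d := P.one_le_chainTopCoeff_of_root_add_mem ⟨k, hk⟩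
  by_cases ht : P.chainTopCoeff c d = 1
  · exact L.kappa_bot1 hR hloc hn h2 h h' hk hb ht
  have h'' : P.root d ≠ - P.root c := by
    intro h0
    exact h' (by rw [h0, neg_neg])
  have hlin' := RootPairing.IsReduced.linearIndependent P (Ne.symm h) h''
  have hp' := P.chainBotCoeff_sub_chainTopCoeff hlin'
  have hk' : P.root k = P.root d + P.root c := by rw [hk, add_comm]
  have hb' : P.chainBotCoeff d c = 0 := by
    by_contra hne
    obtain ⟨l, hl⟩ := exists_of hlin' (z := -1) (by omega) (by omega)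
    have h4 := (stop_of hlin (l := neg P l) (z := -1) (by rw [root_neg, hl]; module)).1
    rw [hb] at h4
    norm_num at h4
  have hmem := P.pairingIn_pairingIn_mem_set_of_isCrystal_of_isRed' (i := c) (j := d)
    (fun e => h (P.root.injective e)) h'
  have ht' : P.chainTopCoeff d c = 1 := by
    simp only [Set.mem_insert_iff, Prod.mk.injEq, Set.mem_singleton_iff] at hmem
    rw [hb] at hp
    rw [hb'] at hp'
    rcases hmem with ⟨e1, e2⟩ | ⟨e1, e2⟩ | ⟨e1, e2⟩ | ⟨e1, e2⟩ | ⟨e1, e2⟩ | ⟨e1, e2⟩ | ⟨e1, e2⟩ |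
      ⟨e1, e2⟩ | ⟨e1, e2⟩ | ⟨e1, e2⟩ | ⟨e1, e2⟩ <;> rw [e1] at hp' <;> rw [e2] at hp <;> omega
  have h5 := L.kappa_bot1 hR hloc hn h2 (Ne.symm h) h'' hk' hb' ht'
  rw [L.A_symm hR h h' hk, Prod.snd_neg, neg_eq_zero] at h5
  exact h5

include h3

/-- **the deformation of the structure constants vanishes** -/
theorem kappa_zero {c d k : ι} (h : c ≠ d) (h' : P.root c ≠ - P.root d)
    (hk : P.root k = P.root c + P.root d) : (L.A c d k).2 = 0 := by
  have hlin := RootPairing.IsReduced.linearIndependent P h h'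
  have hp := P.chainBotCoeff_sub_chainTopCoeff hlin
  have ht1 : 1 ≤ P.chainTopCoeff c d := P.one_le_chainTopCoeff_of_root_add_mem ⟨k, hk⟩
  have hle := P.chainBotCoeff_add_chainTopCoeff_le_three (i := c) (j := d)
  by_cases hb : P.chainBotCoeff c d = 0
  · exact L.kappa_bot hR hloc hn h2 h h' hk hb
  -- general facts about the bottom of the string
  have hbot : ∀ {β : ι} {r : ℕ}, P.chainBotCoeff c d = r →
      P.root β = P.root d - r • P.root c → c ≠ β ∧ P.root c ≠ - P.root β ∧
      P.chainBotCoeff c β = 0 := by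
    intro β r hr hβ
    have e1 : c ≠ β := by
      rintro rfl
      have e2 : ((r : ℤ) + 1) • P.root c + (-1 : ℤ) • P.root d = 0 := by
        have : P.root d = P.root c + r • P.root c := by
          nth_rw 1 [hβ]; abel
        rw [this]; module
      rw [← Int.cast_smul_eq_zsmul ℚ, ← Int.cast_smul_eq_zsmul ℚ] at e2
      have e3 := (LinearIndependent.pair_iff.mp hlin _ _ e2).2
      norm_num at e3
    have e2 : P.root c ≠ - P.root β := by
      intro e0
      rw [hβ] at e0
      have e2 : (-(r : ℤ) + 1) • P.root c + (1 : ℤ) • P.root d = 0 := by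
        have : P.root c + (P.root d - r • P.root c) = 0 := by
          nth_rw 1 [e0]; abel
        rw [← this]; module
      rw [← Int.cast_smul_eq_zsmul ℚ, ← Int.cast_smul_eq_zsmul ℚ] at e2
      have e3 := (LinearIndependent.pair_iff.mp hlin _ _ e2).2
      norm_num at e3
    refine ⟨e1, e2, ?_⟩
    have hlin' := RootPairing.IsReduced.linearIndependent P e1 e2
    by_contra hne
    obtain ⟨l, hl⟩ := exists_of hlin' (z := -1) (by omega) (by omega)
    have h4 := (stop_of hlin (l := l) (z := -((r : ℤ) + 1)) (by rw [hl, hβ]; module)).1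
    rw [hr] at h4
    omega
  have hc1 : P.chainBotCoeff c d = 1 ∧ P.chainTopCoeff c d = 1 ∨
      P.chainBotCoeff c d = 1 ∧ P.chainTopCoeff c d = 2 ∨
      P.chainBotCoeff c d = 2 ∧ P.chainTopCoeff c d = 1 := by omega
  rcases hc1 with ⟨hb1, ht⟩ | ⟨hb1, ht⟩ | ⟨hb1, ht⟩
  · obtain ⟨β, hβ⟩ := exists_of hlin (z := -1) (by omega) (by omega)
    obtain ⟨f1, f2, f3⟩ := hbot (β := β) hb1 (by rw [hβ]; module)
    have hd : P.root d = P.root c + P.root β := by rw [hβ]; module
    have hpβ : P.pairingIn ℤ β c = -2 := by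
      have e1 := P.pairingIn_eq_add_of_root_eq_add (S := ℤ) (j := c) hd
      rw [← hp, P.pairingIn_same, hb1, ht] at e1
      omega
    have hs := L.string2 hR hloc f1 f2 hn h2 hd hk hpβ (by
      intro l hl
      have h4 := (stop_of hlin (l := l) (z := 2) (by rw [hl, hk]; module)).2
      rw [ht] at h4
      norm_num at h4)
    rw [L.kappa_bot hR hloc hn h2 f1 f2 hd f3, zero_mul, add_zero] at hs
    exact (mul_eq_zero.mp hs).resolve_left (C.Nc_ne hd)
  · obtain ⟨β, hβ⟩ := exists_of hlin (z := -1) (by omega) (by omega)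
    obtain ⟨f1, f2, f3⟩ := hbot (β := β) hb1 (by rw [hβ]; module)
    obtain ⟨top, htop⟩ := exists_of hlin (z := 2) (by omega) (by omega)
    have hd : P.root d = P.root c + P.root β := by rw [hβ]; module
    have hpβ : P.pairingIn ℤ β c = -3 := by
      have e1 := P.pairingIn_eq_add_of_root_eq_add (S := ℤ) (j := c) hd
      rw [← hp, P.pairingIn_same, hb1, ht] at e1
      omega
    exact (L.string3 hR hloc f1 f2 hn h2 h3 hd hk (top := top)
      (by rw [htop, hk]; module) hpβ (by
      intro l hl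
      have h4 := (stop_of hlin (l := l) (z := 3) (by rw [hl, htop]; module)).2
      rw [ht] at h4
      norm_num at h4)).2
  · obtain ⟨β, hβ⟩ := exists_of hlin (z := -2) (by omega) (by omega)
    obtain ⟨k1, hk1⟩ := exists_of hlin (z := -1) (by omega) (by omega)
    obtain ⟨f1, f2, f3⟩ := hbot (β := β) hb1 (by rw [hβ]; module)
    have hd1 : P.root k1 = P.root c + P.root β := by rw [hk1, hβ]; module
    have hd : P.root d = P.root c + P.root k1 := by rw [hk1]; module
    have hpβ : P.pairingIn ℤ β c = -3 := by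
      have e1 := P.pairingIn_eq_add_of_root_eq_add (S := ℤ) (j := c) hd
      have e2 := P.pairingIn_eq_add_of_root_eq_add (S := ℤ) (j := c) hd1
      rw [← hp, P.pairingIn_same, hb1, ht] at e1
      rw [P.pairingIn_same] at e2
      omega
    have hs := (L.string3 hR hloc f1 f2 hn h2 h3 hd1 hd hk hpβ (by
      intro l hl
      have h4 := (stop_of hlin (l := l) (z := 2) (by rw [hl, hk]; module)).2
      rw [ht] at h4
      norm_num at h4)).1
    rw [L.kappa_bot hR hloc hn h2 f1 f2 hd1 f3, zero_mul, add_zero] at hs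
    exact (mul_eq_zero.mp hs).resolve_left (C.Nc_ne hd1)

end kz

end Lifts

end Pool.Agent.T2H35.Chev
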