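import Pool.Agent.T2H35.Chev.Rho
import Pool.Agent.T2H35.Chev.Avg

/-! Reduction of continuous cohomology to finite levels -/

namespace Pool.Agent.T2H35.Chev

open Module Topology

set_option linter.unusedSectionVars false
set_option linter.unusedVariables false

section lc

variable {X Y Z : Type} [TopologicalSpace X] [TopologicalSpace Y]

lemma lc_iff {f : X → Z} : IsLocallyConstant f ↔ ∀ x, ∀ᶠ y in 𝓝 x, f y = f x :=
  IsLocallyConstant.iff_eventually_eq f

lemma lc_sum {ι M : Type} [Fintype ι] [AddCommGroup M] {F : ι → X → M}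
    (h : ∀ i, IsLocallyConstant (F i)) : IsLocallyConstant (fun x => ∑ i, F i x) := by
  rw [lc_iff]
  intro x
  have h1 : ∀ᶠ y in 𝓝 x, ∀ i, F i y = F i x :=
    Filter.eventually_all.mpr (fun i => lc_iff.mp (h i) x)
  filter_upwards [h1] with y hy
  exact Finset.sum_congr rfl (fun i _ => hy i)

lemma lc_pi {ι : Type} [Finite ι] {F : X → ι → Z}
    (h : ∀ i, IsLocallyConstant (fun x => F x i)) : IsLocallyConstant F := by
  rw [lc_iff]
  intro x
  have h1 : ∀ᶠ y in 𝓝 x, ∀ i, F y i = F x i :=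
    Filter.eventually_all.mpr (fun i => lc_iff.mp (h i) x)
  filter_upwards [h1] with y hy
  exact funext hy

end lc

section padic

variable (p : ℕ) [Fact p.Prime]

lemma lc_toZModPow (k : ℕ) : IsLocallyConstant (PadicInt.toZModPow (p := p) k) := by
  have hp : p.Prime := Fact.out
  rw [lc_iff]
  intro x
  have h1 : ∀ᶠ y in 𝓝 x, ‖y - x‖ < (p : ℝ) ^ (-(k : ℤ) + 1) := by
    have h2 : Metric.ball x ((p : ℝ) ^ (-(k : ℤ) + 1)) ∈ 𝓝 x :=
      Metric.ball_mem_nhds x (zpow_pos (by exact_mod_cast hp.pos) _)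
    filter_upwards [h2] with y hy
    rwa [Metric.mem_ball, dist_eq_norm] at hy
  filter_upwards [h1] with y hy
  rw [← PadicInt.norm_le_pow_iff_norm_lt_pow_add_one, PadicInt.norm_le_pow_iff_mem_span_pow,
    ← PadicInt.ker_toZModPow, RingHom.mem_ker, map_sub, sub_eq_zero] at hy
  exact hy

lemma redP_comp (n : ℕ) (hn : 1 ≤ n) (x : ℤ_[p]) :
    redP p n hn (PadicInt.toZModPow n x) = PadicInt.toZMod x := by
  obtain ⟨m, hm, hx⟩ := PadicInt.exists_mem_range x
  rw [PadicInt.maximalIdeal_eq_span_p, Ideal.mem_span_singleton] at hx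
  obtain ⟨y, hy⟩ := hx
  have : x = (m : ℤ_[p]) + (p : ℤ_[p]) * y := by rw [← hy]; ring
  rw [this]
  simp only [map_add, map_mul, map_natCast, CharP.cast_eq_zero, zero_mul, add_zero]

variable {κ : Type} [Fintype κ] [DecidableEq κ] {Γ : Type} [Group Γ] [TopologicalSpace Γ]
  (φ : Γ →* GL κ ℤ_[p])

/-- reduction modulo `p ^ k` -/
noncomputable def Phi (k : ℕ) : Γ →* GL κ (ZMod (p ^ k)) :=
  (Matrix.GeneralLinearGroup.map (PadicInt.toZModPow k)).comp φ

lemma Phi_entry (k : ℕ) (g : Γ) (i j : κ) :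
    (Phi p φ k g : Matrix κ κ (ZMod (p ^ k))) i j =
      PadicInt.toZModPow k ((φ g : Matrix κ κ ℤ_[p]) i j) := rfl

lemma Phi_eq_iff (k : ℕ) (g h : Γ) : Phi p φ k g = Phi p φ k h ↔
    ∀ i j, PadicInt.toZModPow k ((φ g : Matrix κ κ ℤ_[p]) i j) =
      PadicInt.toZModPow k ((φ h : Matrix κ κ ℤ_[p]) i j) := by
  constructor
  · intro h1 i j
    rw [← Phi_entry, ← Phi_entry, h1]
  · intro h1
    apply Matrix.GeneralLinearGroup.ext
    intro i j
    exact h1 i j

variable (hφ : Continuous φ)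

include hφ in
lemma lc_Phi (k : ℕ) : IsLocallyConstant (Phi p φ k) := by
  have h1 : IsLocallyConstant (fun g : Γ => fun i j : κ =>
      PadicInt.toZModPow k ((φ g : Matrix κ κ ℤ_[p]) i j)) := by
    refine lc_pi (fun i => lc_pi (fun j => ?_))
    exact (lc_toZModPow p k).comp_continuous
      ((Units.continuous_val.comp hφ).matrix_elem i j)
  rw [lc_iff] at h1 ⊢
  intro x
  filter_upwards [h1 x] with y hy
  rw [Phi_eq_iff]
  intro i j
  exact congrFun (congrFun hy i) j

lemma Phi_succ {k : ℕ} {g h : Γ} (h1 : Phi p φ (k + 1) g = Phi p φ (k + 1) h) :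
    Phi p φ k g = Phi p φ k h := by
  rw [Phi_eq_iff] at *
  intro i j
  have := congrArg (ZMod.castHom (pow_dvd_pow p (Nat.le_succ k)) (ZMod (p ^ k))) (h1 i j)
  have h2 := PadicInt.zmod_cast_comp_toZModPow (p := p) k (k + 1) (Nat.le_succ k)
  rw [← RingHom.comp_apply, ← RingHom.comp_apply, h2] at this
  exact this

lemma Phi_le {k l : ℕ} (hkl : k ≤ l) {g h : Γ} (h1 : Phi p φ l g = Phi p φ l h) :
    Phi p φ k g = Phi p φ k h := by
  induction l, hkl using Nat.le_induction with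
  | base => exact h1
  | succ l hl ih => exact ih (Phi_succ p φ h1)

lemma eq_of_Phi {g h : Γ} (h1 : ∀ k, Phi p φ k g = Phi p φ k h) : φ g = φ h := by
  apply Matrix.GeneralLinearGroup.ext
  intro i j
  rw [← PadicInt.ext_of_toZModPow]
  intro k
  have := h1 k
  rw [Phi_eq_iff] at this
  exact this i j

include hφ in
/-- a locally constant function on `Γ × Γ` which factors through `φ × φ` factors through a finite
level -/
lemma exists_level {Y : Type} [CompactSpace Γ] (f : Γ → Γ → Y)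
    (hcont : IsLocallyConstant (fun x : Γ × Γ => f x.1 x.2))
    (hfac : ∀ g h g' h', φ g = φ g' → φ h = φ h' → f g h = f g' h') :
    ∃ k, 1 ≤ k ∧ ∀ g h g' h', Phi p φ k g = Phi p φ k g' → Phi p φ k h = Phi p φ k h' →
      f g h = f g' h' := by
  by_contra hcon
  push Not at hcon
  let S : ℕ → Set ((Γ × Γ) × (Γ × Γ)) := fun k => {x | Phi p φ (k + 1) x.1.1 = Phi p φ (k + 1) x.2.1 ∧
    Phi p φ (k + 1) x.1.2 = Phi p φ (k + 1) x.2.2 ∧ f x.1.1 x.1.2 ≠ f x.2.1 x.2.2}
  have hcl : ∀ k, IsClosed (S k) := by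
    intro k
    have l1 := (lc_Phi p φ hφ (k + 1))
    have h1 : IsLocallyConstant (fun x : (Γ × Γ) × (Γ × Γ) =>
        (Phi p φ (k + 1) x.1.1 = Phi p φ (k + 1) x.2.1 ∧
          Phi p φ (k + 1) x.1.2 = Phi p φ (k + 1) x.2.2 ∧ f x.1.1 x.1.2 ≠ f x.2.1 x.2.2)) := by
      have a1 := l1.comp_continuous (f := fun x : (Γ × Γ) × (Γ × Γ) => x.1.1) (by fun_prop)
      have a2 := l1.comp_continuous (f := fun x : (Γ × Γ) × (Γ × Γ) => x.2.1) (by fun_prop)
      have a3 := l1.comp_continuous (f := fun x : (Γ × Γ) × (Γ × Γ) => x.1.2) (by fun_prop)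
      have a4 := l1.comp_continuous (f := fun x : (Γ × Γ) × (Γ × Γ) => x.2.2) (by fun_prop)
      have a5 := hcont.comp_continuous (f := fun x : (Γ × Γ) × (Γ × Γ) => x.1) (by fun_prop)
      have a6 := hcont.comp_continuous (f := fun x : (Γ × Γ) × (Γ × Γ) => x.2) (by fun_prop)
      rw [lc_iff] at a1 a2 a3 a4 a5 a6 ⊢
      intro x
      filter_upwards [a1 x, a2 x, a3 x, a4 x, a5 x, a6 x] with y b1 b2 b3 b4 b5 b6
      simp only [Function.comp_apply] at b1 b2 b3 b4 b5 b6
      rw [b1, b2, b3, b4, b5, b6]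
    have h2 := h1.isClosed_fiber True
    have h3 : S k = {x | (Phi p φ (k + 1) x.1.1 = Phi p φ (k + 1) x.2.1 ∧
          Phi p φ (k + 1) x.1.2 = Phi p φ (k + 1) x.2.2 ∧ f x.1.1 x.1.2 ≠ f x.2.1 x.2.2) = True} := by
      ext x
      simp only [S, Set.mem_ofPred_eq, eq_iff_iff, iff_true]
    rw [h3]
    exact h2
  obtain ⟨x, hx⟩ := IsCompact.nonempty_iInter_of_sequence_nonempty_isCompact_isClosed S
    (by
      intro k x hx
      exact ⟨Phi_succ p φ hx.1, Phi_succ p φ hx.2.1, hx.2.2⟩)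
    (by
      intro k
      obtain ⟨g, h, g', h', h1, h2, h3⟩ := hcon (k + 1) (by omega)
      exact ⟨((g, h), (g', h')), h1, h2, h3⟩)
    (hcl 0).isCompact hcl
  rw [Set.mem_iInter] at hx
  apply (hx 0).2.2
  apply hfac
  · apply eq_of_Phi p φ
    intro k
    exact Phi_le p φ (Nat.le_succ k) (hx k).1
  · apply eq_of_Phi p φ
    intro k
    exact Phi_le p φ (Nat.le_succ k) (hx k).2.1

end padic

/-- **T-level theorem** -/
theorem topological {κ : Type} [Fintype κ] [DecidableEq κ] (p : ℕ) [Fact p.Prime]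
    {Γ : Type} [Group Γ] [TopologicalSpace Γ] [IsTopologicalGroup Γ] [CompactSpace Γ]
    (φ : Γ →* GL κ ℤ_[p]) (hφ : Continuous φ) (hfin : Finite φ.ker)
    (hker : (Nat.card φ.ker).Coprime p)
    (hlevel : ∀ k : ℕ, 1 ≤ k → ∀ H : Subgroup (GL κ (ZMod (p ^ (k + 1)))),
      H = φ.range.map (Matrix.GeneralLinearGroup.map (PadicInt.toZModPow (k + 1))) →
      ∀ f : H → H → (κ → ZMod p),
      IsCocycle (rhoSub p (k + 1) (by omega) H) f →
      (∀ g h g' h' : H, SameMod p k g.1 g'.1 → SameMod p k h.1 h'.1 → f g h = f g' h') →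
      ∃ c, IsCobdOf (rhoSub p (k + 1) (by omega) H) f c)
    (f : Γ → Γ → (κ → ZMod p)) (hcont : IsLocallyConstant (fun x : Γ × Γ => f x.1 x.2))
    (hf : IsCocycle ((rhoGL (PadicInt.toZMod (p := p))).comp φ) f) :
    ∃ c : Γ → (κ → ZMod p), IsLocallyConstant c ∧
      IsCobdOf ((rhoGL (PadicInt.toZMod (p := p))).comp φ) f c := by
  have hp : p.Prime := Fact.out
  let : Fintype φ.ker := Fintype.ofFinite _
  have hZ : ((Nat.card φ.ker : ℕ) : ZMod p) ≠ 0 := by
    rw [ne_eq, ZMod.natCast_eq_zero_iff]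
    intro h
    have := Nat.Coprime.eq_one_of_dvd (Nat.Coprime.symm hker) h
    exact hp.one_lt.ne' this
  set ρ := (rhoGL (PadicInt.toZMod (p := p))).comp φ with hρ
  have hρker : ∀ z ∈ φ.ker, ρ z = 1 := by
    intro z hz
    rw [hρ, MonoidHom.comp_apply, MonoidHom.mem_ker.mp hz, map_one]
  -- normalisation on the kernel
  let c0 := av ρ φ.ker f
  let f' : Γ → Γ → (κ → ZMod p) := fun g h => f g h - dd ρ c0 g h
  have hf' : IsCocycle ρ f' := isCocycle_sub_dd ρ hf c0
  have hZ' : ∀ z ∈ φ.ker, ∀ g, f' z g = 0 ∧ f' g z = 0 := fun z hz g => av_spec ρ hZ hf hz g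
  -- local constancy
  have lsmul : ∀ {F : Γ → (κ → ZMod p)}, IsLocallyConstant F →
      ∀ (a : ZMod p), IsLocallyConstant (fun g => a • F g) := fun h a => h.comp (fun v => a • v)
  have lav1 : IsLocallyConstant (av1 ρ φ.ker f) := by
    unfold av1
    apply lsmul
    apply lc_sum
    intro z
    have h1 : IsLocallyConstant (fun g : Γ => f z g) :=
      hcont.comp_continuous (f := fun g : Γ => ((z : Γ), g)) (by fun_prop)
    exact h1.comp (fun v => ρ ((z : Γ)⁻¹) v)
  have lrho : IsLocallyConstant (fun g : Γ => ρ g) := by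
    have h1 := lc_Phi p φ hφ 1
    have h2 : (fun g : Γ => ρ g) = (fun x => rhoGL (redP p 1 le_rfl) x) ∘ Phi p φ 1 := by
      funext g
      apply LinearMap.ext
      intro v
      have : Matrix.GeneralLinearGroup.map (redP p 1 le_rfl) (Phi p φ 1 g) =
          Matrix.GeneralLinearGroup.map (PadicInt.toZMod (p := p)) (φ g) := by
        apply Matrix.GeneralLinearGroup.ext
        intro i j
        exact redP_comp p 1 le_rfl _
      show _ = Matrix.mulVecLin ((Matrix.GeneralLinearGroup.map (redP p 1 le_rfl) (Phi p φ 1 g) :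
        GL κ (ZMod p)) : Matrix κ κ (ZMod p)) v
      rw [this]
      rfl
    rw [h2]
    exact h1.comp _
  have ldd : ∀ {F : Γ → (κ → ZMod p)}, IsLocallyConstant F →
      IsLocallyConstant (fun x : Γ × Γ => dd ρ F x.1 x.2) := by
    intro F hF
    have a1 := lrho.comp_continuous (f := fun x : Γ × Γ => x.1) (by fun_prop)
    have a2 := hF.comp_continuous (f := fun x : Γ × Γ => x.2) (by fun_prop)
    have a3 := hF.comp_continuous (f := fun x : Γ × Γ => x.1) (by fun_prop)
    have a4 := hF.comp_continuous (f := fun x : Γ × Γ => x.1 * x.2) (by fun_prop)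
    rw [lc_iff] at a1 a2 a3 a4 ⊢
    intro x
    filter_upwards [a1 x, a2 x, a3 x, a4 x] with y b1 b2 b3 b4
    simp only [Function.comp_apply] at b1 b2 b3 b4
    unfold dd
    rw [b1, b2, b3, b4]
  have lsub : ∀ {Y : Type} [TopologicalSpace Y] {F F' : Y → (κ → ZMod p)}, IsLocallyConstant F →
      IsLocallyConstant F' → IsLocallyConstant (fun y => F y - F' y) := by
    intro Y _ F F' h h'
    exact h.comp₂ h' (fun a b => a - b)
  have ladd : ∀ {Y : Type} [TopologicalSpace Y] {F F' : Y → (κ → ZMod p)}, IsLocallyConstant F →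
      IsLocallyConstant F' → IsLocallyConstant (fun y => F y + F' y) := by
    intro Y _ F F' h h'
    exact h.comp₂ h' (fun a b => a + b)
  have lc0 : IsLocallyConstant c0 := by
    refine ladd lav1 ?_
    unfold av2
    apply lsmul
    apply lc_sum
    intro z
    exact (lsub hcont (ldd lav1)).comp_continuous (f := fun g : Γ => (g, (z : Γ)))
      (by fun_prop)
  have lf' : IsLocallyConstant (fun x : Γ × Γ => f' x.1 x.2) := lsub hcont (ldd lc0)
  -- `f'` factors through `φ`
  have hinv1 : ∀ z ∈ φ.ker, ∀ g h, f' (z * g) h = f' g h := by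
    intro z hz g h
    have := hf' z g h
    rw [(hZ' z hz _).1, (hZ' z hz _).1, add_zero, add_zero, hρker z hz] at this
    exact this.symm
  have hinv2 : ∀ z ∈ φ.ker, ∀ g h, f' g (h * z) = f' g h := by
    intro z hz g h
    have := hf' g h z
    rw [(hZ' z hz _).2, (hZ' z hz _).2, map_zero, zero_add, zero_add] at this
    exact this
  have hfac : ∀ g h g' h', φ g = φ g' → φ h = φ h' → f' g h = f' g' h' := by
    intro g h g' h' h1 h2
    have e1 : g = (g * g'⁻¹) * g' := by group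
    have e2 : h = h' * (h'⁻¹ * h) := by group
    have m1 : g * g'⁻¹ ∈ φ.ker := by
      rw [MonoidHom.mem_ker, map_mul, map_inv, h1, mul_inv_cancel]
    have m2 : h'⁻¹ * h ∈ φ.ker := by
      rw [MonoidHom.mem_ker, map_mul, map_inv, h2, inv_mul_cancel]
    rw [e1, hinv1 _ m1, e2, hinv2 _ m2]
  obtain ⟨k, hk, hlev⟩ := exists_level p φ hφ f' lf' hfac
  -- the cocycle on the finite group
  let H : Subgroup (GL κ (ZMod (p ^ (k + 1)))) :=
    φ.range.map (Matrix.GeneralLinearGroup.map (PadicInt.toZModPow (k + 1)))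
  have hmem : ∀ g, Phi p φ (k + 1) g ∈ H := fun g => ⟨φ g, ⟨g, rfl⟩, rfl⟩
  have hex : ∀ x : H, ∃ g, Phi p φ (k + 1) g = x.1 := by
    rintro ⟨x, y, ⟨g, rfl⟩, rfl⟩
    exact ⟨g, rfl⟩
  choose γ hγ using hex
  let fH : H → H → (κ → ZMod p) := fun x y => f' (γ x) (γ y)
  have hfH : ∀ g h, fH ⟨Phi p φ (k + 1) g, hmem g⟩ ⟨Phi p φ (k + 1) h, hmem h⟩ = f' g h := by
    intro g h
    apply hlev
    · exact Phi_succ p φ (hγ _)
    · exact Phi_succ p φ (hγ _)
  have hρH : ∀ g, rhoSub p (k + 1) (by omega) H ⟨Phi p φ (k + 1) g, hmem g⟩ = ρ g := by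
    intro g
    apply LinearMap.ext
    intro v
    have : Matrix.GeneralLinearGroup.map (redP p (k + 1) (by omega)) (Phi p φ (k + 1) g) =
        Matrix.GeneralLinearGroup.map (PadicInt.toZMod (p := p)) (φ g) := by
      apply Matrix.GeneralLinearGroup.ext
      intro i j
      exact redP_comp p (k + 1) (by omega) _
    show Matrix.mulVecLin ((Matrix.GeneralLinearGroup.map (redP p (k + 1) (by omega))
      (Phi p φ (k + 1) g) : GL κ (ZMod p)) : Matrix κ κ (ZMod p)) v = _
    rw [this]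
    rfl
  have hmulH : ∀ g h, (⟨Phi p φ (k + 1) (g * h), hmem (g * h)⟩ : H) =
      ⟨Phi p φ (k + 1) g, hmem g⟩ * ⟨Phi p φ (k + 1) h, hmem h⟩ := by
    intro g h
    apply Subtype.ext
    exact map_mul (Phi p φ (k + 1)) g h
  have hrep : ∀ x : H, x = ⟨Phi p φ (k + 1) (γ x), hmem (γ x)⟩ := by
    intro x
    apply Subtype.ext
    exact (hγ x).symm
  have hcocH : IsCocycle (rhoSub p (k + 1) (by omega) H) fH := by
    intro x y z
    rw [hrep x, hrep y, hrep z, ← hmulH, ← hmulH, hfH, hfH, hfH, hfH, hρH]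
    exact hf' _ _ _
  obtain ⟨cH, hcH⟩ := hlevel k hk H rfl fH hcocH (by
    intro g h g' h' h1 h2
    apply hlev
    · have e1 := h1
      unfold SameMod at e1
      rw [← hγ g, ← hγ g'] at e1
      rw [Phi_eq_iff]
      intro i j
      have e2 := congrArg (fun M : GL κ (ZMod (p ^ k)) =>
        (M : Matrix κ κ (ZMod (p ^ k))) i j) e1
      have e3 := PadicInt.zmod_cast_comp_toZModPow (p := p) k (k + 1) (Nat.le_succ k)
      rw [← e3]
      exact e2
    · have e1 := h2
      unfold SameMod at e1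
      rw [← hγ h, ← hγ h'] at e1
      rw [Phi_eq_iff]
      intro i j
      have e2 := congrArg (fun M : GL κ (ZMod (p ^ k)) =>
        (M : Matrix κ κ (ZMod (p ^ k))) i j) e1
      have e3 := PadicInt.zmod_cast_comp_toZModPow (p := p) k (k + 1) (Nat.le_succ k)
      rw [← e3]
      exact e2)
  refine ⟨fun g => cH ⟨Phi p φ (k + 1) g, hmem g⟩ + c0 g, ?_, ?_⟩
  · refine ladd ?_ lc0
    have h1 : IsLocallyConstant (fun g => (⟨Phi p φ (k + 1) g, hmem g⟩ : H)) := by
      have := lc_Phi p φ hφ (k + 1)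
      rw [lc_iff] at this ⊢
      intro x
      filter_upwards [this x] with y hy
      exact Subtype.ext hy
    exact h1.comp cH
  · intro g h
    have h1 := hcH ⟨Phi p φ (k + 1) g, hmem g⟩ ⟨Phi p φ (k + 1) h, hmem h⟩
    rw [hfH, hρH, ← hmulH] at h1
    have h2 : f g h = f' g h + dd ρ c0 g h := by simp only [f']; abel
    rw [h2, h1]
    unfold dd
    simp only [map_add]
    abel

end Pool.Agent.T2H35.Chev
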