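import Pool.Agent.T2H35.Chev.Build
import Pool.Agent.T2H35.Chev.Finite
import Pool.Agent.T2H35.Chev.Top

/-! Assembly -/

namespace Pool.Agent.T2H35.Chev

open Module

set_option linter.unusedSectionVars false
set_option linter.unusedVariables false

variable {ι V W : Type} [Fintype ι] [DecidableEq ι] [AddCommGroup V] [Module ℚ V]
  [AddCommGroup W] [Module ℚ W]

lemma zmod_local {p n : ℕ} [Fact p.Prime] (hn : 1 ≤ n) (r : ZMod (p ^ n))
    (h : redP p n hn r ≠ 0) : IsUnit r := by
  have hp : p.Prime := Fact.out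
  have : NeZero (p ^ n) := ⟨pow_ne_zero _ hp.ne_zero⟩
  rw [← ZMod.natCast_zmod_val r] at h ⊢
  rw [ZMod.isUnit_iff_coprime]
  rw [map_natCast, ne_eq, ZMod.natCast_eq_zero_iff] at h
  exact Nat.Coprime.pow_right _ ((Nat.Prime.coprime_iff_not_dvd hp).mpr h).symm

/-- reduction of a topological closure -/
lemma map_topologicalClosure {κ : Type} [Fintype κ] [DecidableEq κ] (p n : ℕ) [Fact p.Prime]
    (H : Subgroup (GL κ ℤ_[p])) :
    H.topologicalClosure.map (Matrix.GeneralLinearGroup.map (PadicInt.toZModPow n)) =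
      H.map (Matrix.GeneralLinearGroup.map (PadicInt.toZModPow n)) := by
  apply le_antisymm
  · rintro _ ⟨g, hg, rfl⟩
    have h1 := lc_Phi p (MonoidHom.id (GL κ ℤ_[p])) continuous_id n
    rw [lc_iff] at h1
    have h2 : g ∈ closure (H : Set (GL κ ℤ_[p])) := hg
    rw [mem_closure_iff_frequently] at h2
    obtain ⟨g', hg', h3⟩ := (h2.and_eventually (h1 g)).exists
    exact ⟨g', hg', h3⟩
  · exact Subgroup.map_mono H.le_topologicalClosure

/-- Assembly, given the group-level facts. -/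
theorem main_of (P : RootPairing ι ℚ V W) [P.IsCrystallographic] [P.IsReduced]
    [P.IsRootSystem] [P.IsIrreducible] (hrank : 2 ≤ Module.finrank ℚ V) (b : P.Base)
    {L : Type} [LieRing L] (B : ChevalleyBasis P b L) (p : ℕ) [Fact p.Prime] (hp' : 60 < p)
    (hCG : ∀ n (hn : 1 ≤ n), ∃ C : CG P b (ZMod (p ^ n)) (ZMod p) (redP p n hn)
      (B.Gad (ZMod (p ^ n))) (rhoSub p n hn (B.Gad (ZMod (p ^ n)))),
        ∀ i s, (C.x i s).1.1 = B.xMat (ZMod (p ^ n)) i s)
    {Γ : Type} [Group Γ] [TopologicalSpace Γ] [IsTopologicalGroup Γ] [CompactSpace Γ]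
    (φ : Γ →* GL (b.support ⊕ ι) ℤ_[p]) (hφ : Continuous φ)
    (hrange : φ.range = (B.Gad ℤ_[p]).topologicalClosure)
    (hfin : Finite φ.ker) (hker : (Nat.card φ.ker).Coprime p)
    (f : Γ → Γ → ((b.support ⊕ ι) → ZMod p))
    (hcont : IsLocallyConstant (fun x : Γ × Γ => f x.1 x.2))
    (hf : IsCocycle ((rhoGL (PadicInt.toZMod (p := p))).comp φ) f) :
    ∃ c : Γ → ((b.support ⊕ ι) → ZMod p), IsLocallyConstant c ∧
      IsCobdOf ((rhoGL (PadicInt.toZMod (p := p))).comp φ) f c := by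
  refine topological p φ hφ hfin hker ?_ f hcont hf
  intro k hk H hH fH hcoc hinf
  rw [hrange, map_topologicalClosure, map_Gad P b B p (k + 1) (by omega) hp'] at hH
  subst hH
  obtain ⟨C, hC⟩ := hCG (k + 1) (by omega)
  have h2 : (2 : ZMod p) ≠ 0 := by
    have : ((2 : ℕ) : ZMod p) ≠ 0 := by
      rw [ne_eq, ZMod.natCast_eq_zero_iff]
      intro h
      have := Nat.le_of_dvd (by norm_num) h
      omega
    simpa using this
  have h3 : (3 : ZMod p) ≠ 0 := by
    have : ((3 : ℕ) : ZMod p) ≠ 0 := by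
      rw [ne_eq, ZMod.natCast_eq_zero_iff]
      intro h
      have := Nat.le_of_dvd (by norm_num) h
      omega
    simpa using this
  exact split_of_CG C hcoc (fun s => ZMod.intCast_surjective s) (fun r => zmod_local (by omega) r)
    h2 h3 (exists_decomp P hrank) (hroot_of_inflated P b B p k C hC fH hcoc hinf)

end Pool.Agent.T2H35.Chev
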