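import Pool.Agent.T2H35.Chev.Expo2

/-! Normalisation of the lifts by the elements `w_c` -/

namespace Pool.Agent.T2H35.Chev

open Module

set_option linter.unusedSectionVars false
set_option linter.unusedVariables false

variable {ι V W : Type} [Fintype ι] [DecidableEq ι] [AddCommGroup V] [Module ℚ V]
  [AddCommGroup W] [Module ℚ W] {P : RootPairing ι ℚ V W} [P.IsCrystallographic] {b : P.Base}
  {R K : Type} [CommRing R] [Field K] {red : R →+* K} {G : Type} [Group G]
  {ρ : G →* (((b.support ⊕ ι) → K) →ₗ[K] ((b.support ⊕ ι) → K))}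

variable {C : CG P b R K red G ρ} {E : Type} [Group E]

lemma refl_self_neg (c : ι) : P.reflectionPerm c (neg P c) = c := by
  simp [neg]

lemma ne_neg_self (c : ι) : c ≠ neg P c := by
  intro h
  have h1 : P.root c = - P.root c := by rw [← root_neg, ← h]
  have h2 : (2 : ℚ) • P.root c = 0 := by rw [two_smul]; nth_rewrite 2 [h1]; abel
  rcases smul_eq_zero.mp h2 with h3 | h3
  · norm_num at h3
  · exact P.ne_zero c h3

lemma refl_neg (d c : ι) : P.reflectionPerm d (neg P c) = neg P (P.reflectionPerm d c) := by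
  apply P.root.injective
  rw [root_neg, P.root_reflectionPerm, root_neg, map_neg, P.root_reflectionPerm]

/-- decomposition of a vector -/
lemma vec_decomp (m : (b.support ⊕ ι) → K) : m = (fun k => Sum.elim (fun j => m (Sum.inl j))
    (fun _ => (0 : K)) k) + ∑ i, m (Sum.inr i) • ev b K i := by
  funext k
  rw [Pi.add_apply, Finset.sum_apply]
  cases k with
  | inl j => simp [ev]
  | inr i => simp [ev, Pi.single_apply]

namespace CG

variable (C)

/-- components of `n_d m` -/
lemma nn_comp (d i : ι) (m : (b.support ⊕ ι) → K) :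
    ρ (C.nn d) m (Sum.inr (P.reflectionPerm d i)) = (C.η d i : K) * m (Sum.inr i) := by
  set m0 : (b.support ⊕ ι) → K := fun k => Sum.elim (fun j => m (Sum.inl j)) (fun _ => (0 : K)) k
    with hm0
  have h1 : ρ (C.nn d) m0 = m0 - rootFun P b d m0 • C.hvec d := C.n_cartan d m0 (by simp [hm0])
  conv_lhs => rw [vec_decomp m]
  rw [map_add, Pi.add_apply, h1, map_sum, Finset.sum_apply]
  have h2 : (m0 - rootFun P b d m0 • C.hvec d) (Sum.inr (P.reflectionPerm d i)) = 0 := by
    rw [Pi.sub_apply, Pi.smul_apply, C.hvec_cartan]; simp [hm0]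
  rw [h2, zero_add]
  rw [Finset.sum_eq_single i]
  · rw [map_smul, Pi.smul_apply]
    have := C.n_e d i
    unfold nn
    rw [this]
    simp [mul_comm]
  · intro i' _ hi'
    rw [map_smul, Pi.smul_apply]
    have := C.n_e d i'
    unfold nn
    rw [this]
    have : P.reflectionPerm d i ≠ P.reflectionPerm d i' := fun h =>
      hi' ((P.reflectionPerm d).injective h).symm
    simp [Pi.single_apply, this]
  · simp

end CG

namespace Lifts

variable {X : ExtData C E} (L : Lifts C X)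

/-- the lift `w_c` -/
def wl (c : ι) : E := L.y c 1 * L.y (neg P c) (-1) * L.y c 1

lemma π_wl (c : ι) : X.π (L.wl c) = C.nn c := by
  simp only [wl, map_mul, L.π_y, CG.nn]

/-- the defect of `w_c` -/
noncomputable def mv (c : ι) : (b.support ⊕ ι) → K :=
  (X.eq_of_π (g := L.wl c) (h := X.nt c) (by rw [L.π_wl, X.π_nt])).choose

lemma wl_eq (c : ι) : L.wl c = X.j (L.mv c) * X.nt c :=
  (X.eq_of_π (g := L.wl c) (h := X.nt c) (by rw [L.π_wl, X.π_nt])).choose_spec

lemma nt_self (c : ι) (s : R) : X.nt c * L.y c s * (X.nt c)⁻¹ = L.y (neg P c) (-s) := by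
  rw [L.y_n, C.η_self]; simp

lemma nt_neg (c : ι) (s : R) : X.nt c * L.y (neg P c) s * (X.nt c)⁻¹ = L.y c (-s) := by
  rw [L.y_n, refl_self_neg, C.η_neg, C.η_self]; simp

lemma nt_Y (c i : ι) (a : R × K) : X.nt c * L.Y i a * (X.nt c)⁻¹ =
    L.Y (P.reflectionPerm c i) (C.η c i * a.1, C.η c i * a.2) := by
  unfold Y
  have h1 := X.conj (X.nt c) (a.2 • ev b K i)
  have h2 := L.y_n c i a.1
  rw [X.π_nt, map_smul] at h1
  have h3 : ρ (C.nn c) (ev b K i) = (C.η c i : K) • ev b K (P.reflectionPerm c i) := C.n_e c i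
  rw [h3, smul_smul, mul_comm] at h1
  simp only
  rw [← h1, ← h2]
  group

/-- conj by the lift of a torus element -/
def TAct (T : E) (w : (b.support ⊕ ι) → ℤ) : Prop :=
  (∀ i s, T * L.y i s * T⁻¹ = L.y i (((C.q ^ (w (Sum.inr i)) : Rˣ) : R) * s)) ∧
    (∀ m, ρ (X.π T) m = fun k => red ((C.q ^ (w k) : Rˣ) : R) * m k)

lemma TAct_tt (e : ι) : L.TAct (X.tt e) (fun k => wtp P b k e) := by
  refine ⟨fun i s => L.y_t e i s, fun m => ?_⟩
  rw [X.π_tt, C.t_act]

lemma TAct_mul {T T' : E} {w w' : (b.support ⊕ ι) → ℤ} (h : L.TAct T w) (h' : L.TAct T' w') :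
    L.TAct (T * T') (w + w') := by
  refine ⟨fun i s => ?_, fun m => ?_⟩
  · have : T * T' * L.y i s * (T * T')⁻¹ = T * (T' * L.y i s * T'⁻¹) * T⁻¹ := by group
    rw [this, h'.1, h.1, Pi.add_apply, zpow_add, Units.val_mul, mul_assoc]
  · rw [map_mul, map_mul, Module.End.mul_apply, h'.2, h.2]
    funext k
    rw [Pi.add_apply, zpow_add, Units.val_mul, map_mul, mul_assoc]

lemma TAct_inv {T : E} {w : (b.support ⊕ ι) → ℤ} (h : L.TAct T w) : L.TAct T⁻¹ (-w) := by
  refine ⟨fun i s => ?_, fun m => ?_⟩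
  · have h1 := h.1 i (((C.q ^ (-w (Sum.inr i)) : Rˣ) : R) * s)
    rw [← mul_assoc, ← Units.val_mul, ← zpow_add, add_neg_cancel, zpow_zero, Units.val_one,
      one_mul] at h1
    rw [← h1, Pi.neg_apply]
    group
  · have h1 := h.2 (fun k => red ((C.q ^ (-w k) : Rˣ) : R) * m k)
    have h2 : (fun k => red ((C.q ^ (w k) : Rˣ) : R) *
        (red ((C.q ^ (-w k) : Rˣ) : R) * m k)) = m := by
      funext k
      rw [← mul_assoc, ← map_mul, ← Units.val_mul, ← zpow_add, add_neg_cancel, zpow_zero,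
        Units.val_one, map_one, one_mul]
    rw [h2] at h1
    have h3 : ρ (X.π T⁻¹) m = ρ (X.π T⁻¹) (ρ (X.π T)
        (fun k => red ((C.q ^ (-w k) : Rˣ) : R) * m k)) := by rw [h1]
    rw [h3, ← Module.End.mul_apply, ← map_mul, ← map_mul, inv_mul_cancel, map_one, map_one]
    rfl

lemma TAct_zpow {T : E} {w : (b.support ⊕ ι) → ℤ} (h : L.TAct T w) (z : ℤ) :
    L.TAct (T ^ z) (z • w) := by
  induction z using Int.induction_on with
  | zero =>
    refine ⟨fun i s => by simp, fun m => ?_⟩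
    funext k; simp
  | succ n ih =>
    rw [zpow_add_one, add_smul, one_smul]
    exact L.TAct_mul ih h
  | pred n ih =>
    rw [zpow_sub_one, sub_smul, one_smul, sub_eq_add_neg]
    exact L.TAct_mul ih (L.TAct_inv h)

variable [P.IsReduced]

/-- the defect is supported on the Cartan part and `±c` -/
lemma mv_other {c d : ι} (h : d ≠ c) (h' : d ≠ neg P c) : L.mv c (Sum.inr d) = 0 := by
  set z := P.pairingIn ℤ c d with hz
  set τ : C.N := ⟨C.t d, C.t_mem d⟩ * ⟨C.t d, C.t_mem d⟩ * ⟨C.t c, C.t_mem c⟩ ^ (-z) with hτ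
  have hT : X.σ τ = X.tt d * X.tt d * (X.tt c) ^ (-z) := by
    simp only [hτ, map_mul, map_zpow, ExtData.tt]
  have hact : L.TAct (X.σ τ) (fun k => 2 * wtp P b k d - z * wtp P b k c) := by
    rw [hT]
    convert L.TAct_mul (L.TAct_mul (L.TAct_tt d) (L.TAct_tt d)) (L.TAct_zpow (L.TAct_tt c) (-z))
      using 1
    funext k
    simp only [Pi.add_apply, Pi.smul_apply, smul_eq_mul]
    ring
  have hwc : (fun k => 2 * wtp P b k d - z * wtp P b k c) (Sum.inr c) = 0 := by
    simp only [wtp, Sum.elim_inr, P.pairingIn_same, hz]; ring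
  have hwnc : (fun k => 2 * wtp P b k d - z * wtp P b k c) (Sum.inr (neg P c)) = 0 := by
    simp only [wtp, Sum.elim_inr, neg, P.pairingIn_reflectionPerm_self_left, P.pairingIn_same, hz]
    ring
  have hc : ∀ s, X.σ τ * L.y c s * (X.σ τ)⁻¹ = L.y c s := by
    intro s; rw [hact.1, hwc]; simp
  have hnc : ∀ s, X.σ τ * L.y (neg P c) s * (X.σ τ)⁻¹ = L.y (neg P c) s := by
    intro s; rw [hact.1, hwnc]; simp
  have hG1 : ∀ s, (τ : G) * C.x c s * (τ : G)⁻¹ = C.x c s := by
    intro s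
    have := congrArg X.π (hc s)
    simpa only [map_mul, map_inv, L.π_y, X.π_σ] using this
  have hG2 : ∀ s, (τ : G) * C.x (neg P c) s * (τ : G)⁻¹ = C.x (neg P c) s := by
    intro s
    have := congrArg X.π (hnc s)
    simpa only [map_mul, map_inv, L.π_y, X.π_σ] using this
  have hG3 : (τ : G) * C.nn c * (τ : G)⁻¹ = C.nn c := by
    unfold CG.nn
    conv_rhs => rw [← hG1 1, ← hG2 (-1)]
    group
  have hσ : X.σ τ * X.nt c * (X.σ τ)⁻¹ = X.nt c := by
    unfold ExtData.nt
    rw [← map_mul, ← map_inv, ← map_mul]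
    congr 1
    exact Subtype.ext hG3
  have hwl : X.σ τ * L.wl c * (X.σ τ)⁻¹ = L.wl c := by
    unfold wl
    conv_rhs => rw [← hc 1, ← hnc (-1)]
    group
  rw [L.wl_eq] at hwl
  have h1 : X.σ τ * (X.j (L.mv c) * X.nt c) * (X.σ τ)⁻¹ =
      X.j (ρ (X.π (X.σ τ)) (L.mv c)) * X.nt c := by
    rw [← X.conj]
    nth_rewrite 2 [← hσ]
    group
  rw [h1] at hwl
  have h2 := X.j_inj (mul_right_cancel hwl)
  rw [hact.2] at h2
  have h3 := congrFun h2 (Sum.inr d)
  simp only [wtp, Sum.elim_inr, P.pairingIn_same] at h3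
  by_contra hne
  have h4 : red ((C.q ^ (2 * 2 - z * P.pairingIn ℤ d c) : Rˣ) : R) = 1 := by
    have : red ((C.q ^ (2 * 2 - z * P.pairingIn ℤ d c) : Rˣ) : R) * L.mv c (Sum.inr d) =
        1 * L.mv c (Sum.inr d) := by rw [one_mul]; exact h3
    exact mul_right_cancel₀ hne this
  have h5 : P.root c ≠ - P.root d := by
    intro h0
    apply h'
    apply P.root.injective
    rw [root_neg, h0, neg_neg]
  have h6 := four_sub_pos P (Ne.symm h) h5
  have h7 := four_sub_le P (Ne.symm h) h5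
  refine C.q_ne (2 * 2 - z * P.pairingIn ℤ d c) ?_ ?_ h4
  · rw [hz]; omega
  · rw [hz, abs_le]; constructor <;> omega

/-- `m = x_c(1) n_c m` -/
lemma mv_fix (c : ι) : ρ (C.x c 1) (ρ (C.nn c) (L.mv c)) = L.mv c := by
  have e1 : X.nt c * L.y c 1 * (X.nt c)⁻¹ = L.y (neg P c) (-1) := L.nt_self c 1
  have e2 : X.nt c * L.y (neg P c) (-1) * (X.nt c)⁻¹ = L.y c 1 := by
    rw [L.nt_neg, neg_neg]
  have e3 : L.y (neg P c) (-1) * L.y c 1 * L.y (neg P c) (-1) =
      X.j (ρ (C.nn c) (L.mv c)) * X.nt c := by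
    have : L.y (neg P c) (-1) * L.y c 1 * L.y (neg P c) (-1) =
        X.nt c * L.wl c * (X.nt c)⁻¹ := by
      have f : X.nt c * L.wl c * (X.nt c)⁻¹ = (X.nt c * L.y c 1 * (X.nt c)⁻¹) *
          (X.nt c * L.y (neg P c) (-1) * (X.nt c)⁻¹) * (X.nt c * L.y c 1 * (X.nt c)⁻¹) := by
        unfold wl; group
      rw [f, e1, e2]
    rw [this, L.wl_eq, ← X.π_nt, ← X.conj]
    group
  have e4 : L.y c 1 * (L.y (neg P c) (-1) * L.y c 1 * L.y (neg P c) (-1)) =
      L.wl c * L.y (neg P c) (-1) := by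
    unfold wl; group
  rw [e3, L.wl_eq] at e4
  have e5 : L.y c 1 * (X.j (ρ (C.nn c) (L.mv c)) * X.nt c) =
      X.j (ρ (C.x c 1) (ρ (C.nn c) (L.mv c))) * (L.y c 1 * X.nt c) := by
    rw [← L.π_y, ← X.conj]; group
  have e6 : X.j (L.mv c) * X.nt c * L.y (neg P c) (-1) = X.j (L.mv c) * (L.y c 1 * X.nt c) := by
    rw [← e2]; group
  rw [e5, e6] at e4
  exact X.j_inj (mul_right_cancel e4)

lemma mv_decomp (c : ι) : L.mv c = (fun k => Sum.elim (fun j => L.mv c (Sum.inl j))
    (fun _ => (0 : K)) k) + L.mv c (Sum.inr c) • ev b K c +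
      L.mv c (Sum.inr (neg P c)) • ev b K (neg P c) := by
  funext k
  cases k with
  | inl j => simp [ev]
  | inr i =>
    by_cases h1 : i = c
    · subst h1
      have : ¬ (Sum.inr i : b.support ⊕ ι) = Sum.inr (neg P i) := by
        intro h; exact ne_neg_self i (Sum.inr.inj h)
      simp [ev, Pi.single_apply, this]
    · by_cases h2 : i = neg P c
      · subst h2
        simp [ev, Pi.single_apply, h1]
      · rw [L.mv_other h1 h2]
        simp [ev, Pi.single_apply, h1, h2]

lemma mv_rel (c : ι) : L.mv c (Sum.inr (neg P c)) = - L.mv c (Sum.inr c) ∧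
    rootFun P b c (L.mv c) = L.mv c (Sum.inr (neg P c)) := by
  set m0 : (b.support ⊕ ι) → K :=
    fun k => Sum.elim (fun j => L.mv c (Sum.inl j)) (fun _ => (0 : K)) k with hm0
  set u := L.mv c (Sum.inr c) with hu
  set v := L.mv c (Sum.inr (neg P c)) with hv
  have hg : rootFun P b c m0 = rootFun P b c (L.mv c) := by
    simp [rootFun, hm0]
  set g := rootFun P b c (L.mv c) with hgd
  have h1 : ρ (C.nn c) m0 = m0 - g • C.hvec c := by
    rw [← hg]; exact C.n_cartan c m0 (by simp [hm0])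
  have h2 : ρ (C.nn c) (ev b K c) = - ev b K (neg P c) := by
    have := C.n_e c c
    rw [C.η_self] at this
    unfold CG.nn
    rw [this]; simp
  have h3 : ρ (C.nn c) (ev b K (neg P c)) = - ev b K c := by
    have := C.n_e c (neg P c)
    rw [C.η_neg, C.η_self, refl_self_neg] at this
    unfold CG.nn
    rw [this]; simp
  have h4 : ρ (C.nn c) (L.mv c) = (m0 - g • C.hvec c) - u • ev b K (neg P c) - v • ev b K c := by
    conv_lhs => rw [L.mv_decomp c]
    rw [map_add, map_add, map_smul, map_smul, h1, h2, h3, smul_neg, smul_neg, ← sub_eq_add_neg,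
      ← sub_eq_add_neg]
  have h5 : ρ (C.x c 1) (m0 - g • C.hvec c) = m0 - g • C.hvec c + g • ev b K c := by
    rw [C.act_cartan c 1 _ (by intro i; rw [Pi.sub_apply, Pi.smul_apply, C.hvec_cartan];
                               simp [hm0])]
    have : rootFun P b c (m0 - g • C.hvec c) = - g := by
      have e1 : rootFun P b c (m0 - g • C.hvec c) =
          rootFun P b c m0 - g * rootFun P b c (C.hvec c) := by
        unfold rootFun
        rw [Finset.mul_sum, ← Finset.sum_sub_distrib]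
        apply Finset.sum_congr rfl
        intro j _
        simp only [Pi.sub_apply, Pi.smul_apply, smul_eq_mul]
        ring
      rw [e1, C.hvec_self, hg]; ring
    rw [this, map_one, one_mul, neg_smul, sub_neg_eq_add]
  have h6 : ρ (C.x c 1) (ev b K (neg P c)) = ev b K (neg P c) + C.hvec c - ev b K c := by
    have := C.act_opp c 1
    rw [map_one, one_pow, one_smul, one_smul] at this
    exact this
  have h7 := L.mv_fix c
  rw [h4, map_sub, map_sub, map_smul, map_smul, h5, h6, C.x_ev] at h7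
  have hne : ¬ (Sum.inr (neg P c) : b.support ⊕ ι) = Sum.inr c := by
    intro h; exact ne_neg_self c (Sum.inr.inj h).symm
  have hne' : ¬ (Sum.inr c : b.support ⊕ ι) = Sum.inr (neg P c) := by
    intro h; exact ne_neg_self c (Sum.inr.inj h)
  have e1 := congrFun h7 (Sum.inr (neg P c))
  have e2 := congrFun h7 (Sum.inr c)
  simp only [Pi.sub_apply, Pi.add_apply, Pi.smul_apply, C.hvec_cartan, hm0, Sum.elim_inr, ev,
    Pi.single_apply, if_neg hne, if_neg hne', if_true, smul_eq_mul, ← hv, ← hu] at e1 e2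
  constructor
  · linear_combination -e1
  · linear_combination e2

lemma nt_conj_nt_pos {d c : ι} (hη : C.η d c = 1) :
    X.nt d * X.nt c * (X.nt d)⁻¹ = X.nt (P.reflectionPerm d c) := by
  unfold ExtData.nt
  rw [← map_mul, ← map_inv, ← map_mul]
  congr 1
  apply Subtype.ext
  show C.nn d * C.nn c * (C.nn d)⁻¹ = C.nn (P.reflectionPerm d c)
  have h1 := C.n_conj d c 1
  have h2 := C.n_conj d (neg P c) (-1)
  rw [refl_neg, C.η_neg] at h2
  rw [hη] at h1 h2
  simp only [Int.cast_one, one_mul] at h1 h2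
  unfold CG.nn
  rw [← h1, ← h2]
  group

lemma nt_conj_nt_neg {d c : ι} (hη : C.η d c = -1) :
    X.nt d * X.nt c * (X.nt d)⁻¹ = (X.nt (P.reflectionPerm d c))⁻¹ := by
  unfold ExtData.nt
  rw [← map_mul, ← map_inv, ← map_mul, ← map_inv]
  congr 1
  apply Subtype.ext
  show C.nn d * C.nn c * (C.nn d)⁻¹ = (C.nn (P.reflectionPerm d c))⁻¹
  have h1 := C.n_conj d c 1
  have h2 := C.n_conj d (neg P c) (-1)
  rw [refl_neg, C.η_neg] at h2
  rw [hη] at h1 h2
  simp only [Int.cast_neg, Int.cast_one, mul_one, mul_neg, neg_neg] at h1 h2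
  have h3 : (C.nn (P.reflectionPerm d c))⁻¹ = C.x (P.reflectionPerm d c) (-1) *
      C.x (neg P (P.reflectionPerm d c)) 1 * C.x (P.reflectionPerm d c) (-1) := by
    unfold CG.nn
    rw [mul_inv_rev, mul_inv_rev, C.x_neg, C.x_neg, neg_neg, mul_assoc]
  rw [h3, ← h1, ← h2]
  unfold CG.nn
  group

/-- invariance of the `-c` component of the defect -/
lemma mv_inv (d c : ι) : L.mv (P.reflectionPerm d c) (Sum.inr (neg P (P.reflectionPerm d c))) =
    L.mv c (Sum.inr (neg P c)) := by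
  set c' := P.reflectionPerm d c with hc'
  have h1 := L.y_n d c 1
  have h2 := L.y_n d (neg P c) (-1)
  rw [refl_neg, C.η_neg] at h2
  have e0 : X.nt d * L.wl c * (X.nt d)⁻¹ = X.j (ρ (C.nn d) (L.mv c)) *
      (X.nt d * X.nt c * (X.nt d)⁻¹) := by
    rw [L.wl_eq, ← X.π_nt, ← X.conj]; group
  rcases C.η_pm d c with hη | hη
  · rw [hη] at h1 h2
    simp only [Int.cast_one, one_mul] at h1 h2
    have e1 : X.nt d * L.wl c * (X.nt d)⁻¹ = L.wl c' := by
      unfold wl
      rw [hc', ← h1, ← h2]; group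
    rw [e1, nt_conj_nt_pos hη, L.wl_eq c'] at e0
    have e2 := X.j_inj (mul_right_cancel e0)
    rw [e2, hc', ← refl_neg, C.nn_comp, C.η_neg, hη]; simp
  · rw [hη] at h1 h2
    simp only [Int.cast_neg, Int.cast_one, mul_one, mul_neg, neg_neg] at h1 h2
    have e1 : X.nt d * L.wl c * (X.nt d)⁻¹ = (L.wl c')⁻¹ := by
      have h3 : (L.wl c')⁻¹ = L.y c' (-1) * L.y (neg P c') 1 * L.y c' (-1) := by
        unfold wl
        rw [mul_inv_rev, mul_inv_rev, L.y_neg, L.y_neg, neg_neg, mul_assoc]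
      rw [h3, hc', ← h1, ← h2]
      unfold wl; group
    rw [e1, nt_conj_nt_neg hη, L.wl_eq c', mul_inv_rev, X.j_neg] at e0
    have e2 : (X.nt c')⁻¹ * X.j (-L.mv c') = X.j (ρ (C.nn c')⁻¹ (-L.mv c')) * (X.nt c')⁻¹ := by
      rw [X.mul_j, map_inv, X.π_nt]
    rw [e2] at e0
    have e3 := X.j_inj (mul_right_cancel e0)
    have e4 : ρ (C.nn c') (ρ (C.nn d) (L.mv c)) = - L.mv c' := by
      rw [← e3, ← Module.End.mul_apply, ← map_mul, mul_inv_cancel, map_one]; rfl
    have e5 := congrFun e4 (Sum.inr (neg P c'))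
    have e6 : ρ (C.nn c') (ρ (C.nn d) (L.mv c)) (Sum.inr (neg P c')) =
        (C.η c' c' : K) * ρ (C.nn d) (L.mv c) (Sum.inr c') := C.nn_comp c' c' _
    have e7 : ρ (C.nn d) (L.mv c) (Sum.inr c') = (C.η d c : K) * L.mv c (Sum.inr c) :=
      C.nn_comp d c _
    rw [e6, e7, C.η_self, hη, Pi.neg_apply] at e5
    rw [(L.mv_rel c).1]
    push_cast at e5
    linear_combination e5

/-- twist of a family of lifts -/
def twist (μ : ι → K) (hμ : ∀ d c, μ (P.reflectionPerm d c) = μ c) : Lifts C X where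
  y i s := L.Y i (s, μ i * red s)
  y_add i s t := by
    rw [← L.Y_add]; congr 1
    ext
    · rfl
    · simp [mul_add]
  π_y i s := L.π_Y i _
  y_t e i s := by
    rw [L.tt_Y]
    simp only [map_mul]
    congr 2
    ring
  y_n c i s := by
    rw [L.nt_Y]
    simp only [map_mul, map_intCast, hμ]
    congr 2
    ring

/-- Normalised lifts exist. -/
theorem exists_normalised (L : Lifts C X) (h2 : (2 : K) ≠ 0) : ∃ L' : Lifts C X, ∀ c,
    (∀ i, L'.mv c (Sum.inr i) = 0) ∧ rootFun P b c (L'.mv c) = 0 := by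
  let μ : ι → K := fun c => L.mv c (Sum.inr (neg P c)) / 2
  have hμ : ∀ d c, μ (P.reflectionPerm d c) = μ c := fun d c => by
    simp only [μ, L.mv_inv d c]
  refine ⟨L.twist μ hμ, fun c => ?_⟩
  set L' := L.twist μ hμ with hL'
  have key : L'.mv c (Sum.inr (neg P c)) = 0 := by
    have hμc : μ (neg P c) = μ c := hμ c c
    have e1 : L'.wl c = L.Y c (1, μ c * red 1) * L.Y (neg P c) (-1, μ (neg P c) * red (-1)) *
        L.Y c (1, μ c * red 1) := rfl
    have e2 : L'.wl c = X.j (μ c • ev b K c - μ c • ρ (C.x c 1) (ev b K (neg P c)) +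
        μ c • ρ (C.x c 1) (ρ (C.x (neg P c) (-1)) (ev b K c))) * L.wl c := by
      rw [e1, hμc]
      unfold Y wl
      simp only [map_one, mul_one, map_neg, mul_neg]
      have f1 : L.y c 1 * X.j ((-μ c) • ev b K (neg P c)) * (L.y c 1)⁻¹ =
          X.j (-(μ c • ρ (C.x c 1) (ev b K (neg P c)))) := by
        rw [X.conj, L.π_y, map_smul, neg_smul]
      have f2 : (L.y c 1 * L.y (neg P c) (-1)) * X.j (μ c • ev b K c) *
          (L.y c 1 * L.y (neg P c) (-1))⁻¹ =
          X.j (μ c • ρ (C.x c 1) (ρ (C.x (neg P c) (-1)) (ev b K c))) := by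
        rw [X.conj, map_mul, L.π_y, L.π_y, map_smul, map_mul]; rfl
      rw [sub_eq_add_neg, X.j_add, X.j_add, ← f1, ← f2]
      group
    rw [L.wl_eq, L'.wl_eq, ← mul_assoc, ← X.j_add] at e2
    have e3 := X.j_inj (mul_right_cancel e2)
    have e4 := congrFun e3 (Sum.inr (neg P c))
    have hne : ¬ (Sum.inr (neg P c) : b.support ⊕ ι) = Sum.inr c := by
      intro h; exact ne_neg_self c (Sum.inr.inj h).symm
    have g1 : ρ (C.x c 1) (ev b K (neg P c)) (Sum.inr (neg P c)) = 1 := by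
      have := C.act_opp c 1
      have h0 := congrFun this (Sum.inr (neg P c))
      unfold ev
      rw [h0]
      simp [C.hvec_cartan, Pi.single_apply, hne]
    have g2 : ρ (C.x c 1) (ρ (C.x (neg P c) (-1)) (ev b K c)) (Sum.inr (neg P c)) = -1 := by
      have h0 := C.act_opp (neg P c) (-1)
      rw [neg_neg'] at h0
      unfold ev
      rw [h0, map_sub, map_add, map_smul, map_smul]
      have h3 : ρ (C.x c 1) (Pi.single (Sum.inr c) 1) = Pi.single (Sum.inr c) 1 := C.x_ev c 1
      have h4 := C.act_cartan c 1 (C.hvec (neg P c)) (C.hvec_cartan _)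
      rw [h3, h4]
      have h5 : ρ (C.x c 1) (Pi.single (Sum.inr (neg P c)) 1) (Sum.inr (neg P c)) = 1 := g1
      simp only [Pi.sub_apply, Pi.add_apply, Pi.smul_apply, h5, C.hvec_cartan, Pi.single_apply,
        if_neg hne, smul_eq_mul, map_neg, map_one]
      ring
    rw [Pi.add_apply, Pi.add_apply, Pi.sub_apply, Pi.smul_apply, Pi.smul_apply, Pi.smul_apply, g1,
      g2] at e4
    simp only [ev, Pi.single_apply, if_neg hne, smul_eq_mul, μ] at e4
    rw [e4]
    field_simp
    ring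
  have h1 := L'.mv_rel c
  refine ⟨?_, by rw [h1.2, key]⟩
  intro i
  by_cases hi : i = c
  · subst hi
    have := h1.1
    rw [key] at this
    exact (neg_eq_zero.mp this.symm)
  · by_cases hi' : i = neg P c
    · rw [hi']; exact key
    · exact L'.mv_other hi hi'

end Lifts

end Pool.Agent.T2H35.Chev
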