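import Pool.Agent.T2H35.Chev.Weyl

/-! Rank one Gauss decomposition -/

namespace Pool.Agent.T2H35.Chev

open Module

set_option linter.unusedSectionVars false
set_option linter.unusedVariables false

variable {ι V W : Type} [Fintype ι] [DecidableEq ι] [AddCommGroup V] [Module ℚ V]
  [AddCommGroup W] [Module ℚ W] {P : RootPairing ι ℚ V W} [P.IsCrystallographic] {b : P.Base}
  {R K : Type} [CommRing R] [Field K] {red : R →+* K} {G : Type} [Group G]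
  {ρ : G →* (((b.support ⊕ ι) → K) →ₗ[K] ((b.support ⊕ ι) → K))}

variable {C : CG P b R K red G ρ} {E : Type} [Group E]

namespace Lifts

variable {X : ExtData C E} (L : Lifts C X)

/-- the elements normalising all root subgroups -/
def Tor : Subgroup E where
  carrier := {h | ∀ i s, (∃ s', h * L.y i s * h⁻¹ = L.y i s') ∧
    (∃ s', h⁻¹ * L.y i s * h = L.y i s')}
  one_mem' := by
    intro i s
    exact ⟨⟨s, by simp⟩, ⟨s, by simp⟩⟩
  mul_mem' := by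
    intro g h hg hh i s
    constructor
    · obtain ⟨s1, h1⟩ := (hh i s).1
      obtain ⟨s2, h2⟩ := (hg i s1).1
      refine ⟨s2, ?_⟩
      rw [← h2, ← h1]; group
    · obtain ⟨s1, h1⟩ := (hg i s).2
      obtain ⟨s2, h2⟩ := (hh i s1).2
      refine ⟨s2, ?_⟩
      rw [← h2, ← h1]; group
  inv_mem' := by
    intro g hg i s
    constructor
    · obtain ⟨s1, h1⟩ := (hg i s).2
      exact ⟨s1, by rw [inv_inv]; exact h1⟩
    · obtain ⟨s1, h1⟩ := (hg i s).1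
      exact ⟨s1, by rw [inv_inv]; exact h1⟩

lemma Tor_left {h : E} (hh : h ∈ L.Tor) (i : ι) (s : R) : ∃ s', h * L.y i s = L.y i s' * h := by
  obtain ⟨s', hs⟩ := (hh i s).1
  exact ⟨s', by rw [← hs]; group⟩

lemma Tor_right {h : E} (hh : h ∈ L.Tor) (i : ι) (s : R) : ∃ s', L.y i s * h = h * L.y i s' := by
  obtain ⟨s', hs⟩ := (hh i s).2
  exact ⟨s', by rw [← hs]; group⟩

lemma Tor_D {h : E} (hh : h ∈ L.Tor) {Ψ : Set ι} {g : E} (hg : g ∈ L.D false Ψ) :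
    h * g * h⁻¹ ∈ L.D false Ψ := by
  refine L.D_false_gen (p := fun g => h * g * h⁻¹ ∈ L.D false Ψ) hg ?_ ?_ ?_
  · intro k hk s
    obtain ⟨s', hs⟩ := (hh k s).1
    rw [hs]; exact L.y_mem hk s'
  · rw [mul_one, mul_inv_cancel]; exact one_mem _
  · intro g _ g' _ h1 h2
    have : h * (g * g') * h⁻¹ = (h * g * h⁻¹) * (h * g' * h⁻¹) := by group
    rw [this]; exact mul_mem h1 h2

/-- monomial elements -/
def Mono (c : ι) (g : E) : Prop :=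
  ∀ i s, ∃ s', g * L.y i s * g⁻¹ = L.y (P.reflectionPerm c i) s'

lemma refl_refl_neg (c i : ι) : P.reflectionPerm (neg P c) i = P.reflectionPerm c i := by
  apply P.root.injective
  rw [P.root_reflectionPerm, P.root_reflectionPerm, P.reflection_apply, P.reflection_apply]
  rw [root_neg]
  have h1 : P.coroot' (neg P c) (P.root i) = - P.coroot' c (P.root i) := by
    rw [P.root_coroot'_eq_pairing, P.root_coroot'_eq_pairing, P.pairing_reflectionPerm_self_right]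
  rw [h1, neg_smul_neg]

variable [P.IsReduced] [P.IsRootSystem] (hR : ∀ s : R, ∃ z : ℤ, (z : R) = s)
  (hloc : ∀ r : R, red r ≠ 0 → IsUnit r)

variable {L} (hC : L.Comm) (hdec : ∀ i, ∃ α β, P.root i = P.root α + P.root β)

lemma Mono.mul {c : ι} {g g' : E} (h1 : L.Mono c g) (h1' : L.Mono c g⁻¹) (h2 : L.Mono c g')
    (h2' : L.Mono c g'⁻¹) : g * g' ∈ L.Tor := by
  have key : ∀ g g' : E, L.Mono c g → L.Mono c g' → ∀ i s,
      ∃ s', (g * g') * L.y i s * (g * g')⁻¹ = L.y i s' := by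
    intro g g' hg hg' i s
    obtain ⟨s1, e1⟩ := hg' i s
    obtain ⟨s2, e2⟩ := hg _ s1
    rw [← e1] at e2
    refine ⟨s2, ?_⟩
    have e3 : P.reflectionPerm c (P.reflectionPerm c i) = i := by simp
    rw [e3] at e2
    rw [← e2]; group
  intro i s
  refine ⟨key g g' h1 h2 i s, ?_⟩
  obtain ⟨s', hs⟩ := key g'⁻¹ g⁻¹ h2' h1' i s
  exact ⟨s', by rw [← hs]; group⟩

include hC hdec

lemma Mono_ww (c : ι) (u : Rˣ) : L.Mono c (L.ww c u) := by
  intro i s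
  obtain ⟨v, hv⟩ := C.w_conj c u i
  exact ⟨_, ww_conj hC hdec c i u v hv s⟩

lemma Mono_ww_inv (c : ι) (u : Rˣ) : L.Mono c (L.ww c u)⁻¹ := by
  rw [L.ww_inv]; exact Mono_ww hC hdec c (-u)

lemma Mono_ww_neg (c : ι) (u : Rˣ) : L.Mono c (L.ww (neg P c) u) := by
  intro i s
  obtain ⟨s', hs⟩ := Mono_ww hC hdec (neg P c) u i s
  exact ⟨s', by rw [hs, refl_refl_neg]⟩

lemma Mono_ww_neg_inv (c : ι) (u : Rˣ) : L.Mono c (L.ww (neg P c) u)⁻¹ := by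
  rw [L.ww_inv]; exact Mono_ww_neg hC hdec c (-u)

lemma ww_opp (c : ι) (u : Rˣ) (s : R) :
    L.ww c u * L.y (neg P c) s * (L.ww c u)⁻¹ = L.y c (-((u : R) * (u : R) * s)) := by
  have h1 := ww_self hC hdec c (-u) (-((u : R) * (u : R) * s))
  rw [← L.ww_inv] at h1
  have e1 : -((((-u)⁻¹ : Rˣ) : R) * (((-u)⁻¹ : Rˣ) : R)) * -((u : R) * (u : R) * s) = s := by
    rw [inv_neg, Units.val_neg]
    have e2 : ((u⁻¹ : Rˣ) : R) * (u : R) = 1 := Units.inv_mul u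
    linear_combination (((u⁻¹ : Rˣ) : R) * (u : R) * s + s) * e2
  rw [e1] at h1
  rw [← h1]; group

/-- `y_{-c}(s) y_c(u)` for `u`, `s + u⁻¹` units -/
lemma yx_unit (c : ι) (s : R) (u v : Rˣ) (hv : (v : R) = s + ((u⁻¹ : Rˣ) : R)) :
    L.y (neg P c) s * L.y c u = L.y c ((v⁻¹ : Rˣ) : R) *
      (L.ww c (-v⁻¹) * L.ww (neg P c) (-u⁻¹)) *
      L.y (neg P c) (((u⁻¹ : Rˣ) : R) - ((u⁻¹ : Rˣ) : R) * ((u⁻¹ : Rˣ) : R) * ((v⁻¹ : Rˣ) : R)) := by
  have e1 : L.y c u = L.y (neg P c) ((u⁻¹ : Rˣ) : R) * L.ww (neg P c) (-u⁻¹) *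
      L.y (neg P c) ((u⁻¹ : Rˣ) : R) := by
    unfold ww
    rw [neg_neg', inv_neg, inv_inv, Units.val_neg, Units.val_neg, neg_neg, ← L.y_neg]
    group
  have e2 : L.y (neg P c) v = L.y c ((v⁻¹ : Rˣ) : R) * L.ww c (-v⁻¹) *
      L.y c ((v⁻¹ : Rˣ) : R) := by
    unfold ww
    rw [inv_neg, inv_inv, Units.val_neg, Units.val_neg, neg_neg, ← L.y_neg]
    group
  have e3 := ww_opp hC hdec (neg P c) u⁻¹ ((v⁻¹ : Rˣ) : R)
  rw [neg_neg'] at e3
  have e4 : L.ww (neg P c) u⁻¹ = (L.ww (neg P c) (-u⁻¹))⁻¹ := by rw [L.ww_inv, neg_neg]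
  rw [e4] at e3
  have e5 : L.y c ((v⁻¹ : Rˣ) : R) * L.ww (neg P c) (-u⁻¹) = L.ww (neg P c) (-u⁻¹) *
      L.y (neg P c) (-(((u⁻¹ : Rˣ) : R) * ((u⁻¹ : Rˣ) : R) * ((v⁻¹ : Rˣ) : R))) := by
    rw [← e3]; group
  have e6 : L.y (neg P c) s * L.y (neg P c) ((u⁻¹ : Rˣ) : R) = L.y (neg P c) v := by
    rw [hv, L.y_add]
  have e7 : L.y (neg P c) (((u⁻¹ : Rˣ) : R) - ((u⁻¹ : Rˣ) : R) * ((u⁻¹ : Rˣ) : R) *
      ((v⁻¹ : Rˣ) : R)) =
      L.y (neg P c) (-(((u⁻¹ : Rˣ) : R) * ((u⁻¹ : Rˣ) : R) * ((v⁻¹ : Rˣ) : R))) *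
        L.y (neg P c) ((u⁻¹ : Rˣ) : R) := by
    rw [← L.y_add]; congr 1; ring
  calc L.y (neg P c) s * L.y c u
      = (L.y (neg P c) s * L.y (neg P c) ((u⁻¹ : Rˣ) : R)) * L.ww (neg P c) (-u⁻¹) *
          L.y (neg P c) ((u⁻¹ : Rˣ) : R) := by rw [e1]; group
    _ = L.y c ((v⁻¹ : Rˣ) : R) * L.ww c (-v⁻¹) * (L.y c ((v⁻¹ : Rˣ) : R) *
          L.ww (neg P c) (-u⁻¹)) * L.y (neg P c) ((u⁻¹ : Rˣ) : R) := by rw [e6, e2]; group
    _ = _ := by rw [e5, e7]; group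

include hloc

lemma yx_nonunit1 (c : ι) {s a : R} (hs : red s = 0) (ha : red a ≠ 0) :
    ∃ a' h b', h ∈ L.Tor ∧ red b' = 0 ∧
      L.y (neg P c) s * L.y c a = L.y c a' * h * L.y (neg P c) b' := by
  obtain ⟨u, rfl⟩ := hloc a ha
  have hur : red ((u⁻¹ : Rˣ) : R) * red (u : R) = 1 := by
    rw [← map_mul, Units.inv_mul, map_one]
  have h1 : red (s + ((u⁻¹ : Rˣ) : R)) ≠ 0 := by
    rw [map_add, hs, zero_add]
    intro h0
    rw [h0, zero_mul] at hur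
    exact zero_ne_one hur
  obtain ⟨v, hv⟩ := hloc _ h1
  refine ⟨_, _, _, ?_, ?_, yx_unit hC hdec c s u v hv⟩
  · exact Mono.mul (Mono_ww hC hdec c _) (Mono_ww_inv hC hdec c _) (Mono_ww_neg hC hdec c _)
      (Mono_ww_neg_inv hC hdec c _)
  · have hvr : red ((v⁻¹ : Rˣ) : R) * red (v : R) = 1 := by
      rw [← map_mul, Units.inv_mul, map_one]
    rw [hv, map_add, hs, zero_add] at hvr
    rw [map_sub, map_mul, map_mul]
    linear_combination (-red ((u⁻¹ : Rˣ) : R)) * hvr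

lemma yx_nonunit (c : ι) {s : R} (hs : red s = 0) (a : R) :
    ∃ a' h b', h ∈ L.Tor ∧
      L.y (neg P c) s * L.y c a = L.y c a' * h * L.y (neg P c) b' := by
  by_cases ha : red a = 0
  · obtain ⟨a1, h1, b1, hh1, hb1, e1⟩ := yx_nonunit1 hloc hC hdec c hs (a := 1)
      (by rw [map_one]; exact one_ne_zero)
    obtain ⟨a2, h2, b2, hh2, hb2, e2⟩ := yx_nonunit1 hloc hC hdec c hb1 (a := a - 1)
      (by rw [map_sub, ha, map_one, zero_sub]; exact neg_ne_zero.mpr one_ne_zero)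
    obtain ⟨a3, e3⟩ := L.Tor_left hh1 c a2
    refine ⟨a1 + a3, h1 * h2, b2, mul_mem hh1 hh2, ?_⟩
    have e4 : L.y c a = L.y c 1 * L.y c (a - 1) := by rw [← L.y_add]; congr 1; ring
    calc L.y (neg P c) s * L.y c a = (L.y (neg P c) s * L.y c 1) * L.y c (a - 1) := by
          rw [e4]; group
      _ = L.y c a1 * h1 * (L.y (neg P c) b1 * L.y c (a - 1)) := by rw [e1]; group
      _ = L.y c a1 * (h1 * L.y c a2) * h2 * L.y (neg P c) b2 := by rw [e2]; group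
      _ = _ := by rw [e3, L.y_add]; group
  · obtain ⟨a1, h1, b1, hh1, hb1, e1⟩ := yx_nonunit1 hloc hC hdec c hs ha
    exact ⟨a1, h1, b1, hh1, e1⟩

/-- **rank one**: `Y X Y ⊆ X T Y X` -/
theorem yxy (c : ι) (s a t : R) : ∃ a' h b' d', h ∈ L.Tor ∧
    L.y (neg P c) s * L.y c a * L.y (neg P c) t = L.y c a' * h * L.y (neg P c) b' * L.y c d' := by
  by_cases hs : red s = 0
  · obtain ⟨a1, h1, b1, hh1, e1⟩ := yx_nonunit hloc hC hdec c hs a
    refine ⟨a1, h1, b1 + t, 0, hh1, ?_⟩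
    rw [e1, L.y_add, L.y_zero]; group
  by_cases ht : red t = 0
  · obtain ⟨a1, h1, b1, hh1, e1⟩ := yx_nonunit hloc hC hdec c (s := -t)
      (by rw [map_neg, ht, neg_zero]) (-a)
    have e2 : L.y c a * L.y (neg P c) t = L.y (neg P c) (-b1) * h1⁻¹ * L.y c (-a1) := by
      have := congrArg (·⁻¹) e1
      simp only [mul_inv_rev, L.y_neg, neg_neg] at this
      rw [this]; group
    obtain ⟨s1, e3⟩ := L.Tor_right (inv_mem hh1) (neg P c) (s + -b1)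
    refine ⟨0, h1⁻¹, s1, -a1, inv_mem hh1, ?_⟩
    calc L.y (neg P c) s * L.y c a * L.y (neg P c) t
        = L.y (neg P c) s * (L.y c a * L.y (neg P c) t) := by group
      _ = (L.y (neg P c) (s + -b1) * h1⁻¹) * L.y c (-a1) := by rw [e2, L.y_add]; group
      _ = _ := by rw [e3, L.y_zero]; group
  · obtain ⟨u, rfl⟩ := hloc s hs
    obtain ⟨v, rfl⟩ := hloc t ht
    have e1 : ∀ v : Rˣ, L.y (neg P c) v = L.y c ((v⁻¹ : Rˣ) : R) * L.ww c (-v⁻¹) *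
        L.y c ((v⁻¹ : Rˣ) : R) := by
      intro v
      unfold ww
      rw [inv_neg, inv_inv, Units.val_neg, Units.val_neg, neg_neg, ← L.y_neg]
      group
    have e2 := ww_self hC hdec c (-u⁻¹) (((u⁻¹ : Rˣ) : R) + a + ((v⁻¹ : Rˣ) : R))
    set z := -((((-u⁻¹)⁻¹ : Rˣ) : R) * (((-u⁻¹)⁻¹ : Rˣ) : R)) *
      (((u⁻¹ : Rˣ) : R) + a + ((v⁻¹ : Rˣ) : R))
    have hT : L.ww c (-u⁻¹) * L.ww c (-v⁻¹) ∈ L.Tor :=
      Mono.mul (Mono_ww hC hdec c _) (Mono_ww_inv hC hdec c _) (Mono_ww hC hdec c _)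
        (Mono_ww_inv hC hdec c _)
    obtain ⟨z', e3⟩ := L.Tor_right hT (neg P c) z
    refine ⟨((u⁻¹ : Rˣ) : R), _, z', ((v⁻¹ : Rˣ) : R), hT, ?_⟩
    calc L.y (neg P c) u * L.y c a * L.y (neg P c) v
        = L.y c ((u⁻¹ : Rˣ) : R) * (L.ww c (-u⁻¹) *
          (L.y c ((u⁻¹ : Rˣ) : R) * L.y c a * L.y c ((v⁻¹ : Rˣ) : R)) *
            (L.ww c (-u⁻¹))⁻¹) * (L.ww c (-u⁻¹) * L.ww c (-v⁻¹)) *
              L.y c ((v⁻¹ : Rˣ) : R) := by
          rw [e1 u, e1 v]; group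
      _ = L.y c ((u⁻¹ : Rˣ) : R) * (L.y (neg P c) z * (L.ww c (-u⁻¹) * L.ww c (-v⁻¹))) *
              L.y c ((v⁻¹ : Rˣ) : R) := by
          rw [← L.y_add, ← L.y_add, e2]; group
      _ = _ := by rw [e3]; group

end Lifts

end Pool.Agent.T2H35.Chev
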