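import Pool.Agent.T2H35.Chev.Kappa2

/-! Exact Steinberg relations for the normalised lifts -/

namespace Pool.Agent.T2H35.Chev

open Module

set_option linter.unusedSectionVars false
set_option linter.unusedVariables false

variable {ι V W : Type} [Fintype ι] [DecidableEq ι] [AddCommGroup V] [Module ℚ V]
  [AddCommGroup W] [Module ℚ W] {P : RootPairing ι ℚ V W} [P.IsCrystallographic] {b : P.Base}
  {R K : Type} [CommRing R] [Field K] {red : R →+* K} {G : Type} [Group G]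
  {ρ : G →* (((b.support ⊕ ι) → K) →ₗ[K] ((b.support ⊕ ι) → K))}

variable {C : CG P b R K red G ρ} {E : Type} [Group E]

namespace Lifts

variable {X : ExtData C E} (L : Lifts C X)

lemma D_false_gen {Ψ : Set ι} {p : E → Prop} {g : E} (hg : g ∈ L.D false Ψ)
    (hy : ∀ k ∈ Ψ, ∀ s, p (L.y k s)) (h1 : p 1)
    (hmul : ∀ g ∈ L.D false Ψ, ∀ g' ∈ L.D false Ψ, p g → p g' → p (g * g')) : p g := by
  refine Subgroup.closure_induction'' (p := fun g _ => p g) ?_ ?_ h1 ?_ hg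
  · rintro _ ⟨k, hk, a, ha, rfl⟩
    have ha2 : a.2 = 0 := ha.resolve_left (by simp)
    have : a = (a.1, 0) := by rw [← ha2]
    rw [this, L.Y_inl]
    exact hy k hk _
  · rintro _ ⟨k, hk, a, ha, rfl⟩
    have ha2 : a.2 = 0 := ha.resolve_left (by simp)
    have : a = (a.1, 0) := by rw [← ha2]
    rw [this, L.Y_inl, L.y_neg]
    exact hy k hk _
  · intro g g' hg hg'
    exact hmul g hg g' hg'

variable [P.IsReduced] [P.IsRootSystem] (hR : ∀ s : R, ∃ z : ℤ, (z : R) = s)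
  (hloc : ∀ r : R, red r ≠ 0 → IsUnit r)

include hR in
lemma chi_false {Ψ : Set ι} {k : ι} (h : Good P Ψ k) {g : E} (hg : g ∈ L.D false Ψ) :
    (L.chi Ψ k g).2 = 0 := by
  refine L.D_false_gen (p := fun g => (L.chi Ψ k g).2 = 0) hg ?_ ?_ ?_
  · intro k' hk' s
    rw [← L.Y_inl]
    by_cases hkk : k' = k
    · subst hkk; rw [L.chi_Y hR h]
    · rw [L.chi_Y_ne hR h hk' hkk]; rfl
  · rw [L.chi_one hR h]; rfl
  · intro g hg g' hg' h1 h2
    rw [L.chi_mul hR h (L.D_false_le true Ψ hg) (L.D_false_le true Ψ hg'), Prod.snd_add, h1, h2,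
      add_zero]

/-- The exact commutator relations. -/
def Comm (L : Lifts C X) : Prop := ∀ α β, P.root α + P.root β ≠ 0 → ∀ s t,
  cm (L.y α s) (L.y β t) ∈ L.D false (Psi P α β)

include hR in
theorem comm_of_zero (hA : ∀ c d k, c ≠ d → P.root c ≠ - P.root d →
    P.root k = P.root c + P.root d → (L.A c d k).2 = 0) : L.Comm := by
  intro α β h s t
  have key := L.commC hR false ?_ _ α β rfl h (s, 0) (t, 0) (Or.inr rfl) (Or.inr rfl)
  · rw [L.Y_inl, L.Y_inl] at key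
    exact key
  intro _ α β κ0 s t m hκ hm
  have hsum : P.root α + P.root β ≠ 0 := by rw [← hκ]; exact P.ne_zero κ0
  have h' : P.root α ≠ - P.root β := fun h0 => hsum (by rw [h0, neg_add_cancel])
  have hne : α ≠ β := by
    rintro rfl
    have h1 := P.linearIndependent_of_add_mem_range_root' (i := α) (j := α) ⟨κ0, hκ⟩
    rw [LinearIndependent.pair_iff] at h1
    have := h1 1 (-1) (by module)
    exact absurd this.1 one_ne_zero
  have hg := good_Psi hne h' hκ
  have gS : Good P (Str P α β 1) κ0 :=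
    good_Str hne h' (z := 1) (by rw [hκ]; module)
  have hx : cm (L.y α s) (L.y β t) ∈ L.D true (Psi P α β) := by
    rw [← L.Y_inl, ← L.Y_inl]; exact L.commT hR hsum _ _
  have hm' := L.D_false_le true _ hm
  have hj : X.j m ∈ L.D true (Psi P α β) := by
    have h2 := mul_mem hx (inv_mem hm')
    have h3 : cm (L.y α s) (L.y β t) *
        ((X.j m)⁻¹ * (L.y α s * L.y β t * (L.y α s)⁻¹ * (L.y β t)⁻¹))⁻¹ = X.j m := by
      unfold cm; group
    rwa [h3] at h2
  have hβ : β ∈ Str P α β 1 := ⟨1, 0, le_rfl, by rw [one_smul, zero_smul, add_zero]⟩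
  have e1 : L.chi (Psi P α β) κ0 (cm (L.y α s) (L.y β t)) = (s * t * (C.Nc α β : R), 0) := by
    apply emb_inj (red := red)
    rw [← L.chi_mono hR hg gS (Psi_c_Str P hβ) hx, ← L.Y_inl β, L.exp1 hR hne h' gS hβ hκ]
    have e2 : L.A α β κ0 = ((C.Nc α β : R), 0) :=
      Prod.ext (L.A_fst hR hne h' hκ) (hA α β κ0 hne h' hκ)
    rw [e2]
    unfold emb eR
    ext <;> simp
  have e3 : L.chi (Psi P α β) κ0 (X.j m) = (0, m (Sum.inr κ0)) :=
    L.chi_j hR hg (L.exactT hR hg.cl hg.pos hj)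
  have e4 := L.chi_false hR hg hm
  have e5 : (X.j m)⁻¹ * (L.y α s * L.y β t * (L.y α s)⁻¹ * (L.y β t)⁻¹) =
      (X.j m)⁻¹ * cm (L.y α s) (L.y β t) := rfl
  rw [e5, L.chi_mul hR hg (inv_mem hj) hx, L.chi_inv hR hg hj, e1, e3] at e4
  simpa using e4

/-! ### consequences of the exact relations -/

section exact

variable {L} (hC : L.Comm)

include hC

lemma comm_Y {i i' : ι} (h : P.root i + P.root i' ≠ 0) {a a' : R × K} (ha : Al false a)
    (ha' : Al false a') :
    L.Y i a * L.Y i' a' * (L.Y i a)⁻¹ * (L.Y i' a')⁻¹ ∈ L.D false (Psi P i i') := by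
  have ha2 : a.2 = 0 := ha.resolve_left (by simp)
  have ha2' : a'.2 = 0 := ha'.resolve_left (by simp)
  have e1 : a = (a.1, 0) := by rw [← ha2]
  have e2 : a' = (a'.1, 0) := by rw [← ha2']
  rw [e1, e2, L.Y_inl, L.Y_inl]
  exact hC i i' h _ _

lemma exactF {Ψ : Set ι} (hcl : Closed P Ψ) (hpos : Pos P Ψ) {m : (b.support ⊕ ι) → K}
    (hm : X.j m ∈ L.D false Ψ) : m = 0 := by
  funext k
  refine L.exact false _ Ψ rfl hcl hpos ?_ m hm k ?_
  · intro i hi i' hi' a a' ha ha'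
    obtain ⟨l, hl⟩ := hpos
    exact comm_Y hC (add_ne_zero_of_lin P (hl i hi) (hl i' hi')) ha ha'
  · rintro ⟨h0, -⟩
    exact absurd h0 (by simp)

lemma inj_F {Ψ : Set ι} (hcl : Closed P Ψ) (hpos : Pos P Ψ) {g g' : E}
    (hg : g ∈ L.D false Ψ) (hg' : g' ∈ L.D false Ψ) (h : X.π g = X.π g') : g = g' := by
  obtain ⟨m, hm⟩ := X.eq_of_π h
  have h1 : X.j m ∈ L.D false Ψ := by
    have : X.j m = g * g'⁻¹ := by rw [hm]; group
    rw [this]; exact mul_mem hg (inv_mem hg')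
  rw [hm, exactF hC hcl hpos h1, X.j_zero, one_mul]

lemma normF {Ψ : Set ι} {i : ι} (h : ∀ k ∈ Ψ, P.root i + P.root k ≠ 0 ∧ Psi P i k ⊆ Ψ) (s : R) :
    ∀ u ∈ L.D false Ψ, L.y i s * u * (L.y i s)⁻¹ ∈ L.D false Ψ := by
  apply L.conj_mem
  intro k hk a ha
  rw [← L.Y_inl]
  exact L.D_mono (h k hk).2 (comm_Y hC (h k hk).1 (Or.inr rfl) ha)

end exact

end Lifts

end Pool.Agent.T2H35.Chev
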