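import Pool.Agent.T2H35.Chev.Comb

/-! Unipotence and torus weights -/

namespace Pool.Agent.T2H35.Chev

open Module

set_option linter.unusedSectionVars false
set_option linter.unusedVariables false

variable {ι V W : Type} [Fintype ι] [DecidableEq ι] [AddCommGroup V] [Module ℚ V]
  [AddCommGroup W] [Module ℚ W] {P : RootPairing ι ℚ V W} [P.IsCrystallographic] {b : P.Base}
  {R K : Type} [CommRing R] [Field K] {red : R →+* K} {G : Type} [Group G]
  {ρ : G →* (((b.support ⊕ ι) → K) →ₗ[K] ((b.support ⊕ ι) → K))}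

omit [DecidableEq ι] in
lemma add_int (hR : ∀ s : R, ∃ z : ℤ, (z : R) = s) {A : Type*} [AddCommGroup A] (φ : R → A)
    (h : ∀ s t, φ (s + t) = φ s + φ t) (z : ℤ) : φ (z : R) = z • φ 1 := by
  let Φ : R →+ A := AddMonoidHom.mk' φ h
  have : Φ (z • (1 : R)) = z • Φ 1 := map_zsmul Φ z 1
  rw [zsmul_one] at this
  exact this

lemma add_K (hR : ∀ s : R, ∃ z : ℤ, (z : R) = s) (red : R →+* K) (φ : R → K)
    (h : ∀ s t, φ (s + t) = φ s + φ t) (s : R) : φ s = red s * φ 1 := by
  obtain ⟨z, rfl⟩ := hR s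
  rw [add_int hR φ h z, map_intCast, zsmul_eq_mul]

namespace CG

variable (C : CG P b R K red G ρ)

/-- The subgroup generated by the root subgroups in `Ψ`. -/
def XG (Ψ : Set ι) : Subgroup G := Subgroup.closure {g | ∃ k ∈ Ψ, ∃ s, g = C.x k s}

lemma x_zero (i : ι) : C.x i 0 = 1 := by
  have := C.x_add i 0 0
  rw [add_zero] at this
  exact left_eq_mul.mp this

lemma x_neg (i : ι) (s : R) : (C.x i s)⁻¹ = C.x i (-s) := by
  rw [inv_eq_iff_mul_eq_one, ← C.x_add, add_neg_cancel, x_zero]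

lemma x_mem_XG {Ψ : Set ι} {k : ι} (hk : k ∈ Ψ) (s : R) : C.x k s ∈ C.XG Ψ :=
  Subgroup.subset_closure ⟨k, hk, s, rfl⟩

lemma XG_mono {Ψ Ψ' : Set ι} (h : Ψ ⊆ Ψ') : C.XG Ψ ≤ C.XG Ψ' := by
  apply Subgroup.closure_mono
  rintro g ⟨k, hk, s, rfl⟩
  exact ⟨k, h hk, s, rfl⟩

end CG

variable (b) in
/-- The set of indices `inr i`, `i ∈ Ψ` if `d` is true, and `∅` otherwise. -/
def SS (d : Bool) (Ψ : Set ι) : Set (b.support ⊕ ι) := {k | d = true ∧ ∃ i ∈ Ψ, k = Sum.inr i}

/-- The components of `m` outside `S` of level lower than that of `k` vanish. -/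
def LowZero (l : V →ₗ[ℚ] ℚ) (S : Set (b.support ⊕ ι)) (k : b.support ⊕ ι)
    (m : (b.support ⊕ ι) → K) : Prop :=
  ∀ k', k' ∉ S → l (wt P b k') < l (wt P b k) → m k' = 0

namespace CG

variable (C : CG P b R K red G ρ)

include C in
lemma unip_x (d : Bool) {Ψ : Set ι} {l : V →ₗ[ℚ] ℚ} (hl : ∀ k ∈ Ψ, 0 < l (P.root k)) {c : ι}
    (hc : 0 < l (P.root c)) (hcΨ : ∀ k ∈ Ψ, Psi P k c ⊆ Ψ) (s : R)
    (m : (b.support ⊕ ι) → K) (k : b.support ⊕ ι) (hk : k ∉ SS b d Ψ)
    (hm : LowZero l (SS b d Ψ) k m) : ρ (C.x c s) m k = m k := by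
  apply C.raise
  intro k' a ha hw
  have hac : 0 < (a : ℚ) * l (P.root c) := by
    have : (0 : ℚ) < a := by exact_mod_cast ha
    positivity
  have hlw : l (wt P b k) = l (wt P b k') + a * l (P.root c) := by
    rw [hw, map_add, map_nsmul, nsmul_eq_mul]
  by_cases hk' : k' ∈ SS b d Ψ
  · exfalso
    obtain ⟨hd, i, hi, rfl⟩ := hk'
    have hli := hl i hi
    have hw' : wt P b (Sum.inr i) = P.root i := rfl
    rw [hw'] at hw hlw
    cases k with
    | inl j =>
      have : wt P b (Sum.inl j) = 0 := rfl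
      rw [this, map_zero] at hlw
      linarith
    | inr k0 =>
      have : wt P b (Sum.inr k0) = P.root k0 := rfl
      rw [this] at hw
      apply hk
      refine ⟨hd, k0, ?_, rfl⟩
      exact hcΨ i hi ⟨1, a, le_rfl, ha, by rw [hw]; simp⟩
  · apply hm k' hk'
    rw [hlw]; linarith

include C in
lemma unip_XG (d : Bool) {Ψ : Set ι} {l : V →ₗ[ℚ] ℚ} (hl : ∀ k ∈ Ψ, 0 < l (P.root k))
    (hcl : Closed P Ψ) {g : G} (hg : g ∈ C.XG Ψ) :
    ∀ (m : (b.support ⊕ ι) → K) (k : b.support ⊕ ι), k ∉ SS b d Ψ →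
    LowZero l (SS b d Ψ) k m → ρ g m k = m k := by
  refine Subgroup.closure_induction'' (p := fun g _ => ∀ (m : (b.support ⊕ ι) → K)
    (k : b.support ⊕ ι), k ∉ SS b d Ψ → LowZero l (SS b d Ψ) k m → ρ g m k = m k)
    ?_ ?_ ?_ ?_ hg
  · rintro _ ⟨i, hi, s, rfl⟩ m k hk hm
    exact C.unip_x d hl (hl i hi) (fun k hk => hcl k hk i hi) s m k hk hm
  · rintro _ ⟨i, hi, s, rfl⟩ m k hk hm
    rw [C.x_neg]
    exact C.unip_x d hl (hl i hi) (fun k hk => hcl k hk i hi) (-s) m k hk hm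
  · intro m k _ _
    simp
  · intro g h _ _ hg hh m k hk hm
    rw [map_mul, Module.End.mul_apply, hg _ k hk, hh m k hk hm]
    intro k' hk' hlt
    rw [hh m k' hk', hm k' hk' hlt]
    intro k'' hk'' hlt'
    exact hm k'' hk'' (hlt'.trans hlt)

end CG

/-- The torus-weight lemma. -/
theorem TW [P.IsReduced] [P.IsRootSystem] (C : CG P b R K red G ρ)
    (hR : ∀ s : R, ∃ z : ℤ, (z : R) = s)
    (S : Set (b.support ⊕ ι)) (α β : ι) (m : R → R → ((b.support ⊕ ι) → K)) (l : V →ₗ[ℚ] ℚ)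
    (hadd1 : ∀ s s' t k, k ∉ S → (∀ s t, LowZero l S k (m s t)) →
      m (s + s') t k = m s t k + m s' t k)
    (hadd2 : ∀ s t t' k, k ∉ S → (∀ s t, LowZero l S k (m s t)) →
      m s (t + t') k = m s t k + m s t' k)
    (hT : ∀ e s t k, k ∉ S →
      m (((C.q ^ (P.pairingIn ℤ α e) : Rˣ) : R) * s) (((C.q ^ (P.pairingIn ℤ β e) : Rˣ) : R) * t) k
        = red ((C.q ^ (wtp P b k e) : Rˣ) : R) * m s t k)
    (hab : ∀ k, k ∉ S → wt P b k = P.root α + P.root β → ∀ s t, m s t k = 0) :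
    ∀ k, k ∉ S → ∀ s t, m s t k = 0 := by
  have wf : WellFounded (fun k k' : b.support ⊕ ι => l (wt P b k) < l (wt P b k')) := by
    apply Finite.wellFounded_of_trans_of_irrefl
      (r := fun k k' : b.support ⊕ ι => l (wt P b k) < l (wt P b k'))
  intro k
  induction k using wf.induction with
  | _ k IH =>
    intro hk
    have hlow : ∀ s t, LowZero l S k (m s t) := fun s t k' hk' hlt => IH k' hlt hk' s t
    have h1 : ∀ s t, m s t k = red s * m 1 t k := fun s t =>
      add_K hR red (fun s => m s t k) (fun s s' => hadd1 s s' t k hk hlow) s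
    have h2 : ∀ s t, m s t k = red t * m s 1 k := fun s t =>
      add_K hR red (fun t => m s t k) (fun t t' => hadd2 s t t' k hk hlow) t
    have h3 : ∀ s t, m s t k = red s * red t * m 1 1 k := fun s t => by
      rw [h1 s t, h2 1 t]; ring
    by_cases hw : wt P b k = P.root α + P.root β
    · exact hab k hk hw
    · obtain ⟨e, he⟩ := sep_wt P b α β k hw
      have h4 := hT e 1 1 k hk
      rw [h3] at h4
      simp only [mul_one] at h4
      have h5 : m 1 1 k = 0 := by
        by_contra hne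
        have h6 : red ((C.q ^ (P.pairingIn ℤ α e) : Rˣ) : R) *
            red ((C.q ^ (P.pairingIn ℤ β e) : Rˣ) : R) = red ((C.q ^ (wtp P b k e) : Rˣ) : R) :=
          mul_right_cancel₀ hne h4
        apply C.q_ne _ he
        · have a1 := abs_pairingIn_le P α e
          have a2 := abs_pairingIn_le P β e
          have a3 := abs_wtp_le P b k e
          rw [abs_le] at *
          constructor <;> linarith [a1.1, a1.2, a2.1, a2.2, a3.1, a3.2]
        · rw [zpow_sub, zpow_add]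
          push_cast
          rw [map_mul, map_mul, h6, ← map_mul]
          rw [← Units.val_mul, mul_inv_cancel]
          simp
      intro s t
      rw [h3, h5, mul_zero]

end Pool.Agent.T2H35.Chev
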