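import Pool.Agent.T2H35.Chev.Stein

/-! The elements `w_c(u)` -/

namespace Pool.Agent.T2H35.Chev

open Module

set_option linter.unusedSectionVars false
set_option linter.unusedVariables false

variable {ι V W : Type} [Fintype ι] [DecidableEq ι] [AddCommGroup V] [Module ℚ V]
  [AddCommGroup W] [Module ℚ W] {P : RootPairing ι ℚ V W} [P.IsCrystallographic] {b : P.Base}
  {R K : Type} [CommRing R] [Field K] {red : R →+* K} {G : Type} [Group G]
  {ρ : G →* (((b.support ⊕ ι) → K) →ₗ[K] ((b.support ⊕ ι) → K))}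

variable {C : CG P b R K red G ρ} {E : Type} [Group E]

lemma refl_Psi {c i j k : ι} (hk : k ∈ Psi P i j) :
    P.reflectionPerm c k ∈ Psi P (P.reflectionPerm c i) (P.reflectionPerm c j) := by
  obtain ⟨x, y, hx, hy, hk⟩ := hk
  refine ⟨x, y, hx, hy, ?_⟩
  rw [P.root_reflectionPerm, P.root_reflectionPerm, P.root_reflectionPerm, hk, map_add, map_nsmul,
    map_nsmul]

namespace Lifts

variable {X : ExtData C E} (L : Lifts C X)

/-- `w_c(u) = y_c(u) y_{-c}(-u⁻¹) y_c(u)` -/
def ww (c : ι) (u : Rˣ) : E :=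
  L.y c u * L.y (neg P c) (-((u⁻¹ : Rˣ) : R)) * L.y c u

lemma π_ww (c : ι) (u : Rˣ) :
    X.π (L.ww c u) = C.x c u * C.x (neg P c) (-((u⁻¹ : Rˣ) : R)) * C.x c u := by
  unfold ww; rw [map_mul, map_mul, L.π_y, L.π_y]

lemma ww_inv (c : ι) (u : Rˣ) : (L.ww c u)⁻¹ = L.ww c (-u) := by
  unfold ww
  rw [mul_inv_rev, mul_inv_rev, L.y_neg, L.y_neg, inv_neg, Units.val_neg, Units.val_neg, neg_neg,
    mul_assoc]

variable [P.IsReduced] [P.IsRootSystem] (hR : ∀ s : R, ∃ z : ℤ, (z : R) = s)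
  (hloc : ∀ r : R, red r ≠ 0 → IsUnit r)

variable {L} (hC : L.Comm)

include hC

lemma ww_conj1 {c i : ι} (h : c ≠ i) (h' : P.root c ≠ - P.root i) (u : Rˣ) (v : R)
    (hv : ∀ s, (C.x c u * C.x (neg P c) (-((u⁻¹ : Rˣ) : R)) * C.x c u) * C.x i s *
      (C.x c u * C.x (neg P c) (-((u⁻¹ : Rˣ) : R)) * C.x c u)⁻¹ =
        C.x (P.reflectionPerm c i) (v * s)) (s : R) :
    L.ww c u * L.y i s * (L.ww c u)⁻¹ = L.y (P.reflectionPerm c i) (v * s) := by
  have hi : i ∈ Str P c i 1 := ⟨1, 0, le_rfl, by rw [one_smul, zero_smul, add_zero]⟩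
  have hnc : neg P c ≠ i := by
    intro h0
    apply h'
    rw [← h0, root_neg, neg_neg]
  have hnc' : P.root (neg P c) ≠ - P.root i := by
    rw [root_neg]
    intro h0
    exact h (P.root.injective (neg_injective h0))
  have n1 : ∀ s, ∀ g ∈ L.D false (Str P c i 1), L.y c s * g * (L.y c s)⁻¹ ∈
      L.D false (Str P c i 1) := by
    intro s
    apply normF hC
    intro k hk
    exact ⟨add_ne_Str h h' hk, Psi_c_Str P hk⟩
  have n2 : ∀ s, ∀ g ∈ L.D false (Str P c i 1), L.y (neg P c) s * g * (L.y (neg P c) s)⁻¹ ∈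
      L.D false (Str P c i 1) := by
    intro s
    apply normF hC
    intro k hk
    rw [← Str_neg] at hk
    refine ⟨add_ne_Str hnc hnc' hk, ?_⟩
    have := Psi_c_Str P hk
    rwa [Str_neg] at this
  apply inj_F hC (closed_Str P c i 1) (pos_Str P h h' le_rfl)
  · have e1 : L.ww c u * L.y i s * (L.ww c u)⁻¹ =
        L.y c u * (L.y (neg P c) (-((u⁻¹ : Rˣ) : R)) * (L.y c u * L.y i s * (L.y c u)⁻¹) *
          (L.y (neg P c) (-((u⁻¹ : Rˣ) : R)))⁻¹) * (L.y c u)⁻¹ := by
      unfold ww; group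
    rw [e1]
    exact n1 _ _ (n2 _ _ (n1 _ _ (L.y_mem hi s)))
  · exact L.y_mem (refl_mem_Str hi) _
  · rw [map_mul, map_mul, map_inv, L.π_ww, L.π_y, L.π_y, hv]

/-- leading coefficient of commutators -/
lemma lead_F {α β k : ι} (hk : P.root k = P.root α + P.root β) (s t : R) :
    (L.y k (C.Nc α β * s * t))⁻¹ * cm (L.y α s) (L.y β t) ∈ L.D false (Psi P α β \ {k}) := by
  have hsum : P.root α + P.root β ≠ 0 := by rw [← hk]; exact P.ne_zero k
  have h' : P.root α ≠ - P.root β := fun h0 => hsum (by rw [h0, neg_add_cancel])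
  have hne : α ≠ β := by
    rintro rfl
    have h1 := P.linearIndependent_of_add_mem_range_root' (i := α) (j := α) ⟨k, hk⟩
    rw [LinearIndependent.pair_iff] at h1
    have := h1 1 (-1) (by module)
    exact absurd this.1 one_ne_zero
  have hg := good_Psi hne h' hk
  obtain ⟨a, ha, hm⟩ := L.peel (d := false) hg.mem hg.ind hg.cl
    (fun i hi i' hi' a a' ha ha' => comm_Y hC (lin_of_Good hg hi hi') ha ha') (hC α β hsum s t)
  have ha2 : a.2 = 0 := ha.resolve_left (by simp)
  have e1 : a = (a.1, 0) := by rw [← ha2]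
  rw [e1, L.Y_inl] at hm
  have h1 := L.π_D hm
  have h2 := C.lead α β k s t hk
  have h3 : X.π (cm (L.y α s) (L.y β t)) =
      C.x α s * C.x β t * (C.x α s)⁻¹ * (C.x β t)⁻¹ := by
    simp only [cm, map_mul, map_inv, L.π_y]
  rw [map_mul, map_inv, L.π_y, C.x_neg, h3] at h1
  have h4 := mul_mem h1 (inv_mem h2)
  have h5 : C.x k (-a.1) * (C.x α s * C.x β t * (C.x α s)⁻¹ * (C.x β t)⁻¹) *
      (C.x k (-(C.Nc α β * s * t)) * (C.x α s * C.x β t * (C.x α s)⁻¹ * (C.x β t)⁻¹))⁻¹ =
      C.x k (-a.1 + C.Nc α β * s * t) := by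
    have h7 : C.x k (C.Nc α β * s * t) = (C.x k (-(C.Nc α β * s * t : R)))⁻¹ := by
      rw [C.x_neg, neg_neg]
    rw [C.x_add, h7]
    group
  rw [h5] at h4
  have h6 := C.sep _ k _ hg.cl' hg.pos' (by simp) h4
  rw [← neg_add_eq_zero.mp h6]
  exact hm

lemma ww_conj2 {c i : ι} (hi : i = c ∨ i = neg P c) (hdec : ∃ α β, P.root i = P.root α + P.root β)
    (u : Rˣ) (v : R)
    (hv : ∀ s, (C.x c u * C.x (neg P c) (-((u⁻¹ : Rˣ) : R)) * C.x c u) * C.x i s *
      (C.x c u * C.x (neg P c) (-((u⁻¹ : Rˣ) : R)) * C.x c u)⁻¹ =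
        C.x (P.reflectionPerm c i) (v * s)) (s : R) :
    L.ww c u * L.y i s * (L.ww c u)⁻¹ = L.y (P.reflectionPerm c i) (v * s) := by
  obtain ⟨α, β, hk⟩ := hdec
  have hsum : P.root α + P.root β ≠ 0 := by rw [← hk]; exact P.ne_zero i
  have h' : P.root α ≠ - P.root β := fun h0 => hsum (by rw [h0, neg_add_cancel])
  have hne : α ≠ β := by
    rintro rfl
    have h1 := P.linearIndependent_of_add_mem_range_root' (i := α) (j := α) ⟨i, hk⟩
    rw [LinearIndependent.pair_iff] at h1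
    have := h1 1 (-1) (by module)
    exact absurd this.1 one_ne_zero
  have hg := good_Psi hne h' hk
  have hlα := ell_left_pos P hne h'
  have hlβ := ell_right_pos P hne h'
  have hli : 0 < ell P α β (P.root i) := ell_Psi_pos P hne h' hg.mem
  -- roots on which `ell` is positive, different from `i`, are not `± c`
  have hpm : ∀ k, 0 < ell P α β (P.root k) → k ≠ i → c ≠ k ∧ P.root c ≠ - P.root k := by
    intro k hk hki
    have hneg : P.root k ≠ - P.root i := by
      intro h0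
      rw [h0, map_neg] at hk
      linarith
    rcases hi with rfl | rfl
    · refine ⟨Ne.symm hki, ?_⟩
      intro h0
      exact hneg (by rw [h0, neg_neg])
    · constructor
      · rintro rfl
        exact hneg (by rw [root_neg, neg_neg])
      · intro h0
        apply hki
        apply P.root.injective
        rw [root_neg, h0, neg_neg]
  have hα : c ≠ α ∧ P.root c ≠ - P.root α := by
    apply hpm α hlα
    rintro rfl
    have : P.root β = 0 := by simpa using hk
    exact P.ne_zero β this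
  have hβ : c ≠ β ∧ P.root c ≠ - P.root β := by
    apply hpm β hlβ
    rintro rfl
    have : P.root α = 0 := by simpa using hk
    exact P.ne_zero α this
  set α' := P.reflectionPerm c α with hα'
  set β' := P.reflectionPerm c β with hβ'
  have hk' : P.root (P.reflectionPerm c i) = P.root α' + P.root β' := by
    rw [P.root_reflectionPerm, P.root_reflectionPerm, P.root_reflectionPerm, hk, map_add]
  have hsum' : P.root α' + P.root β' ≠ 0 := by rw [← hk']; exact P.ne_zero _
  have h'' : P.root α' ≠ - P.root β' := fun h0 => hsum' (by rw [h0, neg_add_cancel])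
  have hne' : α' ≠ β' := fun h0 => hne ((P.reflectionPerm c).injective h0)
  -- reduce to `s` a multiple of `Nc`
  obtain ⟨N, hN⟩ := C.Nc_unit α β i hk
  have key : ∀ s, L.ww c u * L.y i (C.Nc α β * s * 1) * (L.ww c u)⁻¹ =
      L.y (P.reflectionPerm c i) (v * (C.Nc α β * s * 1)) := by
    intro s
    apply inj_F hC (closed_Psi P α' β') (pos_Psi P hne' h'')
    · have h1 := lead_F hC hk s 1
      have e1 : L.ww c u * L.y i (C.Nc α β * s * 1) * (L.ww c u)⁻¹ =
          cm (L.ww c u * L.y α s * (L.ww c u)⁻¹) (L.ww c u * L.y β 1 * (L.ww c u)⁻¹) *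
          (L.ww c u * ((L.y i (C.Nc α β * s * 1))⁻¹ * cm (L.y α s) (L.y β 1)) *
            (L.ww c u)⁻¹)⁻¹ := by
        unfold cm; group
      rw [e1]
      apply mul_mem
      · obtain ⟨vα, hvα⟩ := C.w_conj c u α
        obtain ⟨vβ, hvβ⟩ := C.w_conj c u β
        rw [ww_conj1 hC hα.1 hα.2 u vα hvα, ww_conj1 hC hβ.1 hβ.2 u vβ hvβ]
        exact hC _ _ hsum' _ _
      · apply inv_mem
        refine L.D_false_gen (p := fun g => L.ww c u * g * (L.ww c u)⁻¹ ∈
          L.D false (Psi P α' β')) h1 ?_ ?_ ?_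
        · intro k hkm s
          obtain ⟨vk, hvk⟩ := C.w_conj c u k
          have hkk := hpm k (ell_Psi_pos P hne h' hkm.1) hkm.2
          rw [ww_conj1 hC hkk.1 hkk.2 u vk hvk]
          exact L.y_mem (refl_Psi hkm.1) _
        · rw [mul_one, mul_inv_cancel]; exact one_mem _
        · intro g _ g' _ hg hg'
          have : L.ww c u * (g * g') * (L.ww c u)⁻¹ =
            (L.ww c u * g * (L.ww c u)⁻¹) * (L.ww c u * g' * (L.ww c u)⁻¹) := by group
          rw [this]
          exact mul_mem hg hg'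
    · exact L.y_mem (mem_Psi_add P hk') _
    · rw [map_mul, map_mul, map_inv, L.π_ww, L.π_y, L.π_y, hv]
  have h1 := key (((N⁻¹ : Rˣ) : R) * s)
  have e1 : (C.Nc α β : R) * (((N⁻¹ : Rˣ) : R) * s) * 1 = s := by
    rw [← hN, mul_one, Units.mul_inv_cancel_left]
  rw [e1] at h1
  exact h1

/-- action of `w_c(u)` on all root subgroups -/
theorem ww_conj (hdec : ∀ i, ∃ α β, P.root i = P.root α + P.root β) (c i : ι)
    (u : Rˣ) (v : R)
    (hv : ∀ s, (C.x c u * C.x (neg P c) (-((u⁻¹ : Rˣ) : R)) * C.x c u) * C.x i s *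
      (C.x c u * C.x (neg P c) (-((u⁻¹ : Rˣ) : R)) * C.x c u)⁻¹ =
        C.x (P.reflectionPerm c i) (v * s)) (s : R) :
    L.ww c u * L.y i s * (L.ww c u)⁻¹ = L.y (P.reflectionPerm c i) (v * s) := by
  by_cases hi : i = c ∨ i = neg P c
  · exact ww_conj2 hC hi (hdec i) u v hv s
  · push Not at hi
    apply ww_conj1 hC (Ne.symm hi.1) ?_ u v hv
    intro h0
    apply hi.2
    apply P.root.injective
    rw [root_neg, h0, neg_neg]

theorem ww_self (hdec : ∀ i, ∃ α β, P.root i = P.root α + P.root β) (c : ι) (u : Rˣ) (s : R) :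
    L.ww c u * L.y c s * (L.ww c u)⁻¹ =
      L.y (neg P c) (-(((u⁻¹ : Rˣ) : R) * ((u⁻¹ : Rˣ) : R)) * s) := by
  apply ww_conj hC hdec c c u (-(((u⁻¹ : Rˣ) : R) * ((u⁻¹ : Rˣ) : R)))
  intro s
  rw [C.w_self c u s, neg_mul]

end Lifts

end Pool.Agent.T2H35.Chev
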